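import Pool.Agent.D0H76.SPC.One

/-! # Transfer between windows for the four functions -/

set_option autoImplicit false

open Filter Topology MeasureTheory Finset

namespace Pool.Agent.D0H76.SPC

open H370 (NN zset)
open H385 (LF WW)
open Pool.Agent.R321.RC (On Cm)

/-- type of the functions of a height and two characters -/
abbrev Fn := ℝ → (q : ℕ) → DirichletCharacter ℂ q → (r : ℕ) → DirichletCharacter ℂ r → ℕ

/-- the functions to which the transfer applies -/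
def Ok (f : Fn) : Prop := ∀ (T T' A B : ℝ) (q : ℕ) (χ : DirichletCharacter ℂ q) (r : ℕ) (ψ : DirichletCharacter ℂ r),
  1 ≤ q → 1 ≤ r → χ.IsPrimitive → ψ.IsPrimitive → 1 ≤ T → 1 ≤ T' → 1 ≤ A →
  f T q χ r ψ ≤ NN (LF q χ) T (2 * T) + NN (LF r ψ) T (2 * T) ∧
  (Cov T (2 * T) T' (2 * T') A B → f T q χ r ψ ≤ f T' q χ r ψ + (NN (LF q χ) A B + NN (LF r ψ) A B))

theorem ok_N : Ok (fun T q χ _ _ => NN (LF q χ) T (2 * T)) := by
  intro T T' A B q χ r ψ hq hr hχ hψ hT hT' hA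
  refine ⟨Nat.le_add_right _ _, fun hc => ?_⟩
  have := NN_cov (goodL_of hq χ hχ) hT' hA hc
  simp only
  omega

theorem ok_O : Ok (fun T q χ r ψ => On (LF q χ) (LF r ψ) T) := by
  intro T T' A B q χ r ψ hq hr hχ hψ hT hT' hA
  refine ⟨(cnt hq hr χ hχ ψ hψ hT).1, fun hc => ?_⟩
  have := On_cov (G := LF r ψ) (goodL_of hq χ hχ) hT' hA hc
  simp only
  omega

theorem ok_U : Ok (fun T q χ r ψ => (zset (LF q χ) T (2 * T) ∪ zset (LF r ψ) T (2 * T)).ncard) := by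
  intro T T' A B q χ r ψ hq hr hχ hψ hT hT' hA
  exact ⟨(cnt hq hr χ hχ ψ hψ hT).2.1, fun hc => Un_cov (goodL_of hq χ hχ) (goodL_of hr ψ hψ) hT' hA hc⟩

theorem ok_C : Ok (fun T q χ r ψ => Cm (LF q χ) (LF r ψ) T) := by
  intro T T' A B q χ r ψ hq hr hχ hψ hT hT' hA
  refine ⟨(cnt hq hr χ hχ ψ hψ hT).2.2, fun hc => ?_⟩
  have := Cm_cov (G := LF r ψ) (goodL_of hq χ hχ) hT' hA hc
  simp only
  omega

/-- bounds for a pair of characters -/
theorem pair4 : ∃ C : ℝ, 0 < C ∧ ∀ f : Fn, Ok f → ∀ (X : ℕ) (T T' ρ : ℝ), 4 ≤ X → 3 ≤ T → T + 1 ≤ T' → T' ≤ 2 * T →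
    T' - T ≤ ρ * T → ∀ (q : ℕ) (χ : DirichletCharacter ℂ q) (r : ℕ) (ψ : DirichletCharacter ℂ r), X < q →
    (q : ℝ) ≤ (X : ℝ) ^ 2 → X < r → (r : ℝ) ≤ (X : ℝ) ^ 2 → χ.IsPrimitive → ψ.IsPrimitive →
    (f T q χ r ψ : ℝ) ≤ 6 * C * T * Real.log (X * T) ∧
    (f T q χ r ψ : ℝ) ≤ f T' q χ r ψ + 18 * C * ρ * T * Real.log (X * T) ∧
    (f T' q χ r ψ : ℝ) ≤ f T q χ r ψ + 18 * C * ρ * T * Real.log (X * T) := by
  obtain ⟨C, hC, hlay⟩ := layer
  refine ⟨C, hC, fun f hf X T T' ρ hX hT hT1 hT2 hρ q χ r ψ hq1 hq2 hr1 hr2 hχ hψ => ?_⟩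
  have hXr : (4 : ℝ) ≤ X := by exact_mod_cast hX
  have hXpos : (0 : ℝ) < X := by linarith
  have hTpos : 0 < T := by linarith
  obtain ⟨L, hL⟩ : ∃ L, L = Real.log (X * T) := ⟨_, rfl⟩
  have hLe : L = Real.log X + Real.log T := by rw [hL, Real.log_mul hXpos.ne' hTpos.ne']
  have hlT : 0 ≤ Real.log T := Real.log_nonneg (by linarith)
  have hlX : Real.log 4 ≤ Real.log X := Real.log_le_log (by norm_num) hXr
  have hl4 : 0 < Real.log 4 := Real.log_pos (by norm_num)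
  have hL0 : 0 < L := by linarith
  rw [← hL]
  -- logarithms
  have hlog : ∀ y : ℕ, X < y → (y : ℝ) ≤ (X : ℝ) ^ 2 → ∀ V : ℝ, 0 < V → V ≤ 4 * T → Real.log (y * V) ≤ 3 * L := by
    intro y hy1 hy2 V hV0 hV
    have hy0 : (0 : ℝ) < y := by exact_mod_cast (by omega : 0 < y)
    rw [Real.log_mul hy0.ne' hV0.ne']
    have k1 : Real.log y ≤ 2 * Real.log X := by
      have h3 := Real.log_le_log hy0 hy2
      rw [Real.log_pow] at h3
      push_cast at h3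
      exact h3
    have k2 : Real.log V ≤ Real.log 4 + Real.log T := by
      rw [← Real.log_mul (by norm_num) hTpos.ne']
      exact Real.log_le_log hV0 hV
    linarith
  have hcnt : ∀ (y : ℕ) (ξ : DirichletCharacter ℂ y), X < y → (y : ℝ) ≤ (X : ℝ) ^ 2 → ξ.IsPrimitive →
      (NN (LF y ξ) T (2 * T) : ℝ) ≤ 3 * C * T * L ∧ (NN (LF y ξ) T T' : ℝ) ≤ 9 * C * ρ * T * L ∧
      (NN (LF y ξ) (2 * T) (2 * T') : ℝ) ≤ 9 * C * ρ * T * L := by
    intro y ξ hy1 hy2 hξ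
    have l1 := hlay y ξ (by omega) hξ T (2 * T) hT (by linarith)
    have l2 := hlay y ξ (by omega) hξ T T' hT hT1
    have l3 := hlay y ξ (by omega) hξ (2 * T) (2 * T') (by linarith) (by linarith)
    have m1 := hlog y hy1 hy2 (2 * T) (by linarith) (by linarith)
    have m2 := hlog y hy1 hy2 T' (by linarith) (by linarith)
    have m3 := hlog y hy1 hy2 (2 * T') (by linarith) (by linarith)
    have d0 : 0 ≤ T' - T := by linarith
    have hρ0 : 0 ≤ ρ * T := d0.trans hρ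
    refine ⟨l1.trans ?_, l2.trans ?_, l3.trans ?_⟩
    · calc C * (2 * T - T) * Real.log (y * (2 * T)) ≤ C * (2 * T - T) * (3 * L) :=
            mul_le_mul_of_nonneg_left m1 (mul_nonneg hC.le (by linarith))
        _ = _ := by ring
    · calc C * (T' - T) * Real.log (y * T') ≤ C * (T' - T) * (3 * L) :=
            mul_le_mul_of_nonneg_left m2 (mul_nonneg hC.le d0)
        _ = 3 * C * L * (T' - T) := by ring
        _ ≤ 3 * C * L * (ρ * T) := mul_le_mul_of_nonneg_left hρ (by positivity)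
        _ ≤ 9 * C * L * (ρ * T) := by nlinarith [mul_nonneg (mul_nonneg hC.le hL0.le) hρ0]
        _ = _ := by ring
    · calc C * (2 * T' - 2 * T) * Real.log (y * (2 * T')) ≤ C * (2 * T' - 2 * T) * (3 * L) :=
            mul_le_mul_of_nonneg_left m3 (mul_nonneg hC.le (by linarith))
        _ = 6 * C * L * (T' - T) := by ring
        _ ≤ 6 * C * L * (ρ * T) := mul_le_mul_of_nonneg_left hρ (by positivity)
        _ ≤ 9 * C * L * (ρ * T) := by nlinarith [mul_nonneg (mul_nonneg hC.le hL0.le) hρ0]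
        _ = _ := by ring
  obtain ⟨u1, u2, u3⟩ := hcnt q χ hq1 hq2 hχ
  obtain ⟨v1, v2, v3⟩ := hcnt r ψ hr1 hr2 hψ
  have cov1 : Cov T (2 * T) T' (2 * T') T T' := by
    intro x hx1 hx2
    by_cases hx : x ≤ T'
    · exact Or.inr ⟨hx1, hx⟩
    · push Not at hx
      exact Or.inl ⟨hx, by linarith⟩
  have cov2 : Cov T' (2 * T') T (2 * T) (2 * T) (2 * T') := by
    intro x hx1 hx2
    by_cases hx : x ≤ 2 * T
    · exact Or.inl ⟨by linarith, hx⟩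
    · push Not at hx
      exact Or.inr ⟨hx, hx2⟩
  have o1 := hf T T' T T' q χ r ψ (by omega) (by omega) hχ hψ (by linarith) (by linarith) (by linarith)
  have o2 := hf T' T (2 * T) (2 * T') q χ r ψ (by omega) (by omega) hχ hψ (by linarith) (by linarith) (by linarith)
  have p1 : (f T q χ r ψ : ℝ) ≤ NN (LF q χ) T (2 * T) + NN (LF r ψ) T (2 * T) := by exact_mod_cast o1.1
  have p2 : (f T q χ r ψ : ℝ) ≤ f T' q χ r ψ + (NN (LF q χ) T T' + NN (LF r ψ) T T') := by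
    exact_mod_cast o1.2 cov1
  have p3 : (f T' q χ r ψ : ℝ) ≤ f T q χ r ψ + (NN (LF q χ) (2 * T) (2 * T') + NN (LF r ψ) (2 * T) (2 * T')) := by
    exact_mod_cast o2.2 cov2
  refine ⟨?_, ?_, ?_⟩ <;> linarith

/-- **Transfer.** -/
theorem transf : ∃ C X1 : ℝ, 0 < C ∧ 4 ≤ X1 ∧ ∀ f : Fn, Ok f → ∀ (α h β l : ℝ), 0 < α → 0 < h → 0 < β → 0 < l →
    ∀ (X Y X' Y' : ℕ) (T T' ρ δ : ℝ), X1 ≤ X → X ≤ X' → Y' ≤ Y → (Y : ℝ) ≤ (X : ℝ) ^ 2 → 4 * (Real.log X) ^ 2 ≤ T →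
    3 ≤ T → T + 1 ≤ T' → T' ≤ 2 * T → T' - T ≤ ρ * T → 0 ≤ ρ → 0 ≤ δ →
    W α h X Y - W α h X' Y' ≤ δ * W α h X Y → W β l X Y - W β l X' Y' ≤ δ * W β l X Y →
    T2 α h β l X Y (g (f T)) ≤ T2 α h β l X' Y' (g (f T')) +
      C * (δ + ρ) * T2 α h β l X Y (g (fun q χ _ _ => NN (LF q χ) T (2 * T))) ∧
    T2 α h β l X' Y' (g (f T')) ≤ T2 α h β l X Y (g (f T)) +
      C * (δ + ρ) * T2 α h β l X Y (g (fun q χ _ _ => NN (LF q χ) T (2 * T))) := by
  obtain ⟨C, hC, hp⟩ := pair4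
  obtain ⟨X1, hX1, hlow⟩ := low2
  have hpi := Real.pi_pos
  refine ⟨4 * Real.pi * (18 * C), max X1 4, by positivity, le_max_right _ _, ?_⟩
  intro f hf α h β l hα hh hβ hl X Y X' Y' T T' ρ δ hX hXX hYY hYX hT hT3 hT1 hT2 hρ hρ0 hδ0 hW1 hW2
  have hX1' : X1 ≤ X := (le_max_left _ _).trans hX
  have hX4 : (4 : ℝ) ≤ X := (le_max_right _ _).trans hX
  have hXn : 4 ≤ X := by exact_mod_cast hX4
  have hTpos : 0 < T := by linarith
  obtain ⟨L, hL⟩ : ∃ L, L = Real.log (X * T) := ⟨_, rfl⟩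
  have hL0 : 0 ≤ L := by rw [hL]; exact Real.log_nonneg (by nlinarith)
  have hqX : ∀ q : ℕ, q ≤ Y → (q : ℝ) ≤ (X : ℝ) ^ 2 := fun q hq => le_trans (by exact_mod_cast hq) hYX
  have hcmp := T2_cmp hα hh hβ hl hXX hYY (f T) (f T') (6 * C * T * L) (18 * C * ρ * T * L) (by
    intro q χ r ψ a1 a2 a3 a4 a5 a6
    have := hp f hf X T T' ρ hXn hT3 hT1 hT2 hρ q χ r ψ a1 (hqX q a2) a3 (hqX r a4) a5 a6
    rw [← hL] at this
    exact this)
  have hN := T2_low α h β l X Y (fun q χ _ _ => NN (LF q χ) T (2 * T)) (1 / (4 * Real.pi) * T * L) (by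
    intro q χ r ψ a1 a2 a3 a4 a5 a6
    have := hlow X T hX1' hT q χ a1 (hqX q a2) a5
    rw [← hL] at this
    exact this)
  obtain ⟨a, ha⟩ : ∃ a, a = W α h X Y := ⟨_, rfl⟩
  obtain ⟨b, hb⟩ : ∃ b, b = W β l X Y := ⟨_, rfl⟩
  obtain ⟨a', ha'⟩ : ∃ a', a' = W α h X' Y' := ⟨_, rfl⟩
  obtain ⟨b', hb'⟩ : ∃ b', b' = W β l X' Y' := ⟨_, rfl⟩
  have ha0 : 0 ≤ a := ha ▸ W_nonneg _ _ _ _
  have hb0 : 0 ≤ b := hb ▸ W_nonneg _ _ _ _
  have ha'0 : 0 ≤ a' := ha' ▸ W_nonneg _ _ _ _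
  have hb'0 : 0 ≤ b' := hb' ▸ W_nonneg _ _ _ _
  have haa : a' ≤ a := by rw [ha, ha']; exact W_mono hα hh hXX hYY
  have hbb : b' ≤ b := by rw [hb, hb']; exact W_mono hβ hl hXX hYY
  rw [← ha, ← hb, ← ha', ← hb'] at hcmp
  rw [← ha, ← hb] at hN
  rw [← ha, ← ha'] at hW1
  rw [← hb, ← hb'] at hW2
  obtain ⟨SN, hSN⟩ : ∃ SN, SN = T2 α h β l X Y (g (fun q χ _ _ => NN (LF q χ) T (2 * T))) := ⟨_, rfl⟩
  rw [← hSN] at hN ⊢
  obtain ⟨m, hm⟩ : ∃ m, m = T * L := ⟨_, rfl⟩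
  have hm0 : 0 ≤ m := by rw [hm]; positivity
  have hN' : m * (a * b) ≤ 4 * Real.pi * SN := by
    have e1 : 1 / (4 * Real.pi) * T * L * (a * b) = (1 / (4 * Real.pi)) * (m * (a * b)) := by rw [hm]; ring
    rw [e1, one_div, inv_mul_le_iff₀ (by positivity)] at hN
    linarith
  have hprod : a * b - a' * b' ≤ 2 * δ * (a * b) := by
    have k1 : (a - a') * b ≤ δ * a * b := mul_le_mul_of_nonneg_right hW1 hb0
    have k2 : a' * (b - b') ≤ a' * (δ * b) := mul_le_mul_of_nonneg_left hW2 ha'0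
    have k3 : a' * (δ * b) ≤ a * (δ * b) := mul_le_mul_of_nonneg_right haa (by positivity)
    nlinarith
  have hprod' : a' * b' ≤ a * b := mul_le_mul haa hbb hb'0 ha0
  have e1 : 6 * C * T * L * (a * b - a' * b') ≤ 12 * C * δ * (m * (a * b)) := by
    calc 6 * C * T * L * (a * b - a' * b') = 6 * C * m * (a * b - a' * b') := by rw [hm]; ring
      _ ≤ 6 * C * m * (2 * δ * (a * b)) := mul_le_mul_of_nonneg_left hprod (by positivity)
      _ = _ := by ring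
  have e2 : 18 * C * ρ * T * L * (a' * b') ≤ 18 * C * ρ * (m * (a * b)) := by
    calc 18 * C * ρ * T * L * (a' * b') = 18 * C * ρ * m * (a' * b') := by rw [hm]; ring
      _ ≤ 18 * C * ρ * m * (a * b) := mul_le_mul_of_nonneg_left hprod' (by positivity)
      _ = _ := by ring
  have e3 : 12 * C * δ * (m * (a * b)) + 18 * C * ρ * (m * (a * b)) ≤ 18 * C * (δ + ρ) * (m * (a * b)) := by
    have : 0 ≤ C * δ * (m * (a * b)) := by positivity
    linarith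
  have e4 : 18 * C * (δ + ρ) * (m * (a * b)) ≤ 18 * C * (δ + ρ) * (4 * Real.pi * SN) :=
    mul_le_mul_of_nonneg_left hN' (by positivity)
  have e5 : 18 * C * (δ + ρ) * (4 * Real.pi * SN) = 4 * Real.pi * (18 * C) * (δ + ρ) * SN := by ring
  have e6 : 0 ≤ 12 * C * δ * (m * (a * b)) := by positivity
  constructor
  · linarith [hcmp.1]
  · linarith [hcmp.2]

end Pool.Agent.D0H76.SPC
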