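import Pool.Agent.D0H76.SPC.Lamv
import Pool.Agent.D0H76.SPC.Tr

/-! # All windows and all heights -/

set_option autoImplicit false

open Filter Topology MeasureTheory

namespace Pool.Agent.D0H76.SPC.Sparse

open Pool.Agent.Results.MP_347b49_nt.CommonZerosPolynomialHeights
open Pool.Agent.D0H76.SPC (WF G coe_WF samp_f up cnt avg_low T2 T2_g W W_mono W_layers WF_mono masses transf inv_sum
  ok_N ok_O ok_U ok_C Fn Ok g_nonneg)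
open Pool.Agent.R321.RC (PF mem_PF avg2 LI)
open H370 (NN)
open H385 (LF WW)

theorem avgS_T2 {α h β l : ℝ} (hα : 0 < α) (hh : 0 < h) (hβ : 0 < β) (hl : 0 < l) (X Y : ℕ)
    (f : (q : ℕ) → DirichletCharacter ℂ q → (r : ℕ) → DirichletCharacter ℂ r → ℕ) :
    avgS α h β l X Y f = T2 α h β l X Y (Pool.Agent.D0H76.SPC.g f) := by
  rw [avgS_eq hα hh hβ hl, T2_g]

/-- the mass of the layers -/
theorem mass_layers {h μ s a : ℝ} (hh : 0 < h) (hμ : 0 < μ) (ha : 0 ≤ a) (hs1 : s ≤ 1 / (2 * h)) (hs2 : s ≤ μ / (4 * h))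
    {w w' e1 e2 WX : ℝ} (hw : w ≤ w' + e1 + e2) (hw' : w' ≤ w) (he1 : e1 ≤ 1 / h * ((a + 2) * μ) + s)
    (he2 : e2 ≤ 1 / h * (2 * μ) + s) (hW : 1 ≤ WX) (hW' : 1 / h * WX - s ≤ w') : w - w' ≤ (2 * a + 9) * μ * w := by
  have h1 : 1 / (2 * h) ≤ w := by
    have k1 : 1 / h * 1 ≤ 1 / h * WX := mul_le_mul_of_nonneg_left hW (by positivity)
    have k2 : 1 / h = 1 / (2 * h) + 1 / (2 * h) := by field_simp; norm_num
    linarith
  have h2 : 2 * s ≤ μ / (2 * h) := by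
    have : μ / (2 * h) = 2 * (μ / (4 * h)) := by field_simp; norm_num
    linarith
  calc w - w' ≤ 1 / h * ((a + 2) * μ) + 1 / h * (2 * μ) + μ / (2 * h) := by linarith
    _ = (2 * a + 9) * μ * (1 / (2 * h)) := by field_simp; ring
    _ ≤ (2 * a + 9) * μ * w := mul_le_mul_of_nonneg_left h1 (by positivity)

/-- the final comparison -/
theorem fin2 {a e D S S' F F' A : ℝ} (hS : 0 ≤ S) (hD : 0 ≤ D) (hDA : D * A ≤ e / 2) (hA : |a - e / 2| + 1 ≤ A)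
    (h1 : |S - S'| ≤ D * S) (h2 : F' ≤ F + D * S) (h3 : (a - e / 2) * S' ≤ F') : (a - e) * S ≤ F := by
  have k1 : (a - e / 2) * (S - S') ≤ |a - e / 2| * (D * S) := by
    calc (a - e / 2) * (S - S') ≤ |(a - e / 2) * (S - S')| := le_abs_self _
      _ = |a - e / 2| * |S - S'| := abs_mul _ _
      _ ≤ |a - e / 2| * (D * S) := mul_le_mul_of_nonneg_left h1 (abs_nonneg _)
  have k2 : (|a - e / 2| + 1) * (D * S) ≤ A * (D * S) := mul_le_mul_of_nonneg_right hA (by positivity)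
  have k3 : (D * A) * S ≤ e / 2 * S := mul_le_mul_of_nonneg_right hDA hS
  nlinarith

theorem a_lam2 {μ : ℝ} (h0 : 0 < μ) (h4 : μ ≤ 1 / 4) : (1 + μ) ^ 2 ≤ 2 := by nlinarith

theorem a_lam3 {μ : ℝ} (h0 : 0 < μ) (h4 : μ ≤ 1 / 4) : (1 + μ) ^ 2 ≤ 1 + 3 * μ := by nlinarith

theorem a_T4 {x T : ℝ} (h3 : 3 ≤ x) (hT : 4 * x ^ 2 ≤ T) : 4 * x ≤ T := by nlinarith

theorem a_flo {lam μ z : ℝ} (hlμ : lam = 1 + μ) (hμ0 : 0 < μ) (hz : lam / μ ≤ z) : z / lam ≤ (⌊z⌋₊ : ℝ) := by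
  have hlam0 : 0 < lam := by linarith
  have h1 : z < (⌊z⌋₊ : ℝ) + 1 := Nat.lt_floor_add_one z
  have h2 : lam ≤ z * μ := by rwa [div_le_iff₀ hμ0] at hz
  have h3 : z / lam + 1 ≤ z := by
    rw [div_add_one hlam0.ne', div_le_iff₀ hlam0]
    nlinarith
  linarith

theorem a_ylμ {lam μ y x : ℝ} (hlμ : lam = 1 + μ) (hμ0 : 0 < μ) (h2 : lam ^ 2 ≤ 2) (hx : 2 ≤ μ * x)
    (hxy : x < y * lam) : lam / μ ≤ y := by
  have hlam0 : 0 < lam := by linarith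
  have h3 : μ * x < μ * (y * lam) := mul_lt_mul_of_pos_left hxy hμ0
  rw [div_le_iff₀ hμ0]
  have h4 : lam * lam < (y * μ) * lam := by
    have : lam * lam ≤ 2 := by rw [← sq]; exact h2
    linarith
  exact (lt_of_mul_lt_mul_right h4 hlam0.le).le

theorem a_sq {μ lX d : ℝ} (hd0 : 0 ≤ d) (h1 : 3 * d ≤ μ * lX) (h2 : d ≤ lX) : (lX + d) ^ 2 ≤ (1 + μ) * lX ^ 2 := by
  nlinarith [mul_nonneg hd0 (sub_nonneg.2 h2), mul_nonneg (sub_nonneg.2 h2) (sub_nonneg.2 h1),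
    mul_nonneg (hd0.trans h2) (sub_nonneg.2 h1)]

theorem a_n1 {a i : ℕ} (hi : 1 ≤ i) : i + 1 + a ≤ (a + 2) * i := by nlinarith

theorem a_n2 {a j : ℕ} (hj : 1 ≤ j) : j + 1 ≤ (a + 2) * j := by nlinarith

theorem a_n3 {a i j : ℕ} (hj : j ≤ 2 * (i + 1)) : j ≤ (a + 2) * (i + 1 + a) := by nlinarith

/-- the new heights -/
theorem a_height {lam T : ℝ} (hl1 : 1 < lam) (hT : 1 ≤ T) : ∃ k : ℕ, lam * T < lam ^ (k + 2) ∧
    lam ^ (k + 2) ≤ lam ^ 2 * T := by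
  obtain ⟨k, hk1, hk2⟩ := exists_nat_pow_near hT hl1
  have hlam0 : 0 < lam := by linarith
  refine ⟨k, ?_, ?_⟩
  · calc lam * T < lam * lam ^ (k + 1) := mul_lt_mul_of_pos_left hk2 hlam0
      _ = _ := by ring
  · rw [pow_add, mul_comm]
    exact mul_le_mul_of_nonneg_left hk1 (by positivity)

/-- bounds for `log X'` -/
theorem a_c6 {lam μ X X' T T' lX : ℝ} {a : ℕ} (hlμ : lam = 1 + μ) (hμ0 : 0 < μ) (hμ4 : μ ≤ 1 / 4) (hX : 1 ≤ X) (hX' : 1 ≤ X')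
    (hu : X' ≤ X * lam ^ (a + 1)) (hlX : lX = Real.log X) (h1 : 3 * ((a : ℝ) + 1) ≤ lX) (hT : 4 * lX ^ 2 ≤ T)
    (hT' : lam * T < T') : 4 * (Real.log X') ^ 2 ≤ T' := by
  have hlam0 : 0 < lam := by linarith
  have hll : Real.log lam ≤ μ := by
    have := Real.log_le_sub_one_of_pos hlam0
    linarith
  have h0 : 0 ≤ Real.log X' := Real.log_nonneg hX'
  have h2 := Real.log_le_log (by linarith) hu
  rw [Real.log_mul (by linarith : X ≠ 0) (by positivity), Real.log_pow, ← hlX] at h2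
  push_cast at h2
  have h3 : ((a : ℝ) + 1) * Real.log lam ≤ ((a : ℝ) + 1) * μ := mul_le_mul_of_nonneg_left hll (by positivity)
  obtain ⟨d, hd⟩ : ∃ d, d = ((a : ℝ) + 1) * μ := ⟨_, rfl⟩
  rw [← hd] at h3
  have hd0 : 0 ≤ d := by rw [hd]; positivity
  have k1 : 3 * d ≤ μ * lX := by
    have : 3 * ((a : ℝ) + 1) * μ ≤ lX * μ := mul_le_mul_of_nonneg_right h1 hμ0.le
    rw [hd]
    linarith
  have k2 : d ≤ lX := by
    have : ((a : ℝ) + 1) * μ ≤ ((a : ℝ) + 1) * 1 := mul_le_mul_of_nonneg_left (by linarith) (by positivity)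
    have : (0 : ℝ) ≤ a := Nat.cast_nonneg a
    rw [hd]
    linarith
  have k3 : (Real.log X') ^ 2 ≤ (lX + d) ^ 2 := pow_le_pow_left₀ h0 (by linarith) 2
  have k4 := a_sq hd0 k1 k2
  rw [← hlμ] at k4
  have k5 : lam * (4 * lX ^ 2) ≤ lam * T := mul_le_mul_of_nonneg_left hT hlam0.le
  linarith

theorem a_c7 {lam τ X X' T T' : ℝ} {a0 : ℕ} (hl1 : 1 < lam) (hτ : 0 ≤ τ) (ha0τ : 2 ≤ (a0 : ℝ) * τ) (hX : 0 < X)
    (h1 : X * lam ^ a0 ≤ X') (hT0 : 0 ≤ T) (hT2 : T ≤ X ^ τ) (hT' : T' ≤ lam ^ 2 * T) : T' ≤ X' ^ τ := by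
  have hlam0 : 0 < lam := by linarith
  have h2 : (X * lam ^ a0) ^ τ ≤ X' ^ τ := Real.rpow_le_rpow (by positivity) h1 hτ
  have h3 : lam ^ 2 ≤ (lam ^ a0) ^ τ := by
    rw [← Real.rpow_natCast lam a0, ← Real.rpow_mul hlam0.le, ← Real.rpow_natCast lam 2]
    exact Real.rpow_le_rpow_of_exponent_le hl1.le (by push_cast; exact ha0τ)
  have h4 : (X * lam ^ a0) ^ τ = X ^ τ * (lam ^ a0) ^ τ := Real.mul_rpow hX.le (by positivity)
  calc T' ≤ lam ^ 2 * T := hT'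
    _ ≤ (lam ^ a0) ^ τ * X ^ τ := mul_le_mul h3 hT2 hT0 (by positivity)
    _ = (X * lam ^ a0) ^ τ := by rw [h4, mul_comm]
    _ ≤ _ := h2

/-- **The new window.** -/
theorem window {lam μ η τ K2 : ℝ} {a0 a I : ℕ} (hlμ : lam = 1 + μ) (hμ0 : 0 < μ) (hμ4 : μ ≤ 1 / 4) (hη : 0 < η)
    (hτ : 0 ≤ τ) (ha0τ : 2 ≤ (a0 : ℝ) * τ) (ha : a = a0 + 1) (hK2 : 2 ≤ K2) (X Y : ℕ) (T : ℝ)
    (y2 : Real.exp (3 * ((a : ℝ) + 1)) ≤ X) (y3 : Real.exp (1 / μ) ≤ X) (y4 : lam ^ I ≤ X) (y5 : 2 / μ ≤ X)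
    (hKX : K2 * lam ^ (a + 3) * X ≤ Y) (hYX : (Y : ℝ) ≤ (X : ℝ) ^ (1 + min η 1)) (hT1 : 4 * (Real.log X) ^ 2 ≤ T)
    (hT2 : T ≤ (X : ℝ) ^ τ) :
    ∃ (i j k : ℕ) (y w : ℝ) (X' Y' : ℕ) (T' : ℝ), y = lam ^ i ∧ w = lam ^ j ∧ X' = ⌊lam ^ (i + 1 + a)⌋₊ ∧
      Y' = ⌊lam ^ j⌋₊ ∧ T' = lam ^ (k + 2) ∧ I ≤ i ∧ i + 1 + a ≤ j ∧ j ≤ 2 * (i + 1) ∧ 0 < y ∧ 0 < w ∧
      y ≤ X ∧ (X : ℝ) < y * lam ∧ w ≤ Y ∧ (Y : ℝ) < w * lam ∧ lam / μ ≤ y ∧ lam / μ ≤ w ∧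
      X ≤ X' ∧ Y' ≤ Y ∧ (X' : ℝ) ≤ y * lam ^ (a + 1) ∧ w / lam ≤ Y' ∧ (0 : ℝ) < X' ∧
      T + 1 ≤ T' ∧ T' ≤ 2 * T ∧ T' - T ≤ 3 * μ * T ∧ K2 * X' ≤ Y' ∧ (Y' : ℝ) ≤ (X' : ℝ) ^ (1 + η) ∧
      4 * (Real.log X') ^ 2 ≤ T' ∧ T' ≤ (X' : ℝ) ^ τ ∧ 3 ≤ T ∧ (Y : ℝ) ≤ (X : ℝ) ^ 2 := by
  have hl1 : 1 < lam := by linarith
  have hlam0 : 0 < lam := by linarith
  have hlam2 : lam ^ 2 ≤ 2 := by rw [hlμ]; exact a_lam2 hμ0 hμ4
  have han : (0 : ℝ) ≤ a := Nat.cast_nonneg a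
  have hXpos : (0 : ℝ) < X := (Real.exp_pos _).trans_le y2
  have hX1' : (1 : ℝ) ≤ X := (Real.one_le_exp (by positivity)).trans y2
  obtain ⟨lX, hlX⟩ : ∃ lX, lX = Real.log X := ⟨_, rfl⟩
  have hlX1 : 3 * ((a : ℝ) + 1) ≤ lX := by
    rw [hlX, Real.le_log_iff_exp_le hXpos]
    exact y2
  have hlX2 : 1 / μ ≤ lX := by
    rw [hlX, Real.le_log_iff_exp_le hXpos]
    exact y3
  have hlX3 : 3 ≤ lX := by linarith
  rw [← hlX] at hT1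
  have hT4 : 4 * lX ≤ T := a_T4 hlX3 hT1
  have hT3 : 3 ≤ T := by linarith
  have hTpos : 0 < T := by linarith
  have hμT : 1 ≤ μ * T := by
    have h1 : μ * (1 / μ) = 1 := by field_simp
    have h2 : μ * (1 / μ) ≤ μ * T := mul_le_mul_of_nonneg_left (by linarith) hμ0.le
    linarith
  have hlp : (1 : ℝ) ≤ lam ^ (a + 3) := one_le_pow₀ hl1.le
  have hK'1 : K2 ≤ K2 * lam ^ (a + 3) := le_mul_of_one_le_right (by linarith) hlp
  have hXY : (X : ℝ) ≤ Y := by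
    have : 1 * (X : ℝ) ≤ K2 * lam ^ (a + 3) * X := mul_le_mul_of_nonneg_right (by linarith) hXpos.le
    linarith
  have hY1 : (1 : ℝ) ≤ Y := hX1'.trans hXY
  have hYX2 : (Y : ℝ) ≤ (X : ℝ) ^ 2 := by
    refine (hYX.trans (Real.rpow_le_rpow_of_exponent_le hX1'
      (show 1 + min η 1 ≤ ((2 : ℕ) : ℝ) by push_cast; linarith [min_le_right η 1]))).trans (le_of_eq ?_)
    rw [Real.rpow_natCast]
  obtain ⟨i, hi1, hi2⟩ := exists_nat_pow_near hX1' hl1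
  obtain ⟨j, hj1, hj2⟩ := exists_nat_pow_near hY1 hl1
  obtain ⟨k, hk1, hk2⟩ := a_height hl1 (show (1 : ℝ) ≤ T by linarith)
  have hIi : I ≤ i := by
    have h1 : lam ^ I < lam ^ (i + 1) := lt_of_le_of_lt y4 hi2
    have h2 := (pow_lt_pow_iff_right₀ hl1).1 h1
    omega
  obtain ⟨y, hy⟩ : ∃ y, y = lam ^ i := ⟨_, rfl⟩
  obtain ⟨w, hw⟩ : ∃ w, w = lam ^ j := ⟨_, rfl⟩
  have hi2' : (X : ℝ) < y * lam := by rw [hy, ← pow_succ]; exact hi2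
  have hj2' : (Y : ℝ) < w * lam := by rw [hw, ← pow_succ]; exact hj2
  rw [← hy] at hi1
  rw [← hw] at hj1
  have hy0 : 0 < y := by rw [hy]; positivity
  have hw0 : 0 < w := by rw [hw]; positivity
  have hμX : 2 ≤ μ * X := by rw [div_le_iff₀ hμ0] at y5; linarith
  have hμY : 2 ≤ μ * Y := hμX.trans (mul_le_mul_of_nonneg_left hXY hμ0.le)
  have hylμ : lam / μ ≤ y := a_ylμ hlμ hμ0 hlam2 hμX hi2'
  have hwlμ : lam / μ ≤ w := a_ylμ hlμ hμ0 hlam2 hμY hj2'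
  obtain ⟨z, hz⟩ : ∃ z, z = y * lam ^ (a + 1) := ⟨_, rfl⟩
  have hz' : lam ^ (i + 1 + a) = z := by rw [hz, hy, ← pow_add]; congr 1; ring
  have hla1 : lam ≤ lam ^ (a + 1) := le_self_pow₀ hl1.le (by omega)
  have hyz : y * lam ≤ z := by rw [hz]; exact mul_le_mul_of_nonneg_left hla1 hy0.le
  have hyz' : y ≤ z := (le_mul_of_one_le_right hy0.le hl1.le).trans hyz
  obtain ⟨X', hX'⟩ : ∃ X' : ℕ, X' = ⌊lam ^ (i + 1 + a)⌋₊ := ⟨_, rfl⟩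
  obtain ⟨Y', hY'⟩ : ∃ Y' : ℕ, Y' = ⌊lam ^ j⌋₊ := ⟨_, rfl⟩
  obtain ⟨T', hT'⟩ : ∃ T' : ℝ, T' = lam ^ (k + 2) := ⟨_, rfl⟩
  rw [← hT'] at hk1 hk2
  have hXX' : X ≤ X' := by
    rw [hX', hz']
    exact Nat.le_floor (hi2'.le.trans hyz)
  have hYY' : Y' ≤ Y := by
    rw [hY', ← hw]
    exact Nat.floor_le_of_le hj1
  have hX'u : (X' : ℝ) ≤ z := by rw [hX', hz']; exact Nat.floor_le (hy0.le.trans hyz')
  have hX'l : z / lam ≤ X' := by rw [hX', hz']; exact a_flo hlμ hμ0 (hylμ.trans hyz')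
  have hY'l : w / lam ≤ Y' := by rw [hY', ← hw]; exact a_flo hlμ hμ0 hwlμ
  have hXXr : (X : ℝ) ≤ X' := by exact_mod_cast hXX'
  have hYYr : (Y' : ℝ) ≤ Y := by exact_mod_cast hYY'
  have hX'pos : (0 : ℝ) < X' := by linarith
  have hX'up : (X' : ℝ) ≤ X * lam ^ (a + 1) := by
    refine hX'u.trans ?_
    rw [hz]
    exact mul_le_mul_of_nonneg_right hi1 (by positivity)
  have c4 : K2 * X' ≤ Y' := by
    have h2 : (Y : ℝ) / lam ^ 2 ≤ Y' := by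
      refine le_trans ?_ hY'l
      rw [div_le_div_iff₀ (by positivity) hlam0]
      have : (Y : ℝ) * lam ≤ (w * lam) * lam := mul_le_mul_of_nonneg_right hj2'.le hlam0.le
      linarith
    refine le_trans ?_ h2
    rw [le_div_iff₀ (by positivity)]
    calc K2 * X' * lam ^ 2 ≤ K2 * (X * lam ^ (a + 1)) * lam ^ 2 := by
          apply mul_le_mul_of_nonneg_right _ (by positivity)
          exact mul_le_mul_of_nonneg_left hX'up (by linarith)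
      _ = K2 * lam ^ (a + 3) * X := by ring
      _ ≤ Y := hKX
  have hij : i + 1 + a ≤ j := by
    by_contra hcon
    push Not at hcon
    have h1 : lam ^ j ≤ lam ^ (i + 1 + a) := pow_le_pow_right₀ hl1.le hcon.le
    have h2 : Y' ≤ X' := by
      rw [hX', hY']
      exact Nat.floor_le_floor h1
    have h3 : (Y' : ℝ) ≤ X' := by exact_mod_cast h2
    have h4 : 2 * (X' : ℝ) ≤ K2 * X' := mul_le_mul_of_nonneg_right hK2 hX'pos.le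
    linarith
  have hj3 : j ≤ 2 * (i + 1) := by
    by_contra hcon
    push Not at hcon
    have h1 : lam ^ (2 * (i + 1)) ≤ lam ^ j := pow_le_pow_right₀ hl1.le hcon.le
    have h2 : lam ^ (2 * (i + 1)) = (y * lam) ^ 2 := by rw [hy, ← pow_succ, ← pow_mul, mul_comm]
    have h3 : (X : ℝ) ^ 2 < (y * lam) ^ 2 := pow_lt_pow_left₀ hi2' hXpos.le (by norm_num)
    rw [h2, ← hw] at h1
    linarith
  refine ⟨i, j, k, y, w, X', Y', T', hy, hw, hX', hY', hT', hIi, hij, hj3, hy0, hw0, hi1, hi2', hj1, hj2', hylμ,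
    hwlμ, hXX', hYY', by rw [← hz]; exact hX'u, hY'l, hX'pos, ?_, ?_, ?_, c4, ?_, ?_, ?_, hT3, hYX2⟩
  · have : lam * T = T + μ * T := by rw [hlμ]; ring
    linarith
  · exact hk2.trans (mul_le_mul_of_nonneg_right hlam2 hTpos.le)
  · have h1 : lam ^ 2 ≤ 1 + 3 * μ := by rw [hlμ]; exact a_lam3 hμ0 hμ4
    have h2 := mul_le_mul_of_nonneg_right h1 hTpos.le
    linarith
  · refine hYYr.trans (hYX.trans ?_)
    refine (Real.rpow_le_rpow_of_exponent_le hX1' (by linarith [min_le_left η 1] : 1 + min η 1 ≤ 1 + η)).trans ?_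
    exact Real.rpow_le_rpow hXpos.le hXXr (by linarith)
  · exact a_c6 hlμ hμ0 hμ4 hX1' (by linarith) hX'up hlX hlX1 hT1 hk1
  · refine a_c7 hl1 hτ ha0τ hXpos ?_ hTpos.le hT2 hk2
    refine le_trans ?_ hX'l
    rw [le_div_iff₀ hlam0, hz, ha]
    have h2 : (X : ℝ) * lam ^ (a0 + 1) ≤ (y * lam) * lam ^ (a0 + 1) :=
      mul_le_mul_of_nonneg_right hi2'.le (by positivity)
    calc (X : ℝ) * lam ^ a0 * lam = X * lam ^ (a0 + 1) := by ring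
      _ ≤ (y * lam) * lam ^ (a0 + 1) := h2
      _ = _ := by ring

/-- the layers -/
theorem layers {lam μ s : ℝ} {a I1 : ℕ} (hlμ : lam = 1 + μ) (hμ0 : 0 < μ) {i j X Y X' Y' : ℕ} {y w : ℝ} (hy : y = lam ^ i) (hw : w = lam ^ j)
    (hX' : X' = ⌊lam ^ (i + 1 + a)⌋₊) (hY' : Y' = ⌊lam ^ j⌋₊) (hI1i : I1 ≤ i) (hi1' : 1 ≤ i) (hij : i + 1 + a ≤ j)
    (hj3 : j ≤ 2 * (i + 1)) (hy0 : 0 < y) (hw0 : 0 < w) (hi1 : y ≤ X) (hj2' : (Y : ℝ) < w * lam)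
    (hylμ : lam / μ ≤ y) (hXX' : X ≤ X') (hYY' : Y' ≤ Y) (hX'u : (X' : ℝ) ≤ y * lam ^ (a + 1))
    (hY'l : w / lam ≤ Y') (hX'pos : (0 : ℝ) < X') (hWW : 1 ≤ WW X' Y')
    (h' : ℝ) (α' : ℝ) (hh' : 0 < h') (hα' : 0 < α') (hs1' : s ≤ 1 / (2 * h')) (hs2' : s ≤ μ / (4 * h'))
    (hm : ∀ i' : ℕ, I1 ≤ i' → ∀ j' : ℕ, i' ≤ j' → j' ≤ (a + 2) * i' →
        ∑ n ∈ WF α' h' (Pool.Agent.D0H76.SPC.X lam i') (Pool.Agent.D0H76.SPC.X lam j'), (1 : ℝ) / n ≤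
          1 / h' * ∑ q ∈ Finset.Ioc (Pool.Agent.D0H76.SPC.X lam i') (Pool.Agent.D0H76.SPC.X lam j'), (1 : ℝ) / q + s ∧
        1 / h' * WW (Pool.Agent.D0H76.SPC.X lam i') (Pool.Agent.D0H76.SPC.X lam j') - s ≤
          W α' h' (Pool.Agent.D0H76.SPC.X lam i') (Pool.Agent.D0H76.SPC.X lam j')) :
    W α' h' X Y - W α' h' X' Y' ≤ (2 * (a : ℝ) + 9) * μ * W α' h' X Y := by
  have hl1 : 1 < lam := by linarith
  have hlam0 : 0 < lam := by linarith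
  have han : (0 : ℝ) ≤ a := Nat.cast_nonneg a
  have hll : Real.log lam ≤ μ := by
    have := Real.log_le_sub_one_of_pos hlam0
    linarith
  have xX : ∀ n : ℕ, Pool.Agent.D0H76.SPC.X lam n = ⌊lam ^ n⌋₊ := fun n => rfl
  have e1 : ∑ n ∈ WF α' h' X X', (1 : ℝ) / n ≤ 1 / h' * (((a : ℝ) + 2) * μ) + s := by
    have k1 := (hm i hI1i (i + 1 + a) (by omega) (a_n1 hi1')).1
    rw [xX, xX, ← hX', ← hy] at k1
    have hfy : y / lam ≤ (⌊y⌋₊ : ℝ) := a_flo hlμ hμ0 hylμ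
    have hfy0 : (0 : ℝ) < ⌊y⌋₊ := lt_of_lt_of_le (by positivity) hfy
    have hfyX : ⌊y⌋₊ ≤ X := Nat.floor_le_of_le hi1
    have k2 := inv_sum ⌊y⌋₊ X' (by exact_mod_cast hfy0) (hfyX.trans hXX')
    have k3 : Real.log X' - Real.log ⌊y⌋₊ ≤ ((a : ℝ) + 2) * μ := by
      have l1 : Real.log X' ≤ Real.log (y * lam ^ (a + 1)) := Real.log_le_log hX'pos hX'u
      have l2 : Real.log (y / lam) ≤ Real.log ⌊y⌋₊ := Real.log_le_log (by positivity) hfy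
      rw [Real.log_div hy0.ne' hlam0.ne'] at l2
      rw [Real.log_mul hy0.ne' (by positivity), Real.log_pow] at l1
      push_cast at l1
      have l3 : ((a : ℝ) + 2) * Real.log lam ≤ ((a : ℝ) + 2) * μ := mul_le_mul_of_nonneg_left hll (by positivity)
      linarith
    have k4 : ∑ n ∈ WF α' h' X X', (1 : ℝ) / n ≤ ∑ n ∈ WF α' h' ⌊y⌋₊ X', (1 : ℝ) / n :=
      Finset.sum_le_sum_of_subset_of_nonneg (WF_mono hα' hh' hfyX le_rfl) fun n _ _ => by positivity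
    have k5 : 1 / h' * ∑ q ∈ Finset.Ioc ⌊y⌋₊ X', (1 : ℝ) / q ≤ 1 / h' * (((a : ℝ) + 2) * μ) :=
      mul_le_mul_of_nonneg_left (k2.trans k3) (by positivity)
    linarith
  have e2 : ∑ n ∈ WF α' h' Y' Y, (1 : ℝ) / n ≤ 1 / h' * (2 * μ) + s := by
    have k1 := (hm j (by omega) (j + 1) (by omega) (a_n2 (by omega))).1
    rw [xX, xX, ← hY', pow_succ, ← hw] at k1
    have hY'0 : (0 : ℝ) < Y' := lt_of_lt_of_le (by positivity) hY'l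
    have hYf : Y ≤ ⌊w * lam⌋₊ := Nat.le_floor hj2'.le
    have k2 := inv_sum Y' ⌊w * lam⌋₊ (by exact_mod_cast hY'0) (hYY'.trans hYf)
    have k3 : Real.log ⌊w * lam⌋₊ - Real.log Y' ≤ 2 * μ := by
      have l0 : (0 : ℝ) < ⌊w * lam⌋₊ := by
        have h1 : (Y : ℝ) ≤ ⌊w * lam⌋₊ := by exact_mod_cast hYf
        have h2 : (Y' : ℝ) ≤ Y := by exact_mod_cast hYY'
        linarith
      have l1 : Real.log ⌊w * lam⌋₊ ≤ Real.log (w * lam) := Real.log_le_log l0 (Nat.floor_le (by positivity))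
      have l2 : Real.log (w / lam) ≤ Real.log Y' := Real.log_le_log (by positivity) hY'l
      rw [Real.log_div hw0.ne' hlam0.ne'] at l2
      rw [Real.log_mul hw0.ne' hlam0.ne'] at l1
      linarith
    have k4 : ∑ n ∈ WF α' h' Y' Y, (1 : ℝ) / n ≤ ∑ n ∈ WF α' h' Y' ⌊w * lam⌋₊, (1 : ℝ) / n :=
      Finset.sum_le_sum_of_subset_of_nonneg (WF_mono hα' hh' le_rfl hYf) fun n _ _ => by positivity
    have k5 : 1 / h' * ∑ q ∈ Finset.Ioc Y' ⌊w * lam⌋₊, (1 : ℝ) / q ≤ 1 / h' * (2 * μ) :=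
      mul_le_mul_of_nonneg_left (k2.trans k3) (by positivity)
    linarith
  have e3 := (hm (i + 1 + a) (by omega) j hij (a_n3 hj3)).2
  rw [xX, xX, ← hX', ← hY'] at e3
  exact mass_layers hh' hμ0 han hs1' hs2' (W_layers hα' hh') (W_mono hα' hh' hXX' hYY') e1 e2 hWW e3

theorem all :
    ∀ h l : ℝ, 0 < h → 0 < l → ∀ᵐ α : ℝ, 0 < α → ∀ᵐ β : ℝ, 0 < β →
      ∀ τ ε : ℝ, 0 ≤ τ → 0 < ε → ∃ K η X₀ : ℝ, 1 ≤ K ∧ 0 < η ∧ 1 ≤ X₀ ∧
      ∀ (X Y : ℕ) (T : ℝ), X₀ ≤ X → K * X ≤ Y → (Y : ℝ) ≤ (X : ℝ) ^ (1 + η) → 4 * (Real.log X) ^ 2 ≤ T →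
      T ≤ (X : ℝ) ^ τ →
      (idx α h X Y).Finite ∧ (idx β l X Y).Finite ∧
      (∀ q : ℕ, X < q → ∀ χ ∈ prim q, (zeros (Lfun q χ) T).Finite) ∧
      0 < avgS α h β l X Y (fun q χ _ _ => N (Lfun q χ) T) ∧
      (2 - c ((2 + τ) / (1 + τ)) - ε) * avgS α h β l X Y (fun q χ _ _ => N (Lfun q χ) T) ≤
        avgS α h β l X Y (fun q χ r ψ => (only (Lfun q χ) (Lfun r ψ) T).ncard) ∧
      (3 - c ((2 + τ) / (1 + τ)) - ε) * avgS α h β l X Y (fun q χ _ _ => N (Lfun q χ) T) ≤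
        avgS α h β l X Y (fun q χ r ψ => (zeros (Lfun q χ) T ∪ zeros (Lfun r ψ) T).ncard) ∧
      avgS α h β l X Y (fun q χ r ψ => common (Lfun q χ) (Lfun r ψ) T) ≤
        (c ((2 + τ) / (1 + τ)) - 1 + ε) * avgS α h β l X Y (fun q χ _ _ => N (Lfun q χ) T) := by
  intro h l hh hl0
  obtain ⟨lm, hlm⟩ : ∃ lm : ℕ → ℝ, lm = fun M : ℕ => 1 + 1 / ((M : ℝ) + 4) := ⟨_, rfl⟩
  have hlm1 : ∀ M, 1 < lm M := by
    intro M
    rw [hlm]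
    simp only
    have : (0 : ℝ) < 1 / ((M : ℝ) + 4) := by positivity
    linarith
  have A1 := ae_all_iff.2 fun M : ℕ => lamv.1 h l (lm M) hh hl0 (hlm1 M)
  have A2 := ae_all_iff.2 fun M : ℕ => masses h hh (lm M) (hlm1 M)
  have A3 := ae_all_iff.2 fun M : ℕ => masses l hl0 (lm M) (hlm1 M)
  filter_upwards [A1, A2] with α a1 a2 hα0
  have A4 := ae_all_iff.2 fun M : ℕ => a1 M hα0
  filter_upwards [A4, A3] with β b1 b2 hβ0 τ ε hτ hε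
  by_cases hτ0 : τ = 0
  · refine ⟨1, 1, Real.exp 1, le_rfl, one_pos, Real.one_le_exp (by norm_num), ?_⟩
    intro X Y T hX _ _ hT1 hT2
    exfalso
    have hXpos : (0 : ℝ) < X := (Real.exp_pos 1).trans_le hX
    have h1 : 1 ≤ Real.log X := by
      rw [Real.le_log_iff_exp_le hXpos]
      exact hX
    rw [hτ0, Real.rpow_zero] at hT2
    nlinarith
  have hτp : 0 < τ := lt_of_le_of_ne hτ (Ne.symm hτ0)
  obtain ⟨cc, hcc⟩ : ∃ cc : ℝ, cc = c ((2 + τ) / (1 + τ)) := ⟨_, rfl⟩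
  obtain ⟨A, hA⟩ : ∃ A : ℝ, A = |2 - cc - ε / 2| + |3 - cc - ε / 2| + |1 - cc - ε / 2| + 1 := ⟨_, rfl⟩
  have hn1 := abs_nonneg (2 - cc - ε / 2)
  have hn2 := abs_nonneg (3 - cc - ε / 2)
  have hn3 := abs_nonneg (1 - cc - ε / 2)
  have hA1 : 1 ≤ A := by linarith
  have hA0 : 0 < A := by linarith
  obtain ⟨C, X1, hC, hX1, htr⟩ := transf
  obtain ⟨K3, hK3, hmass⟩ := Pool.Agent.N880.HP.mass_ge
  obtain ⟨a0, ha0⟩ : ∃ a0 : ℕ, a0 = ⌈2 / τ⌉₊ := ⟨_, rfl⟩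
  have ha0τ : 2 ≤ (a0 : ℝ) * τ := by
    have : 2 / τ ≤ a0 := by rw [ha0]; exact Nat.le_ceil _
    rw [div_le_iff₀ hτp] at this
    exact this
  obtain ⟨a, ha⟩ : ∃ a : ℕ, a = a0 + 1 := ⟨_, rfl⟩
  obtain ⟨M, hM⟩ := exists_nat_one_div_lt (show 0 < ε / 2 / A / (C * (2 * (a : ℝ) + 12)) by positivity)
  obtain ⟨μ, hμ⟩ : ∃ μ : ℝ, μ = 1 / ((M : ℝ) + 4) := ⟨_, rfl⟩
  have hμ0 : 0 < μ := by rw [hμ]; positivity
  have hM0 : (0 : ℝ) ≤ M := Nat.cast_nonneg M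
  have hμ4 : μ ≤ 1 / 4 := by
    rw [hμ]
    exact one_div_le_one_div_of_le (by norm_num) (by linarith)
  have hμM : μ ≤ 1 / ((M : ℝ) + 1) := by
    rw [hμ]
    exact one_div_le_one_div_of_le (by positivity) (by linarith)
  have hμC : C * ((2 * (a : ℝ) + 9) * μ + 3 * μ) * A ≤ ε / 2 := by
    have h1 : μ ≤ ε / 2 / A / (C * (2 * (a : ℝ) + 12)) := hμM.trans hM.le
    rw [le_div_iff₀ (by positivity), le_div_iff₀ hA0] at h1
    linarith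
  obtain ⟨lam, hlam⟩ : ∃ lam : ℝ, lam = lm M := ⟨_, rfl⟩
  have hl1 : 1 < lam := by rw [hlam]; exact hlm1 M
  have hlμ : lam = 1 + μ := by rw [hlam, hlm, hμ]
  have hlam0 : 0 < lam := by linarith
  have hll : Real.log lam ≤ μ := by
    have := Real.log_le_sub_one_of_pos hlam0
    linarith
  have hll0 : 0 < Real.log lam := Real.log_pos hl1
  obtain ⟨s, hs⟩ : ∃ s : ℝ, s = min (min (1 / (2 * h)) (1 / (2 * l))) (min (μ / (4 * h)) (μ / (4 * l))) := ⟨_, rfl⟩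
  have hs0 : 0 < s := by rw [hs]; positivity
  have hs1 : s ≤ 1 / (2 * h) := by rw [hs]; exact (min_le_left _ _).trans (min_le_left _ _)
  have hs2 : s ≤ 1 / (2 * l) := by rw [hs]; exact (min_le_left _ _).trans (min_le_right _ _)
  have hs3 : s ≤ μ / (4 * h) := by rw [hs]; exact (min_le_right _ _).trans (min_le_left _ _)
  have hs4 : s ≤ μ / (4 * l) := by rw [hs]; exact (min_le_right _ _).trans (min_le_right _ _)
  obtain ⟨K, η, i₀, hK, hη, hst⟩ := b1 M hβ0 τ (ε / 2) hτ (by positivity)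
  rw [← hlam] at hst
  have m1 := a2 M hα0 s hs0 (a + 2)
  have m2 := b2 M hβ0 s hs0 (a + 2)
  rw [← hlam] at m1 m2
  obtain ⟨I1, hI1⟩ := eventually_atTop.1 (m1.and m2)
  obtain ⟨I, hI⟩ : ∃ I : ℕ, I = max (max I1 i₀) 1 := ⟨_, rfl⟩
  obtain ⟨K2, hK2⟩ : ∃ K2 : ℝ, K2 = max (max K K3) 2 := ⟨_, rfl⟩
  have hK2a : K ≤ K2 := by rw [hK2]; exact (le_max_left _ _).trans (le_max_left _ _)
  have hK2b : K3 ≤ K2 := by rw [hK2]; exact (le_max_right _ _).trans (le_max_left _ _)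
  have hK2c : 2 ≤ K2 := by rw [hK2]; exact le_max_right _ _
  obtain ⟨K', hK'⟩ : ∃ K' : ℝ, K' = K2 * lam ^ (a + 3) := ⟨_, rfl⟩
  have hlp : (1 : ℝ) ≤ lam ^ (a + 3) := one_le_pow₀ hl1.le
  have hK'1 : K2 ≤ K' := by
    rw [hK']
    exact le_mul_of_one_le_right (by linarith) hlp
  obtain ⟨Z, hZ⟩ : ∃ Z : ℝ, Z = X1 + Real.exp (3 * ((a : ℝ) + 1)) + Real.exp (1 / μ) + lam ^ I + 2 / μ := ⟨_, rfl⟩
  have z1 := Real.exp_pos (3 * ((a : ℝ) + 1))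
  have z2 := Real.exp_pos (1 / μ)
  have z3 : 0 < lam ^ I := by positivity
  have z4 : 0 < 2 / μ := by positivity
  refine ⟨K', min η 1, Z, by linarith, lt_min hη one_pos, by linarith, ?_⟩
  intro X Y T hX hKX hYX hT1 hT2
  have y1 : X1 ≤ X := by linarith
  rw [hK'] at hKX
  obtain ⟨i, j, k, y, w, X', Y', T', hy, hw, hX', hY', hT', hIi, hij, hj3, hy0, hw0, hi1, hi2', hj1, hj2', hylμ,
    hwlμ, hXX', hYY', hX'u, hY'l, hX'pos, c1, c2, c3, c4, c5, c6, c7, hT3, hYX2⟩ :=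
    window hlμ hμ0 hμ4 hη hτ ha0τ ha hK2c X Y T (by linarith) (by linarith) (by linarith) (by linarith)
      hKX hYX hT1 hT2
  have hi1' : 1 ≤ i := by
    have : 1 ≤ I := by rw [hI]; exact le_max_right _ _
    omega
  have hI1i : I1 ≤ i := by
    have : I1 ≤ I := by rw [hI]; exact (le_max_left _ _).trans (le_max_left _ _)
    omega
  have hi₀i : i₀ ≤ i := by
    have : i₀ ≤ I := by rw [hI]; exact (le_max_right _ _).trans (le_max_left _ _)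
    omega
  obtain ⟨r1, r2, r3, r4, r5, r6, r7⟩ := hst (i + 1 + a) j (k + 2) (by omega) X' Y' T' hX' hY' hT'
    ((mul_le_mul_of_nonneg_right hK2a hX'pos.le).trans c4) c5 c6 c7
  have hWW : 1 ≤ WW X' Y' := hmass X' Y' (by
    have h1 : (0 : ℝ) < X' := hX'pos
    have h2 : 0 < X' := by exact_mod_cast h1
    omega) ((mul_le_mul_of_nonneg_right hK2b hX'pos.le).trans c4)
  have w1 := layers hlμ hμ0 hy hw hX' hY' hI1i hi1' hij hj3 hy0 hw0 hi1 hj2' hylμ hXX' hYY' hX'u hY'l hX'pos hWW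
    h α hh hα0 hs1 hs3 fun i' hi' j' h1 h2 => (hI1 i' hi').1 j' h1 h2
  have w2 := layers hlμ hμ0 hy hw hX' hY' hI1i hi1' hij hj3 hy0 hw0 hi1 hj2' hylμ hXX' hYY' hX'u hY'l hX'pos hWW
    l β hl0 hβ0 hs2 hs4 fun i' hi' j' h1 h2 => (hI1 i' hi').2 j' h1 h2
  obtain ⟨D, hD⟩ : ∃ D : ℝ, D = C * ((2 * (a : ℝ) + 9) * μ + 3 * μ) := ⟨_, rfl⟩
  have hD0 : 0 ≤ D := by rw [hD]; positivity
  rw [← hD] at hμC
  have hp1 : 0 ≤ 3 * μ := by positivity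
  have hp2 : 0 ≤ (2 * (a : ℝ) + 9) * μ := by positivity
  have tN := htr _ ok_N α h β l hα0 hh hβ0 hl0 X Y X' Y' T T' (3 * μ) ((2 * (a : ℝ) + 9) * μ) y1 hXX' hYY' hYX2 hT1 hT3 c1 c2 c3
    hp1 hp2 w1 w2
  have tO := htr _ ok_O α h β l hα0 hh hβ0 hl0 X Y X' Y' T T' (3 * μ) ((2 * (a : ℝ) + 9) * μ) y1 hXX' hYY' hYX2 hT1 hT3 c1 c2 c3
    hp1 hp2 w1 w2
  have tU := htr _ ok_U α h β l hα0 hh hβ0 hl0 X Y X' Y' T T' (3 * μ) ((2 * (a : ℝ) + 9) * μ) y1 hXX' hYY' hYX2 hT1 hT3 c1 c2 c3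
    hp1 hp2 w1 w2
  have tC := htr _ ok_C α h β l hα0 hh hβ0 hl0 X Y X' Y' T T' (3 * μ) ((2 * (a : ℝ) + 9) * μ) y1 hXX' hYY' hYX2 hT1 hT3 c1 c2 c3
    hp1 hp2 w1 w2
  rw [← hD] at tN tO tU tC
  simp only at tN tO tU tC
  rw [avgS_T2 hα0 hh hβ0 hl0] at r4 r5 r6 r7
  rw [avgS_T2 hα0 hh hβ0 hl0] at r5 r6 r7
  rw [← hcc] at r5 r6 r7 ⊢
  rw [avgS_T2 hα0 hh hβ0 hl0, avgS_T2 hα0 hh hβ0 hl0, avgS_T2 hα0 hh hβ0 hl0, avgS_T2 hα0 hh hβ0 hl0]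
  obtain ⟨S, hS⟩ : ∃ S, S = T2 α h β l X Y (Pool.Agent.D0H76.SPC.g
    (fun q χ _ _ => NN (LF q χ) T (2 * T))) := ⟨_, rfl⟩
  have hS0 : 0 ≤ S := by
    rw [hS]
    unfold T2
    exact Finset.sum_nonneg fun m _ => Finset.sum_nonneg fun n _ => div_nonneg (g_nonneg _ _ _) (by positivity)
  obtain ⟨S', hS'⟩ : ∃ S', S' = T2 α h β l X' Y' (Pool.Agent.D0H76.SPC.g
    (fun q χ _ _ => NN (LF q χ) T' (2 * T'))) := ⟨_, rfl⟩
  rw [← hS, ← hS'] at tN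
  rw [← hS] at tO tU tC
  have q4 : 0 < S' := by rw [hS']; exact r4
  have q5 : (2 - cc - ε / 2) * S' ≤ T2 α h β l X' Y' (Pool.Agent.D0H76.SPC.g
      (fun q χ r ψ => Pool.Agent.R321.RC.On (LF q χ) (LF r ψ) T')) := by rw [hS']; exact r5
  have q6 : (3 - cc - ε / 2) * S' ≤ T2 α h β l X' Y' (Pool.Agent.D0H76.SPC.g
      (fun q χ r ψ => (H370.zset (LF q χ) T' (2 * T') ∪ H370.zset (LF r ψ) T' (2 * T')).ncard)) := by
    rw [hS']; exact r6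
  have q7 : T2 α h β l X' Y' (Pool.Agent.D0H76.SPC.g
      (fun q χ r ψ => Pool.Agent.R321.RC.Cm (LF q χ) (LF r ψ) T')) ≤ (cc - 1 + ε / 2) * S' := by
    rw [hS']; exact r7
  have hSS : |S - S'| ≤ D * S := by
    rw [abs_le]
    constructor <;> linarith [tN.1, tN.2]
  have e0 : T2 α h β l X Y (Pool.Agent.D0H76.SPC.g (fun q χ _ _ => N (Lfun q χ) T)) = S := by rw [hS]; rfl
  rw [e0]
  refine ⟨?_, ?_, ?_, ?_, ?_, ?_, ?_⟩
  · rw [idx_eq hα0 hh]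
    exact Finset.finite_toSet _
  · rw [idx_eq hβ0 hl0]
    exact Finset.finite_toSet _
  · intro q hq χ hχ
    exact H370.zset_finite (Pool.Agent.D0H76.SPC.goodL_of (by omega) χ hχ) T (2 * T) (by linarith)
  · by_contra hcon
    push Not at hcon
    have h1 : S = 0 := le_antisymm hcon hS0
    rw [h1] at tN
    linarith [tN.2]
  · exact fin2 hS0 hD0 hμC (by linarith) hSS tO.2 q5
  · exact fin2 hS0 hD0 hμC (by linarith) hSS tU.2 q6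
  · have h1 := fin2 (a := 1 - cc) (e := ε) (F := -T2 α h β l X Y (Pool.Agent.D0H76.SPC.g
        (fun q χ r ψ => Pool.Agent.R321.RC.Cm (LF q χ) (LF r ψ) T)))
      (F' := -T2 α h β l X' Y' (Pool.Agent.D0H76.SPC.g
        (fun q χ r ψ => Pool.Agent.R321.RC.Cm (LF q χ) (LF r ψ) T'))) hS0 hD0 hμC (by linarith) hSS
      (by linarith [tC.1]) (by
        have : T2 α h β l X' Y' (Pool.Agent.D0H76.SPC.g
          (fun q χ r ψ => Pool.Agent.R321.RC.Cm (LF q χ) (LF r ψ) T')) ≤ (cc - 1 + ε / 2) * S' := q7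
        linarith)
    have h2 : T2 α h β l X Y (Pool.Agent.D0H76.SPC.g (fun q χ r ψ => common (Lfun q χ) (Lfun r ψ) T)) =
      T2 α h β l X Y (Pool.Agent.D0H76.SPC.g
        (fun q χ r ψ => Pool.Agent.R321.RC.Cm (LF q χ) (LF r ψ) T)) := rfl
    rw [h2]
    linarith

end Pool.Agent.D0H76.SPC.Sparse
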