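import Pool.Agent.N880.HP.PairFin
import Pool.Agent.H385R2.NLow

/-! # Bounds for the numbers of zeros of two Dirichlet L-functions -/

set_option autoImplicit false

open Complex Filter Topology MeasureTheory Set

namespace Pool.Agent.D0H76.SPC

open H385 (primSet WW IX good_dirichlet_U mem_primSet LF LF_eq N_lower zcount_long)
open H370 (zset mult NN Nd Ns GoodL)
open Pool.Agent.R321.RC (PS w2 w2_nonneg sum_w2 avg2 counts On Cm LI)

theorem goodL_of {q : ℕ} (hq : 1 ≤ q) (χ : DirichletCharacter ℂ q) (hχ : χ.IsPrimitive) : GoodL (LF q χ) := by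
  obtain ⟨A, hA, hgood⟩ := good_dirichlet_U
  have hq' : NeZero q := ⟨by omega⟩
  rw [LF_eq]
  exact H385.PerChi.goodL hA (by exact_mod_cast hq) (hgood q χ hχ)

theorem up : ∃ C : ℝ, 0 < C ∧ ∀ (q : ℕ) (χ : DirichletCharacter ℂ q), 1 ≤ q → χ.IsPrimitive → ∀ T : ℝ, 3 ≤ T →
    (NN (LF q χ) T (2 * T) : ℝ) ≤ C * T * Real.log (q * (2 * T)) := by
  obtain ⟨A, hA, hgood⟩ := good_dirichlet_U
  obtain ⟨C, hC, h⟩ := zcount_long A hA
  refine ⟨C, hC, fun q χ hq hχ T hT => ?_⟩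
  have hq' : NeZero q := ⟨by omega⟩
  have h1 := h q (LF q χ) _ (by exact_mod_cast hq) (by rw [LF_eq]; exact hgood q χ hχ) T (2 * T) hT (by linarith)
  rwa [show 2 * T - T = T by ring] at h1

theorem cnt {q r : ℕ} (hq : 1 ≤ q) (hr : 1 ≤ r) (χ : DirichletCharacter ℂ q) (hχ : χ.IsPrimitive)
    (ψ : DirichletCharacter ℂ r) (hψ : ψ.IsPrimitive) {T : ℝ} (hT : 1 ≤ T) :
    On (LF q χ) (LF r ψ) T ≤ NN (LF q χ) T (2 * T) + NN (LF r ψ) T (2 * T) ∧
    (zset (LF q χ) T (2 * T) ∪ zset (LF r ψ) T (2 * T)).ncard ≤ NN (LF q χ) T (2 * T) + NN (LF r ψ) T (2 * T) ∧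
    Cm (LF q χ) (LF r ψ) T ≤ NN (LF q χ) T (2 * T) + NN (LF r ψ) T (2 * T) := by
  have g1 := goodL_of hq χ hχ
  have g2 := goodL_of hr ψ hψ
  obtain ⟨c1, c2, c3, c4⟩ := counts g1 g2 hT
  have f1 : (zset (LF q χ) T (2 * T)).Finite := H370.zset_finite g1 T _ hT
  have f2 : (zset (LF r ψ) T (2 * T)).Finite := H370.zset_finite g2 T _ hT
  have h1 : On (LF q χ) (LF r ψ) T ≤ (zset (LF q χ) T (2 * T) ∪ zset (LF r ψ) T (2 * T)).ncard := by
    unfold On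
    exact Set.ncard_le_ncard (fun s hs => Or.inl hs.1) (f1.union f2)
  omega

theorem low : ∃ X1 : ℝ, 1 ≤ X1 ∧ ∀ (X : ℕ) (T : ℝ), X1 ≤ X → 4 * (Real.log X) ^ 2 ≤ T →
    ∀ (q : ℕ) (χ : DirichletCharacter ℂ q), X < q → (q : ℝ) ≤ (X : ℝ) ^ 2 → χ.IsPrimitive →
      T ≤ (NN (LF q χ) T (2 * T) : ℝ) := by
  obtain ⟨A, hA, hgood⟩ := good_dirichlet_U
  obtain ⟨C, hC, hlow⟩ := N_lower A hA
  obtain ⟨l0, hl0⟩ := Pool.Agent.N880.HD.sq_log_le
  obtain ⟨L0, hL0⟩ : ∃ L0 : ℝ, L0 = |l0| + 8 + 2 * Real.pi * (4 * C + 1) := ⟨_, rfl⟩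
  have hpi := Real.pi_pos
  have hL0a : l0 ≤ L0 := by
    have := le_abs_self l0
    have : 0 < 2 * Real.pi * (4 * C + 1) := by positivity
    linarith
  have hL0b : 8 ≤ L0 := by
    have := abs_nonneg l0
    have : 0 < 2 * Real.pi * (4 * C + 1) := by positivity
    linarith
  have hL0c : 2 * Real.pi * (4 * C + 1) ≤ L0 := by
    have := abs_nonneg l0
    linarith
  refine ⟨Real.exp L0, Real.one_le_exp (by linarith), fun X T hX hT q χ hq hqX hχ => ?_⟩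
  have hXpos : (0 : ℝ) < X := (Real.exp_pos _).trans_le hX
  obtain ⟨lX, hlX⟩ : ∃ lX, lX = Real.log X := ⟨_, rfl⟩
  have hlX0 : L0 ≤ lX := by rw [hlX, Real.le_log_iff_exp_le hXpos]; exact hX
  rw [← hlX] at hT
  have hT1 : 1 ≤ T := by nlinarith
  have hTpos : 0 < T := by linarith
  have hlT0 : 0 ≤ Real.log T := Real.log_nonneg hT1
  obtain ⟨L, hL⟩ : ∃ L, L = lX + Real.log T := ⟨_, rfl⟩
  have hLL0 : L0 ≤ L := by linarith
  have hL8 : 8 ≤ L := by linarith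
  have hTL : L ^ 2 ≤ T := by rw [hL]; exact hl0 lX T (by linarith) hT
  have hq1 : 1 ≤ q := by omega
  have hqX' : (X : ℝ) ≤ q := by exact_mod_cast hq.le
  have hqpos : (0 : ℝ) < q := by linarith
  have hq' : NeZero q := ⟨by omega⟩
  have h1 := hlow q (LF q χ) _ (by exact_mod_cast hq1) (by rw [LF_eq]; exact hgood q χ hχ) T L (by linarith)
    (by nlinarith)
  refine le_trans ?_ h1
  have hlog : Real.log ((q : ℝ) * T) = Real.log q + Real.log T := Real.log_mul hqpos.ne' hTpos.ne'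
  have a1 : L ≤ Real.log ((q : ℝ) * T) := by
    rw [hlog, hL, hlX]
    have := Real.log_le_log hXpos hqX'
    linarith
  have a2 : Real.log ((q : ℝ) * T) ≤ 2 * L := by
    rw [hlog, hL]
    have h2 : Real.log q ≤ 2 * lX := by
      have h3 := Real.log_le_log hqpos hqX
      rw [Real.log_pow, ← hlX] at h3
      push_cast at h3
      exact h3
    linarith
  obtain ⟨M, hM⟩ : ∃ M, M = Real.log ((q : ℝ) * T) := ⟨_, rfl⟩
  rw [← hM] at a1 a2 ⊢
  have hM0 : 0 ≤ M := by linarith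
  have b1 : L * M ≤ 2 * T := by nlinarith
  have b2 : M ^ 2 * Real.exp (-L ^ 2 / 2) ≤ 1 := by
    have h2 : M ^ 2 ≤ 4 * L ^ 2 := by nlinarith
    have h3 : 4 * L ^ 2 ≤ Real.exp (L ^ 2 / 2) := by
      have h4 := Real.quadratic_le_exp_of_nonneg (by positivity : 0 ≤ L ^ 2 / 2)
      have h5 : (64 : ℝ) ≤ L ^ 2 := by nlinarith
      nlinarith
    have h4 : Real.exp (-L ^ 2 / 2) = (Real.exp (L ^ 2 / 2))⁻¹ := by
      rw [← Real.exp_neg]
      congr 1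
      ring
    rw [h4, ← div_eq_mul_inv, div_le_one (Real.exp_pos _)]
    linarith
  have b3 : T * M ^ 2 * Real.exp (-L ^ 2 / 2) ≤ T := by
    calc T * M ^ 2 * Real.exp (-L ^ 2 / 2) = T * (M ^ 2 * Real.exp (-L ^ 2 / 2)) := by ring
      _ ≤ T * 1 := mul_le_mul_of_nonneg_left b2 hTpos.le
      _ = T := mul_one T
  have b4 : C * (T + L * M + T * M ^ 2 * Real.exp (-L ^ 2 / 2)) ≤ C * (4 * T) :=
    mul_le_mul_of_nonneg_left (by linarith) hC.le
  have b5 : T * (4 * C + 1) ≤ T / (2 * Real.pi) * M := by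
    have h2 : 2 * Real.pi * (4 * C + 1) ≤ M := by linarith
    calc T * (4 * C + 1) = T / (2 * Real.pi) * (2 * Real.pi * (4 * C + 1)) := by field_simp
      _ ≤ _ := mul_le_mul_of_nonneg_left h2 (by positivity)
  linarith

/-- lower bound for the average number of zeros -/
theorem avg_low : ∃ K X1 : ℝ, 1 ≤ K ∧ 1 ≤ X1 ∧ ∀ (X Y : ℕ) (T : ℝ), X1 ≤ X → K * X ≤ Y → (Y : ℝ) ≤ (X : ℝ) ^ 2 →
    4 * (Real.log X) ^ 2 ≤ T → T ≤ avg2 X Y (fun z => (NN (LI z.1) T (2 * T) : ℝ)) := by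
  obtain ⟨K, hK, hmass⟩ := Pool.Agent.N880.HP.mass_ge
  obtain ⟨X1, hX1, hlow⟩ := low
  refine ⟨K, X1, hK, hX1, fun X Y T hX hKX hY hT => ?_⟩
  have hXn : 1 ≤ X := by exact_mod_cast hX1.trans hX
  have hW := hmass X Y hXn hKX
  have hT0 : 0 ≤ T := le_trans (by positivity) hT
  have h1 : (∑ z ∈ PS X Y, w2 z) * T ≤ avg2 X Y (fun z => (NN (LI z.1) T (2 * T) : ℝ)) := by
    unfold avg2
    rw [Finset.sum_mul]
    refine Finset.sum_le_sum fun z hz => mul_le_mul_of_nonneg_left ?_ (w2_nonneg z)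
    unfold PS at hz
    rw [Finset.mem_product] at hz
    obtain ⟨h1, h2, h3⟩ := (mem_primSet X Y z.1).mp hz.1
    have h4 : ((z.1.1 : ℕ) : ℝ) ≤ (X : ℝ) ^ 2 := le_trans (by exact_mod_cast h2) hY
    exact hlow X T hX hT z.1.1 z.1.2 h1 h4 h3
  rw [sum_w2] at h1
  have hW2 : 1 ≤ WW X Y ^ 2 := one_le_pow₀ hW
  have h2 : 1 * T ≤ WW X Y ^ 2 * T := mul_le_mul_of_nonneg_right hW2 hT0
  linarith

end Pool.Agent.D0H76.SPC
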