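import Mathlib

/-! # The integral of a function of `⌊α u ^ h⌋` with weight `1 / u` -/

set_option autoImplicit false

namespace Pool.Agent.D0H76.SPC

open Finset MeasureTheory Filter Topology

theorem meas_g (h α : ℝ) (b : ℕ → ℝ) : Measurable fun u : ℝ => b ⌊α * u ^ h⌋₊ := by
  have h1 : Measurable b := measurable_from_top
  refine h1.comp ?_
  exact Nat.measurable_floor.comp (by fun_prop)

theorem int_g (h α : ℝ) (b : ℕ → ℝ) (B : ℝ) (hB : ∀ m, |b m| ≤ B) (x y : ℝ) :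
    IntervalIntegrable (fun u : ℝ => b ⌊α * u ^ h⌋₊) volume x y := by
  refine (intervalIntegrable_const (c := B)).mono_fun (meas_g h α b).aestronglyMeasurable ?_
  refine Filter.Eventually.of_forall fun u => ?_
  simp only [Real.norm_eq_abs]
  exact (hB _).trans (le_abs_self B)

/-- below the window -/
theorem floor_low {h α u : ℝ} (hh : 0 < h) (hα : 0 < α) (hu : 0 ≤ u) {lo : ℕ}
    (hl : u < (((lo : ℝ) + 1) / α) ^ (1 / h)) : ⌊α * u ^ h⌋₊ ≤ lo := by
  have h1 : u ^ h < ((lo : ℝ) + 1) / α := by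
    calc u ^ h < ((((lo : ℝ) + 1) / α) ^ (1 / h)) ^ h := Real.rpow_lt_rpow hu hl hh
      _ = ((lo : ℝ) + 1) / α := by
          rw [← Real.rpow_mul (by positivity)]
          have : 1 / h * h = 1 := by field_simp
          rw [this, Real.rpow_one]
  rw [lt_div_iff₀ hα] at h1
  have h2 : ⌊α * u ^ h⌋₊ < lo + 1 := by
    rw [Nat.floor_lt (by positivity)]
    push_cast
    linarith
  omega

/-- above the window -/
theorem floor_high {h α u : ℝ} (hh : 0 < h) (hα : 0 < α) {q : ℕ}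
    (hl : ((q : ℝ) / α) ^ (1 / h) ≤ u) : q ≤ ⌊α * u ^ h⌋₊ := by
  have h0 : (0 : ℝ) ≤ ((q : ℝ) / α) ^ (1 / h) := by positivity
  have h1 : (q : ℝ) / α ≤ u ^ h := by
    calc (q : ℝ) / α = (((q : ℝ) / α) ^ (1 / h)) ^ h := by
          rw [← Real.rpow_mul (by positivity)]
          have : 1 / h * h = 1 := by field_simp
          rw [this, Real.rpow_one]
      _ ≤ u ^ h := Real.rpow_le_rpow h0 hl hh.le
  rw [div_le_iff₀ hα] at h1
  apply Nat.le_floor
  linarith

/-- one piece -/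
theorem piece {h α : ℝ} (hh : 0 < h) (hα : 0 < α) (b : ℕ → ℝ) (q : ℕ) (hq : 1 ≤ q) :
    ∫ u in ((q : ℝ) / α) ^ (1 / h)..(((q + 1 : ℕ) : ℝ) / α) ^ (1 / h), b ⌊α * u ^ h⌋₊ / u =
      b q * (1 / h * Real.log (((q : ℝ) + 1) / q)) := by
  have hq0 : (0 : ℝ) < q := by exact_mod_cast hq
  obtain ⟨t1, ht1⟩ : ∃ t1, t1 = ((q : ℝ) / α) ^ (1 / h) := ⟨_, rfl⟩
  obtain ⟨t2, ht2⟩ : ∃ t2, t2 = (((q + 1 : ℕ) : ℝ) / α) ^ (1 / h) := ⟨_, rfl⟩
  have ht10 : 0 < t1 := by rw [ht1]; positivity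
  have ht20 : 0 < t2 := by rw [ht2]; positivity
  have ht12 : t1 ≤ t2 := by
    rw [ht1, ht2]
    apply Real.rpow_le_rpow (by positivity) _ (by positivity)
    apply div_le_div_of_nonneg_right _ hα.le
    push_cast
    linarith
  rw [← ht1, ← ht2]
  have h1 : ∫ u in t1..t2, b ⌊α * u ^ h⌋₊ / u = ∫ u in t1..t2, b q * u⁻¹ := by
    rw [intervalIntegral.integral_of_le ht12, intervalIntegral.integral_of_le ht12,
      ← integral_Ico_eq_integral_Ioc, ← integral_Ico_eq_integral_Ioc]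
    refine setIntegral_congr_fun measurableSet_Ico fun u hu => ?_
    have hu0 : 0 ≤ u := ht10.le.trans hu.1
    have k1 : q ≤ ⌊α * u ^ h⌋₊ := floor_high hh hα (by rw [← ht1]; exact hu.1)
    have k2 : ⌊α * u ^ h⌋₊ ≤ q := floor_low hh hα hu0 (by
      have := hu.2
      rw [ht2] at this
      push_cast at this
      exact this)
    have k3 : ⌊α * u ^ h⌋₊ = q := le_antisymm k2 k1
    show b ⌊α * u ^ h⌋₊ / u = b q * u⁻¹
    rw [k3, div_eq_mul_inv]
  rw [h1, intervalIntegral.integral_const_mul, integral_inv_of_pos ht10 ht20]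
  congr 1
  have h2 : t2 / t1 = (((q : ℝ) + 1) / q) ^ (1 / h) := by
    rw [ht1, ht2, ← Real.div_rpow (by positivity) (by positivity)]
    congr 1
    push_cast
    field_simp
  rw [h2, Real.log_rpow (by positivity)]

/-- the whole integral -/
theorem int_log {h α : ℝ} (hh : 0 < h) (hα : 0 < α) (b : ℕ → ℝ) (B : ℝ) (hB : ∀ m, |b m| ≤ B) (lo hi : ℕ)
    (hlh : lo ≤ hi) (hs : ∀ q, b q ≠ 0 → lo < q ∧ q ≤ hi) (N : ℕ)
    (hN : (((hi : ℝ) + 1) / α) ^ (1 / h) ≤ N) :
    ∫ u in (0 : ℝ)..N, b ⌊α * u ^ h⌋₊ / u = ∑ q ∈ Ioc lo hi, b q * (1 / h * Real.log (((q : ℝ) + 1) / q)) := by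
  obtain ⟨t, ht⟩ : ∃ t : ℕ → ℝ, t = fun q : ℕ => ((q : ℝ) / α) ^ (1 / h) := ⟨_, rfl⟩
  have htpos : ∀ q : ℕ, 0 ≤ t q := fun q => by rw [ht]; positivity
  have htm : ∀ q : ℕ, t q ≤ t (q + 1) := by
    intro q
    rw [ht]
    simp only
    apply Real.rpow_le_rpow (by positivity) _ (by positivity)
    apply div_le_div_of_nonneg_right _ hα.le
    push_cast
    linarith
  -- the integrand is integrable on all intervals in `[0, ∞)`
  have hvan1 : ∀ u, 0 ≤ u → u < t (lo + 1) → b ⌊α * u ^ h⌋₊ = 0 := by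
    intro u hu hu1
    by_contra hne
    have h1 := hs _ hne
    have h2 : ⌊α * u ^ h⌋₊ ≤ lo := floor_low hh hα hu (by
      rw [ht] at hu1
      push_cast at hu1
      exact hu1)
    omega
  have hvan2 : ∀ u, t (hi + 1) ≤ u → b ⌊α * u ^ h⌋₊ = 0 := by
    intro u hu
    by_contra hne
    have h1 := hs _ hne
    have h2 : hi + 1 ≤ ⌊α * u ^ h⌋₊ := floor_high hh hα (by
      rw [ht] at hu
      exact hu)
    omega
  have hlo0 : 0 < t (lo + 1) := by
    rw [ht]
    simp only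
    positivity
  have hint : ∀ x y : ℝ, 0 ≤ x → 0 ≤ y → IntervalIntegrable (fun u : ℝ => b ⌊α * u ^ h⌋₊ / u) volume x y := by
    intro x y hx hy
    refine (intervalIntegrable_const (c := B / t (lo + 1))).mono_fun
      ((meas_g h α b).div measurable_id).aestronglyMeasurable ?_
    refine (ae_restrict_iff' measurableSet_uIoc).2 (Filter.Eventually.of_forall fun u hu => ?_)
    have hu0 : 0 ≤ u := by
      rw [Set.uIoc, Set.mem_Ioc] at hu
      exact (le_min hx hy).trans hu.1.le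
    have hB0 : 0 ≤ B := (abs_nonneg _).trans (hB 0)
    simp only [Real.norm_eq_abs]
    rw [abs_div, abs_div, abs_of_pos hlo0, abs_of_nonneg hB0]
    by_cases hc : u < t (lo + 1)
    · rw [hvan1 u hu0 hc, abs_zero, zero_div]
      positivity
    · push Not at hc
      rw [abs_of_nonneg hu0]
      exact div_le_div₀ hB0 (hB _) hlo0 hc
  have hsplit : ∫ u in (0 : ℝ)..N, b ⌊α * u ^ h⌋₊ / u =
      (∫ u in (0 : ℝ)..t (lo + 1), b ⌊α * u ^ h⌋₊ / u) + ((∫ u in t (lo + 1)..t (hi + 1), b ⌊α * u ^ h⌋₊ / u) +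
      ∫ u in t (hi + 1)..N, b ⌊α * u ^ h⌋₊ / u) := by
    rw [intervalIntegral.integral_add_adjacent_intervals (hint _ _ (htpos _) (htpos _))
      (hint _ _ (htpos _) (Nat.cast_nonneg N)),
      intervalIntegral.integral_add_adjacent_intervals (hint _ _ le_rfl (htpos _))
      (hint _ _ (htpos _) (Nat.cast_nonneg N))]
  have hz1 : ∫ u in (0 : ℝ)..t (lo + 1), b ⌊α * u ^ h⌋₊ / u = 0 := by
    rw [intervalIntegral.integral_of_le hlo0.le, ← integral_Ico_eq_integral_Ioc]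
    refine (setIntegral_congr_fun measurableSet_Ico fun u hu => ?_).trans (integral_zero _ _)
    show b ⌊α * u ^ h⌋₊ / u = 0
    rw [hvan1 u hu.1 hu.2, zero_div]
  have hNt : t (hi + 1) ≤ N := by
    rw [ht]
    simp only
    push_cast
    exact hN
  have hz2 : ∫ u in t (hi + 1)..N, b ⌊α * u ^ h⌋₊ / u = 0 := by
    rw [intervalIntegral.integral_of_le hNt]
    refine (setIntegral_congr_fun measurableSet_Ioc fun u hu => ?_).trans (integral_zero _ _)
    show b ⌊α * u ^ h⌋₊ / u = 0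
    rw [hvan2 u hu.1.le, zero_div]
  rw [hsplit, hz1, hz2, zero_add, add_zero]
  have hadj := intervalIntegral.sum_integral_adjacent_intervals_Ico (μ := volume)
    (f := fun u : ℝ => b ⌊α * u ^ h⌋₊ / u) (a := t) (m := lo + 1) (n := hi + 1) (by omega)
    (fun k _ => hint _ _ (htpos _) (htpos _))
  rw [← hadj]
  have e : Ico (lo + 1) (hi + 1) = Ioc lo hi := by
    ext q
    simp only [Finset.mem_Ico, Finset.mem_Ioc]
    omega
  rw [e]
  refine Finset.sum_congr rfl fun q hq => ?_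
  rw [Finset.mem_Ioc] at hq
  rw [ht]
  exact piece hh hα b q (by omega)

end Pool.Agent.D0H76.SPC
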