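import Mathlib
import Pool.Agent.D0H91.US.App

/-! # Logarithmic averages of bounded families along `⌊α n ^ h⌋` -/

set_option autoImplicit false

namespace Pool.Agent.D0H76.SPC

open Finset MeasureTheory Filter Topology

/-- the universal sampling theorem of helper91 for real families with polynomial bounds in the index -/
theorem us_real (h : ℝ) (hh : 0 < h) (E : ℕ) (C : ℝ) (b : ℕ → ℕ → ℝ)
    (hb : ∀ e m, |b e m| ≤ C * ((e : ℝ) + 2) ^ E) :
    ∃ c c' : ℝ, 0 < c ∧ c ≤ 1 / 160 ∧ 0 < c' ∧ ∀ᵐ α : ℝ, 0 < α → ∀ᶠ N : ℕ in atTop, ∀ e : ℕ, (e : ℝ) ≤ (N : ℝ) ^ c' →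
      |∑ n ∈ Icc 1 N, b e ⌊α * (n : ℝ) ^ h⌋₊ - ∫ u in (0 : ℝ)..N, b e ⌊α * u ^ h⌋₊| ≤ (N : ℝ) ^ (1 - c) := by
  obtain ⟨c, hc0, hc1, H⟩ := Pool.Agent.D0H91.US.us_ae h hh
  have hE : (0 : ℝ) < (E : ℝ) + 1 := by positivity
  obtain ⟨c', hc'⟩ : ∃ c' : ℝ, c' = c / ((E : ℝ) + 1) := ⟨_, rfl⟩
  have hc'0 : 0 < c' := by rw [hc']; positivity
  have hc'c : c' ≤ c := by
    rw [hc', div_le_iff₀ hE]
    nlinarith [(Nat.cast_nonneg E : (0 : ℝ) ≤ E)]
  have hsum : c' * E + c' = c := by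
    rw [hc']
    field_simp
  refine ⟨c, c', hc0, hc1, hc'0, ?_⟩
  have h1 := H c' hc'0.le hc'c (fun e m => ((b e m : ℝ) : ℂ)) (by
    have hC : Tendsto (fun N : ℕ => (N : ℝ) ^ c') atTop atTop :=
      (tendsto_rpow_atTop hc'0).comp tendsto_natCast_atTop_atTop
    filter_upwards [hC.eventually_ge_atTop (|C| * 2 ^ E), hC.eventually_ge_atTop 2, eventually_ge_atTop 1]
      with N h1 h2 hN1 e he m _
    have hN0 : (0 : ℝ) < N := by exact_mod_cast hN1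
    have hx0 : (0 : ℝ) < (N : ℝ) ^ c' := by positivity
    rw [Complex.norm_real, Real.norm_eq_abs]
    calc |b e m| ≤ C * ((e : ℝ) + 2) ^ E := hb e m
      _ ≤ |C| * ((e : ℝ) + 2) ^ E := mul_le_mul_of_nonneg_right (le_abs_self C) (by positivity)
      _ ≤ |C| * (2 * (N : ℝ) ^ c') ^ E := by
          apply mul_le_mul_of_nonneg_left _ (abs_nonneg _)
          apply pow_le_pow_left₀ (by positivity)
          linarith
      _ = (|C| * 2 ^ E) * ((N : ℝ) ^ c') ^ E := by rw [mul_pow]; ring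
      _ ≤ (N : ℝ) ^ c' * ((N : ℝ) ^ c') ^ E := mul_le_mul_of_nonneg_right h1 (by positivity)
      _ = (N : ℝ) ^ c := by
          rw [← Real.rpow_natCast, ← Real.rpow_mul hN0.le, ← Real.rpow_add hN0]
          congr 1
          linarith)
  filter_upwards [h1] with α hα hα0
  filter_upwards [hα hα0] with N hN e he
  have h2 := hN e he
  have e1 : (∑ n ∈ Icc 1 N, (((b e ⌊α * (n : ℝ) ^ h⌋₊ : ℝ)) : ℂ)) -
      ∫ u in (0 : ℝ)..N, ((b e ⌊α * u ^ h⌋₊ : ℝ) : ℂ) =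
      (((∑ n ∈ Icc 1 N, b e ⌊α * (n : ℝ) ^ h⌋₊ - ∫ u in (0 : ℝ)..N, b e ⌊α * u ^ h⌋₊ : ℝ)) : ℂ) := by
    rw [intervalIntegral.integral_ofReal]
    push_cast
    ring
  rw [e1, Complex.norm_real, Real.norm_eq_abs] at h2
  exact h2

/-- partial summation -/
theorem abel (d : ℕ → ℝ) (N : ℕ) : ∑ n ∈ Icc 1 N, d n / n =
    ∑ n ∈ Icc 1 N, (∑ i ∈ Icc 1 n, d i) / ((n : ℝ) * (n + 1)) + (∑ i ∈ Icc 1 N, d i) / ((N : ℝ) + 1) := by
  induction N with
  | zero => simp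
  | succ N ih =>
    rw [Finset.sum_Icc_succ_top (by omega), ih, Finset.sum_Icc_succ_top (by omega),
      Finset.sum_Icc_succ_top (by omega : 1 ≤ N + 1)]
    push_cast
    have h1 : (N : ℝ) + 1 ≠ 0 := by positivity
    have h2 : (N : ℝ) + 1 + 1 ≠ 0 := by positivity
    field_simp
    ring

theorem abel_bound (c : ℝ) (hc : 0 < c) (hc1 : c ≤ 1) : ∃ K : ℝ, 0 < K ∧ ∀ (d : ℕ → ℝ) (n1 N : ℕ), 1 ≤ n1 →
    (∀ n, n < n1 → ∑ i ∈ Icc 1 n, d i = 0) → (∀ n, n1 ≤ n → |∑ i ∈ Icc 1 n, d i| ≤ (n : ℝ) ^ (1 - c)) →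
    |∑ n ∈ Icc 1 N, d n / n| ≤ K * (n1 : ℝ) ^ (-(c / 2)) := by
  have hs : Summable fun n : ℕ => 1 / (n : ℝ) ^ (1 + c / 2) :=
    Real.summable_one_div_nat_rpow.2 (by linarith)
  obtain ⟨K0, hK0⟩ : ∃ K0, K0 = ∑' n : ℕ, 1 / (n : ℝ) ^ (1 + c / 2) := ⟨_, rfl⟩
  have hK00 : 0 ≤ K0 := by
    rw [hK0]
    exact tsum_nonneg fun n => by positivity
  refine ⟨K0 + 1, by positivity, fun d n1 N hn1 hz hD => ?_⟩
  have hn10 : (0 : ℝ) < n1 := by exact_mod_cast hn1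
  rw [abel]
  have h1 : |∑ n ∈ Icc 1 N, (∑ i ∈ Icc 1 n, d i) / ((n : ℝ) * (n + 1))| ≤ K0 * (n1 : ℝ) ^ (-(c / 2)) := by
    refine (Finset.abs_sum_le_sum_abs _ _).trans ?_
    have hpt : ∀ n ∈ Icc 1 N, |(∑ i ∈ Icc 1 n, d i) / ((n : ℝ) * (n + 1))| ≤
        (n1 : ℝ) ^ (-(c / 2)) * (1 / (n : ℝ) ^ (1 + c / 2)) := by
      intro n hn
      rw [Finset.mem_Icc] at hn
      have hn0 : (0 : ℝ) < n := by exact_mod_cast hn.1
      by_cases hlt : n < n1
      · rw [hz n hlt, zero_div, abs_zero]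
        positivity
      · push Not at hlt
        have hle : (n1 : ℝ) ≤ n := by exact_mod_cast hlt
        rw [abs_div, abs_of_pos (by positivity : (0 : ℝ) < (n : ℝ) * (n + 1))]
        calc |∑ i ∈ Icc 1 n, d i| / ((n : ℝ) * (n + 1)) ≤ (n : ℝ) ^ (1 - c) / ((n : ℝ) * n) := by
              apply div_le_div₀ (by positivity) (hD n hlt) (by positivity)
              apply mul_le_mul_of_nonneg_left (by linarith) hn0.le
          _ = (n : ℝ) ^ (-(c / 2)) * (1 / (n : ℝ) ^ (1 + c / 2)) := by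
              have e1 : (n : ℝ) * n = (n : ℝ) ^ (2 : ℝ) := by
                rw [show (2 : ℝ) = 1 + 1 by norm_num, Real.rpow_add hn0, Real.rpow_one]
              rw [e1, ← Real.rpow_sub hn0, one_div, ← Real.rpow_neg hn0.le, ← Real.rpow_add hn0]
              congr 1
              ring
          _ ≤ _ := by
              apply mul_le_mul_of_nonneg_right _ (by positivity)
              exact Real.rpow_le_rpow_of_nonpos hn10 hle (by linarith)
    refine (Finset.sum_le_sum hpt).trans ?_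
    rw [← Finset.mul_sum, mul_comm K0]
    apply mul_le_mul_of_nonneg_left _ (by positivity)
    rw [hK0]
    exact hs.sum_le_tsum _ (fun n _ => by positivity)
  have h2 : |(∑ i ∈ Icc 1 N, d i) / ((N : ℝ) + 1)| ≤ 1 * (n1 : ℝ) ^ (-(c / 2)) := by
    by_cases hlt : N < n1
    · rw [hz N hlt, zero_div, abs_zero]
      positivity
    · push Not at hlt
      have hle : (n1 : ℝ) ≤ N := by exact_mod_cast hlt
      have hN0 : (0 : ℝ) < N := lt_of_lt_of_le hn10 hle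
      have hN1 : (1 : ℝ) ≤ N := by exact_mod_cast hn1.trans hlt
      rw [abs_div, abs_of_pos (by positivity : (0 : ℝ) < (N : ℝ) + 1), one_mul]
      calc |∑ i ∈ Icc 1 N, d i| / ((N : ℝ) + 1) ≤ (N : ℝ) ^ (1 - c) / N := by
            apply div_le_div₀ (by positivity) (hD N hlt) hN0 (by linarith)
        _ = (N : ℝ) ^ (-c) := by
            rw [show (1 - c) = (-c) + 1 by ring, Real.rpow_add_one hN0.ne']
            field_simp
        _ ≤ (N : ℝ) ^ (-(c / 2)) := Real.rpow_le_rpow_of_exponent_le hN1 (by linarith)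
        _ ≤ (n1 : ℝ) ^ (-(c / 2)) := Real.rpow_le_rpow_of_nonpos hn10 hle (by linarith)
  refine (abs_add_le _ _).trans ?_
  rw [add_mul]
  exact add_le_add h1 h2

end Pool.Agent.D0H76.SPC
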