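import Mathlib
import Pool.Agent.D0H76.SPC.Int1
import Pool.Agent.D0H76.SPC.Samp1

/-! # Logarithmic averages along `⌊α n ^ h⌋`: one family -/

set_option autoImplicit false

namespace Pool.Agent.D0H76.SPC

open Finset MeasureTheory Filter Topology

theorem int_gu {h α : ℝ} (hh : 0 < h) (hα : 0 < α) (b : ℕ → ℝ) (B : ℝ) (hB : ∀ m, |b m| ≤ B) (lo : ℕ)
    (hs : ∀ q, b q ≠ 0 → lo < q) (x y : ℝ) (hx : 0 ≤ x) (hy : 0 ≤ y) :
    IntervalIntegrable (fun u : ℝ => b ⌊α * u ^ h⌋₊ / u) volume x y := by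
  obtain ⟨t, ht⟩ : ∃ t : ℝ, t = (((lo : ℝ) + 1) / α) ^ (1 / h) := ⟨_, rfl⟩
  have ht0 : 0 < t := by rw [ht]; positivity
  refine (intervalIntegrable_const (c := B / t)).mono_fun
    ((meas_g h α b).div measurable_id).aestronglyMeasurable ?_
  refine (ae_restrict_iff' measurableSet_uIoc).2 (Filter.Eventually.of_forall fun u hu => ?_)
  have hu0 : 0 ≤ u := by
    rw [Set.uIoc, Set.mem_Ioc] at hu
    exact (le_min hx hy).trans hu.1.le
  have hB0 : 0 ≤ B := (abs_nonneg _).trans (hB 0)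
  simp only [Real.norm_eq_abs]
  rw [abs_div, abs_div, abs_of_pos ht0, abs_of_nonneg hB0]
  by_cases hc : u < t
  · have h0 : b ⌊α * u ^ h⌋₊ = 0 := by
      by_contra hne
      have h1 := hs _ hne
      have h2 : ⌊α * u ^ h⌋₊ ≤ lo := floor_low hh hα hu0 (by rw [← ht]; exact hc)
      omega
    rw [h0, abs_zero, zero_div]
    positivity
  · push Not at hc
    rw [abs_of_nonneg hu0]
    exact div_le_div₀ hB0 (hB _) ht0 hc

/-- replacing the weight `1 / ⌈u⌉` by `1 / u` -/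
theorem cmp {h α : ℝ} (hh : 0 < h) (hα : 0 < α) (b : ℕ → ℝ) (B : ℝ) (hB : ∀ m, |b m| ≤ B) (lo : ℕ)
    (hs : ∀ q, b q ≠ 0 → lo < q) (t : ℝ) (ht : t = (((lo : ℝ) + 1) / α) ^ (1 / h)) (ht2 : 2 ≤ t) (N : ℕ) :
    |∑ k ∈ range N, (∫ u in (k : ℝ)..((k + 1 : ℕ) : ℝ), b ⌊α * u ^ h⌋₊) / ((k + 1 : ℕ) : ℝ) -
      ∫ u in (0 : ℝ)..N, b ⌊α * u ^ h⌋₊ / u| ≤ 2 * B / t := by
  have hB0 : 0 ≤ B := (abs_nonneg _).trans (hB 0)
  have hadj := intervalIntegral.sum_integral_adjacent_intervals (μ := volume)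
    (f := fun u : ℝ => b ⌊α * u ^ h⌋₊ / u) (a := fun k : ℕ => (k : ℝ)) (n := N)
    (fun k _ => int_gu hh hα b B hB lo hs _ _ (Nat.cast_nonneg _) (Nat.cast_nonneg _))
  simp only [Nat.cast_zero] at hadj
  rw [← hadj, ← Finset.sum_sub_distrib]
  refine (Finset.abs_sum_le_sum_abs _ _).trans ?_
  have hvan : ∀ u, 0 ≤ u → u < t → b ⌊α * u ^ h⌋₊ = 0 := by
    intro u hu0 hc
    by_contra hne
    have h1 := hs _ hne
    have h2 : ⌊α * u ^ h⌋₊ ≤ lo := floor_low hh hα hu0 (by rw [← ht]; exact hc)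
    omega
  -- the terms
  have hterm : ∀ k : ℕ, |(∫ u in (k : ℝ)..((k + 1 : ℕ) : ℝ), b ⌊α * u ^ h⌋₊) / ((k + 1 : ℕ) : ℝ) -
      ∫ u in (k : ℝ)..((k + 1 : ℕ) : ℝ), b ⌊α * u ^ h⌋₊ / u| ≤
      if (k : ℝ) + 1 ≤ t then 0 else B * (1 / k - 1 / (k + 1)) := by
    intro k
    have hk0 : (0 : ℝ) ≤ k := Nat.cast_nonneg k
    have hkk : (k : ℝ) ≤ ((k + 1 : ℕ) : ℝ) := by push_cast; linarith
    split_ifs with hc
    · have z1 : ∫ u in (k : ℝ)..((k + 1 : ℕ) : ℝ), b ⌊α * u ^ h⌋₊ = 0 := by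
        rw [intervalIntegral.integral_of_le hkk, ← integral_Ico_eq_integral_Ioc]
        refine (setIntegral_congr_fun measurableSet_Ico fun u hu => ?_).trans (integral_zero _ _)
        exact hvan u (hk0.trans hu.1) (hu.2.trans_le (by push_cast; exact hc))
      have z2 : ∫ u in (k : ℝ)..((k + 1 : ℕ) : ℝ), b ⌊α * u ^ h⌋₊ / u = 0 := by
        rw [intervalIntegral.integral_of_le hkk, ← integral_Ico_eq_integral_Ioc]
        refine (setIntegral_congr_fun measurableSet_Ico fun u hu => ?_).trans (integral_zero _ _)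
        show b ⌊α * u ^ h⌋₊ / u = 0
        rw [hvan u (hk0.trans hu.1) (hu.2.trans_le (by push_cast; exact hc)), zero_div]
      rw [z1, z2]
      simp
    · push Not at hc
      have hk1 : (0 : ℝ) < k := by linarith
      have e1 : (∫ u in (k : ℝ)..((k + 1 : ℕ) : ℝ), b ⌊α * u ^ h⌋₊) / ((k + 1 : ℕ) : ℝ) -
          ∫ u in (k : ℝ)..((k + 1 : ℕ) : ℝ), b ⌊α * u ^ h⌋₊ / u =
          ∫ u in (k : ℝ)..((k + 1 : ℕ) : ℝ), (b ⌊α * u ^ h⌋₊ / ((k + 1 : ℕ) : ℝ) - b ⌊α * u ^ h⌋₊ / u) := by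
        rw [intervalIntegral.integral_sub ((int_g h α b B hB _ _).div_const _)
          (int_gu hh hα b B hB lo hs _ _ hk0 (by positivity)), intervalIntegral.integral_div]
      rw [e1, ← Real.norm_eq_abs]
      have h2 := intervalIntegral.norm_integral_le_of_norm_le_const (a := (k : ℝ)) (b := ((k + 1 : ℕ) : ℝ))
        (C := B * (1 / k - 1 / (k + 1)))
        (f := fun u : ℝ => b ⌊α * u ^ h⌋₊ / ((k + 1 : ℕ) : ℝ) - b ⌊α * u ^ h⌋₊ / u) (by
          intro u hu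
          rw [Set.uIoc_of_le hkk, Set.mem_Ioc] at hu
          push_cast at hu ⊢
          have hu0 : 0 < u := by linarith [hu.1]
          have e2 : b ⌊α * u ^ h⌋₊ / ((k : ℝ) + 1) - b ⌊α * u ^ h⌋₊ / u =
              b ⌊α * u ^ h⌋₊ * (1 / ((k : ℝ) + 1) - 1 / u) := by ring
          rw [Real.norm_eq_abs, e2, abs_mul]
          apply mul_le_mul (hB _) _ (abs_nonneg _) hB0
          have k1 : 1 / ((k : ℝ) + 1) ≤ 1 / u := one_div_le_one_div_of_le hu0 hu.2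
          have k2 : 1 / u ≤ 1 / (k : ℝ) := one_div_le_one_div_of_le hk1 hu.1.le
          rw [abs_le]
          constructor <;> linarith)
      refine h2.trans (le_of_eq ?_)
      push_cast
      rw [add_sub_cancel_left, abs_one, mul_one]
  refine (Finset.sum_le_sum fun k _ => hterm k).trans ?_
  -- telescoping
  have hmain : ∀ M : ℕ, ∑ k ∈ range M, (if (k : ℝ) + 1 ≤ t then 0 else B * (1 / (k : ℝ) - 1 / ((k : ℝ) + 1))) ≤
      B / (t - 1) - B / max (M : ℝ) (t - 1) := by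
    intro M
    induction M with
    | zero =>
      have : max ((0 : ℕ) : ℝ) (t - 1) = t - 1 := max_eq_right (by push_cast; linarith)
      rw [this]
      simp
    | succ M ih =>
      rw [Finset.sum_range_succ]
      split_ifs with hc
      · have m1 : max (M : ℝ) (t - 1) = t - 1 := max_eq_right (by linarith)
        have m2 : t - 1 ≤ max ((M + 1 : ℕ) : ℝ) (t - 1) := le_max_right _ _
        rw [m1] at ih
        have m3 : B / max ((M + 1 : ℕ) : ℝ) (t - 1) ≤ B / (t - 1) :=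
          div_le_div_of_nonneg_left hB0 (by linarith) m2
        linarith
      · push Not at hc
        have m1 : max (M : ℝ) (t - 1) = M := max_eq_left (by linarith)
        have m2 : max ((M + 1 : ℕ) : ℝ) (t - 1) = (M : ℝ) + 1 := by
          push_cast
          exact max_eq_left (by linarith)
        rw [m1] at ih
        rw [m2]
        have e : B * (1 / (M : ℝ) - 1 / ((M : ℝ) + 1)) = B / M - B / ((M : ℝ) + 1) := by ring
        rw [e]
        linarith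
  refine (hmain N).trans ?_
  have m4 : 0 ≤ B / max (N : ℝ) (t - 1) := div_nonneg hB0 ((Nat.cast_nonneg N).trans (le_max_left _ _))
  have m5 : B / (t - 1) ≤ 2 * B / t := by
    rw [div_le_div_iff₀ (by linarith) (by linarith)]
    nlinarith
  linarith

/-- from `log (1 + 1 / q)` to `1 / q` -/
theorem log_cmp (b : ℕ → ℝ) (B : ℝ) (hB : ∀ m, |b m| ≤ B) (lo hi : ℕ) (hlh : lo ≤ hi) :
    |∑ q ∈ Ioc lo hi, b q * Real.log (((q : ℝ) + 1) / q) - ∑ q ∈ Ioc lo hi, b q / q| ≤ B / ((lo : ℝ) + 1) := by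
  have hB0 : 0 ≤ B := (abs_nonneg _).trans (hB 0)
  rw [← Finset.sum_sub_distrib]
  refine (Finset.abs_sum_le_sum_abs _ _).trans ?_
  have hterm : ∀ q ∈ Ioc lo hi, |b q * Real.log (((q : ℝ) + 1) / q) - b q / q| ≤
      B * (1 / (q : ℝ) - 1 / ((q : ℝ) + 1)) := by
    intro q hq
    rw [Finset.mem_Ioc] at hq
    have hq0 : (0 : ℝ) < q := by exact_mod_cast (by omega : 0 < q)
    have e : b q * Real.log (((q : ℝ) + 1) / q) - b q / q = b q * (Real.log (((q : ℝ) + 1) / q) - 1 / q) := by ring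
    rw [e, abs_mul]
    apply mul_le_mul (hB q) _ (abs_nonneg _) hB0
    have k1 : Real.log (((q : ℝ) + 1) / q) ≤ ((q : ℝ) + 1) / q - 1 := Real.log_le_sub_one_of_pos (by positivity)
    have k2 : 1 - (((q : ℝ) + 1) / q)⁻¹ ≤ Real.log (((q : ℝ) + 1) / q) := Real.one_sub_inv_le_log_of_pos (by positivity)
    have k3 : ((q : ℝ) + 1) / q - 1 = 1 / q := by field_simp; ring
    have k4 : 1 - (((q : ℝ) + 1) / q)⁻¹ = 1 / ((q : ℝ) + 1) := by field_simp; ring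
    rw [abs_le]
    constructor <;> linarith
  refine (Finset.sum_le_sum hterm).trans ?_
  rw [← Finset.mul_sum]
  have hmain : ∀ M, lo ≤ M → ∑ q ∈ Ioc lo M, (1 / (q : ℝ) - 1 / ((q : ℝ) + 1)) =
      1 / ((lo : ℝ) + 1) - 1 / ((M : ℝ) + 1) := by
    intro M hM
    induction M, hM using Nat.le_induction with
    | base => simp
    | succ M hM ih =>
      rw [← Finset.insert_Ioc_right_eq_Ioc_add_one hM, Finset.sum_insert (by simp), ih]
      push_cast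
      ring
  rw [hmain hi hlh]
  have : 0 ≤ B * (1 / ((hi : ℝ) + 1)) := by positivity
  calc B * (1 / ((lo : ℝ) + 1) - 1 / ((hi : ℝ) + 1)) = B / ((lo : ℝ) + 1) - B * (1 / ((hi : ℝ) + 1)) := by ring
    _ ≤ _ := by linarith

/-- the deterministic part of the sampling of logarithmic averages -/
theorem samp_det (h c : ℝ) (hh : 0 < h) (hc : 0 < c) (hc1 : c ≤ 1) : ∃ K : ℝ, 0 < K ∧
    ∀ (α : ℝ), 0 < α → ∀ (b : ℕ → ℝ) (B : ℝ), (∀ m, |b m| ≤ B) → ∀ lo hi : ℕ, lo ≤ hi →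
    (∀ q, b q ≠ 0 → lo < q ∧ q ≤ hi) → ∀ t : ℝ, t = (((lo : ℝ) + 1) / α) ^ (1 / h) → 2 ≤ t →
    (∀ n : ℕ, t ≤ n → |∑ m ∈ Icc 1 n, b ⌊α * (m : ℝ) ^ h⌋₊ - ∫ u in (0 : ℝ)..n, b ⌊α * u ^ h⌋₊| ≤ (n : ℝ) ^ (1 - c)) →
    ∀ N : ℕ, (((hi : ℝ) + 1) / α) ^ (1 / h) ≤ N →
    |∑ n ∈ Icc 1 N, b ⌊α * (n : ℝ) ^ h⌋₊ / n - 1 / h * ∑ q ∈ Ioc lo hi, b q / q| ≤
      K * t ^ (-(c / 2)) + 2 * B / t + 1 / h * (B / ((lo : ℝ) + 1)) := by
  obtain ⟨K, hK, habel⟩ := abel_bound c hc hc1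
  refine ⟨K, hK, fun α hα b B hB lo hi hlh hs t ht ht2 hD N hN => ?_⟩
  have hs' : ∀ q, b q ≠ 0 → lo < q := fun q hq => (hs q hq).1
  have hvan : ∀ u, 0 ≤ u → u < t → b ⌊α * u ^ h⌋₊ = 0 := by
    intro u hu0 hc
    by_contra hne
    have h1 := hs' _ hne
    have h2 : ⌊α * u ^ h⌋₊ ≤ lo := floor_low hh hα hu0 (by rw [← ht]; exact hc)
    omega
  obtain ⟨d, hd⟩ : ∃ d : ℕ → ℝ, d = fun n : ℕ => b ⌊α * (n : ℝ) ^ h⌋₊ -
      ∫ u in ((n : ℝ) - 1)..(n : ℝ), b ⌊α * u ^ h⌋₊ := ⟨_, rfl⟩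
  have hDsum : ∀ n : ℕ, ∑ i ∈ Icc 1 n, d i =
      ∑ m ∈ Icc 1 n, b ⌊α * (m : ℝ) ^ h⌋₊ - ∫ u in (0 : ℝ)..n, b ⌊α * u ^ h⌋₊ := by
    intro n
    induction n with
    | zero => simp
    | succ n ih =>
      rw [Finset.sum_Icc_succ_top (by omega), ih, Finset.sum_Icc_succ_top (by omega), hd]
      have e1 : ∫ u in (0 : ℝ)..((n + 1 : ℕ) : ℝ), b ⌊α * u ^ h⌋₊ =
          (∫ u in (0 : ℝ)..(n : ℝ), b ⌊α * u ^ h⌋₊) + ∫ u in (n : ℝ)..((n + 1 : ℕ) : ℝ), b ⌊α * u ^ h⌋₊ :=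
        (intervalIntegral.integral_add_adjacent_intervals (int_g h α b B hB _ _) (int_g h α b B hB _ _)).symm
      rw [e1]
      have e2 : (((n + 1 : ℕ) : ℝ) - 1) = n := by push_cast; ring
      simp only [e2]
      ring
  obtain ⟨n1, hn1⟩ : ∃ n1 : ℕ, n1 = ⌈t⌉₊ := ⟨_, rfl⟩
  have ht0 : 0 < t := by linarith
  have hn1t : t ≤ n1 := by rw [hn1]; exact Nat.le_ceil t
  have hn11 : 1 ≤ n1 := by
    have : (0 : ℝ) < n1 := by linarith
    exact_mod_cast this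
  have A1 := habel d n1 N hn11 (by
    intro n hn
    rw [hDsum n]
    have hnt : (n : ℝ) < t := by
      rw [hn1] at hn
      exact Nat.lt_ceil.1 hn
    have z1 : ∑ m ∈ Icc 1 n, b ⌊α * (m : ℝ) ^ h⌋₊ = 0 := by
      refine Finset.sum_eq_zero fun m hm => ?_
      rw [Finset.mem_Icc] at hm
      refine hvan m (Nat.cast_nonneg m) (lt_of_le_of_lt ?_ hnt)
      exact_mod_cast hm.2
    have z2 : ∫ u in (0 : ℝ)..n, b ⌊α * u ^ h⌋₊ = 0 := by
      rw [intervalIntegral.integral_of_le (Nat.cast_nonneg n)]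
      refine (setIntegral_congr_fun measurableSet_Ioc fun u hu => ?_).trans (integral_zero _ _)
      exact hvan u hu.1.le (lt_of_le_of_lt hu.2 hnt)
    rw [z1, z2, sub_zero]) (by
    intro n hn
    rw [hDsum n]
    refine hD n (hn1t.trans ?_)
    exact_mod_cast hn)
  have A2 := cmp hh hα b B hB lo hs' t ht ht2 N
  have A3 := log_cmp b B hB lo hi hlh
  have A4 := int_log hh hα b B hB lo hi hlh hs N hN
  -- splitting of the sum
  have e1 : ∑ n ∈ Icc 1 N, d n / n = ∑ n ∈ Icc 1 N, b ⌊α * (n : ℝ) ^ h⌋₊ / n -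
      ∑ k ∈ range N, (∫ u in (k : ℝ)..((k + 1 : ℕ) : ℝ), b ⌊α * u ^ h⌋₊) / ((k + 1 : ℕ) : ℝ) := by
    have e2 : ∑ k ∈ range N, (∫ u in (k : ℝ)..((k + 1 : ℕ) : ℝ), b ⌊α * u ^ h⌋₊) / ((k + 1 : ℕ) : ℝ) =
        ∑ n ∈ Icc 1 N, (∫ u in ((n : ℝ) - 1)..(n : ℝ), b ⌊α * u ^ h⌋₊) / n := by
      have h3 : ∀ M : ℕ, ∑ k ∈ range M, (∫ u in (k : ℝ)..((k + 1 : ℕ) : ℝ), b ⌊α * u ^ h⌋₊) / ((k + 1 : ℕ) : ℝ) =
        ∑ n ∈ Icc 1 M, (∫ u in ((n : ℝ) - 1)..(n : ℝ), b ⌊α * u ^ h⌋₊) / n := by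
        intro M
        induction M with
        | zero => simp
        | succ M ih =>
          rw [Finset.sum_range_succ, ih, Finset.sum_Icc_succ_top (by omega)]
          congr 3
          push_cast
          ring
      exact h3 N
    rw [e2, ← Finset.sum_sub_distrib]
    refine Finset.sum_congr rfl fun n _ => ?_
    rw [hd]
    ring
  have e3 : ∑ q ∈ Ioc lo hi, b q * (1 / h * Real.log (((q : ℝ) + 1) / q)) =
      1 / h * ∑ q ∈ Ioc lo hi, b q * Real.log (((q : ℝ) + 1) / q) := by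
    rw [Finset.mul_sum]
    exact Finset.sum_congr rfl fun q _ => by ring
  rw [e3] at A4
  rw [A4] at A2
  have A5 : |1 / h * ∑ q ∈ Ioc lo hi, b q * Real.log (((q : ℝ) + 1) / q) - 1 / h * ∑ q ∈ Ioc lo hi, b q / q| ≤
      1 / h * (B / ((lo : ℝ) + 1)) := by
    rw [← mul_sub, abs_mul, abs_of_pos (by positivity : (0 : ℝ) < 1 / h)]
    exact mul_le_mul_of_nonneg_left A3 (by positivity)
  have A6 : K * (n1 : ℝ) ^ (-(c / 2)) ≤ K * t ^ (-(c / 2)) :=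
    mul_le_mul_of_nonneg_left (Real.rpow_le_rpow_of_nonpos ht0 hn1t (by linarith)) hK.le
  rw [e1] at A1
  rw [abs_le] at A1 A2 A5 ⊢
  constructor <;> linarith [A1.1, A1.2, A2.1, A2.2, A5.1, A5.2]

end Pool.Agent.D0H76.SPC
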