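import Mathlib
import Pool.Agent.D0H76.SPC.Cmp

/-! # Logarithmic averages along `⌊α n ^ h⌋`: families indexed by three exponents -/

set_option autoImplicit false

namespace Pool.Agent.D0H76.SPC

open Finset MeasureTheory Filter Topology

/-- exponentials beat polynomials -/
theorem poly_exp (D M : ℝ) (hD : 0 ≤ D) (E : ℕ) (r : ℝ) (hr : 1 < r) :
    ∀ᶠ i : ℕ in atTop, M * (D * i + 2) ^ E ≤ r ^ i := by
  have h1 := tendsto_pow_const_div_const_pow_of_one_lt E hr
  have h2 : (0 : ℝ) < 1 / (|M| * (D + 2) ^ E + 1) := by positivity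
  filter_upwards [h1.eventually_le_const h2, eventually_ge_atTop 1] with i hi hi1
  have hi1r : (1 : ℝ) ≤ i := by exact_mod_cast hi1
  have hr0 : 0 < r ^ i := by positivity
  have h3 : (i : ℝ) ^ E * (|M| * (D + 2) ^ E + 1) ≤ r ^ i := by
    rw [div_le_div_iff₀ hr0 (by positivity)] at hi
    linarith
  calc M * (D * i + 2) ^ E ≤ |M| * (D * i + 2) ^ E := mul_le_mul_of_nonneg_right (le_abs_self M) (by positivity)
    _ ≤ |M| * ((D + 2) * i) ^ E := by
        apply mul_le_mul_of_nonneg_left _ (abs_nonneg _)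
        apply pow_le_pow_left₀ (by positivity)
        nlinarith
    _ = (i : ℝ) ^ E * (|M| * (D + 2) ^ E) := by rw [mul_pow]; ring
    _ ≤ (i : ℝ) ^ E * (|M| * (D + 2) ^ E + 1) := by
        apply mul_le_mul_of_nonneg_left _ (by positivity)
        linarith
    _ ≤ r ^ i := h3

/-- the end of a window -/
noncomputable def X (lam : ℝ) (i : ℕ) : ℕ := ⌊lam ^ i⌋₊

theorem X_mono {lam : ℝ} (hl : 1 < lam) : Monotone (X lam) := by
  intro i j hij
  exact Nat.floor_le_floor (pow_le_pow_right₀ hl.le hij)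

theorem X_lt {lam : ℝ} (i : ℕ) : lam ^ i < (X lam i : ℝ) + 1 := Nat.lt_floor_add_one _

theorem pair_le (i j k M : ℕ) (hi : i ≤ M) (hj : j ≤ M) (hk : k ≤ M) :
    Nat.pair i (Nat.pair j k) ≤ (M + 2) ^ 4 := by
  have h1 : Nat.pair j k < (max j k + 1) ^ 2 := Nat.pair_lt_max_add_one_sq j k
  have h2 : (max j k + 1) ^ 2 ≤ (M + 1) ^ 2 := Nat.pow_le_pow_left (by omega) 2
  have h3 : Nat.pair i (Nat.pair j k) < (max i (Nat.pair j k) + 1) ^ 2 := Nat.pair_lt_max_add_one_sq _ _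
  have h4 : max i (Nat.pair j k) + 1 ≤ (M + 1) ^ 2 + 1 := by
    have : M ≤ (M + 1) ^ 2 := by nlinarith
    omega
  have h5 : (max i (Nat.pair j k) + 1) ^ 2 ≤ ((M + 1) ^ 2 + 1) ^ 2 := Nat.pow_le_pow_left h4 2
  have h6 : ((M + 1) ^ 2 + 1) ^ 2 ≤ (M + 2) ^ 4 := by
    have : (M + 1) ^ 2 + 1 ≤ (M + 2) ^ 2 := by nlinarith
    calc ((M + 1) ^ 2 + 1) ^ 2 ≤ ((M + 2) ^ 2) ^ 2 := Nat.pow_le_pow_left this 2
      _ = _ := by ring
  omega

/-- **Sampling of logarithmic averages.** -/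
theorem samp1 (h : ℝ) (hh : 0 < h) (lam : ℝ) (hl : 1 < lam) (E : ℕ) (C : ℝ) (b : ℕ → ℕ → ℕ → ℕ → ℝ)
    (hb : ∀ i j k q, |b i j k q| ≤ C * ((i : ℝ) + j + k + 2) ^ E)
    (hs : ∀ i j k q, b i j k q ≠ 0 → X lam i < q ∧ q ≤ X lam j) :
    ∀ᵐ α : ℝ, 0 < α → ∀ (s : ℝ), 0 < s → ∀ B : ℕ, ∀ᶠ i : ℕ in atTop, ∀ j k : ℕ, i ≤ j → j ≤ B * i → k ≤ B * i →
      ∀ N : ℕ, (((X lam j : ℝ) + 1) / α) ^ (1 / h) ≤ N →
      |∑ n ∈ Icc 1 N, b i j k ⌊α * (n : ℝ) ^ h⌋₊ / n - 1 / h * ∑ q ∈ Ioc (X lam i) (X lam j), b i j k q / q| ≤ s := by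
  have hC0 : 0 ≤ C := by
    have := (abs_nonneg _).trans (hb 0 0 0 0)
    by_contra hneg
    push Not at hneg
    have h2 : (0 : ℝ) < ((0 : ℕ) + (0 : ℕ) + (0 : ℕ) + 2 : ℝ) ^ E := by positivity
    nlinarith
  obtain ⟨c, c', hc0, hc1, hc'0, H⟩ := us_real h hh E (C * 3 ^ E)
    (fun e m => b e.unpair.1 e.unpair.2.unpair.1 e.unpair.2.unpair.2 m) (by
      intro e m
      refine (hb _ _ _ _).trans ?_
      rw [mul_assoc, ← mul_pow]
      apply mul_le_mul_of_nonneg_left _ hC0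
      apply pow_le_pow_left₀ (by positivity)
      have k1 : e.unpair.1 ≤ e := Nat.unpair_left_le e
      have k2 : e.unpair.2 ≤ e := Nat.unpair_right_le e
      have k3 : e.unpair.2.unpair.1 ≤ e := (Nat.unpair_left_le _).trans k2
      have k4 : e.unpair.2.unpair.2 ≤ e := (Nat.unpair_right_le _).trans k2
      have k1' : ((e.unpair.1 : ℕ) : ℝ) ≤ e := by exact_mod_cast k1
      have k3' : ((e.unpair.2.unpair.1 : ℕ) : ℝ) ≤ e := by exact_mod_cast k3
      have k4' : ((e.unpair.2.unpair.2 : ℕ) : ℝ) ≤ e := by exact_mod_cast k4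
      linarith)
  obtain ⟨K, hK, hdet⟩ := samp_det h c hh hc0 (by linarith)
  filter_upwards [H] with α hα hα0 s hs0 B
  have hev := hα hα0
  -- `t i` grows exponentially
  obtain ⟨t, ht⟩ : ∃ t : ℕ → ℝ, t = fun i : ℕ => (((X lam i : ℝ) + 1) / α) ^ (1 / h) := ⟨_, rfl⟩
  obtain ⟨r, hr⟩ : ∃ r : ℝ, r = lam ^ (1 / h) := ⟨_, rfl⟩
  have hr1 : 1 < r := by rw [hr]; exact Real.one_lt_rpow hl (by positivity)
  have hlam0 : 0 < lam := by linarith
  obtain ⟨a0, ha0⟩ : ∃ a0 : ℝ, a0 = (1 / α) ^ (1 / h) := ⟨_, rfl⟩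
  have ha00 : 0 < a0 := by rw [ha0]; positivity
  have htr : ∀ i, a0 * r ^ i ≤ t i := by
    intro i
    rw [ht, ha0, hr]
    simp only
    rw [← Real.rpow_natCast, ← Real.rpow_mul hlam0.le, mul_comm (1 / h) (i : ℝ), Real.rpow_mul hlam0.le,
      Real.rpow_natCast, ← Real.mul_rpow (by positivity) (by positivity)]
    apply Real.rpow_le_rpow (by positivity) _ (by positivity)
    rw [one_div, div_eq_inv_mul]
    exact mul_le_mul_of_nonneg_left (X_lt i).le (by positivity)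
  have htt : Tendsto t atTop atTop := by
    refine tendsto_atTop_mono htr ?_
    exact (tendsto_pow_atTop_atTop_of_one_lt hr1).const_mul_atTop ha00
  -- the index is small
  obtain ⟨rc, hrc⟩ : ∃ rc : ℝ, rc = r ^ c' := ⟨_, rfl⟩
  have hrc1 : 1 < rc := by rw [hrc]; exact Real.one_lt_rpow hr1 hc'0
  have hidx := poly_exp (B + 1 : ℝ) (1 / a0 ^ c') (by positivity) 4 rc hrc1
  have herr1 : Tendsto (fun i : ℕ => K * t i ^ (-(c / 2))) atTop (𝓝 0) := by
    have h1 : Tendsto (fun i : ℕ => t i ^ (-(c / 2))) atTop (𝓝 0) :=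
      (tendsto_rpow_neg_atTop (by positivity : 0 < c / 2)).comp htt
    simpa using h1.const_mul K
  have herr2 := poly_exp (1 + 2 * B : ℝ) (2 * C * (3 / s) / a0) (by positivity) E r hr1
  have herr3 := poly_exp (1 + 2 * B : ℝ) (1 / h * C * (3 / s)) (by positivity) E lam hl
  obtain ⟨N0, hN0⟩ := eventually_atTop.1 hev
  filter_upwards [hidx, herr1.eventually_le_const (by positivity : 0 < s / 3), herr2, herr3,
    htt.eventually_ge_atTop 2, htt.eventually_ge_atTop N0] with i g1 g2 g3 g4 g5 g6 j k hij hj hk N hN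
  have hi0 : (0 : ℝ) ≤ i := Nat.cast_nonneg i
  have hjr : (j : ℝ) ≤ B * i := by exact_mod_cast hj
  have hkr : (k : ℝ) ≤ B * i := by exact_mod_cast hk
  obtain ⟨e, he⟩ : ∃ e : ℕ, e = Nat.pair i (Nat.pair j k) := ⟨_, rfl⟩
  have hel : (e : ℝ) ≤ t i ^ c' := by
    have h1 : e ≤ ((B + 1) * i + 2) ^ 4 := by
      rw [he]
      refine (pair_le i j k ((B + 1) * i) ?_ ?_ ?_)
      · nlinarith
      · nlinarith
      · nlinarith
    have h2 : (e : ℝ) ≤ ((B + 1 : ℝ) * i + 2) ^ 4 := by exact_mod_cast h1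
    refine h2.trans ?_
    have h3 : ((B + 1 : ℝ) * i + 2) ^ 4 ≤ a0 ^ c' * rc ^ i := by
      have h4 : 0 < a0 ^ c' := by positivity
      rw [one_div, inv_mul_le_iff₀ h4] at g1
      exact g1
    refine h3.trans ?_
    calc a0 ^ c' * rc ^ i = (a0 * r ^ i) ^ c' := by
          have hr0 : 0 < r := by linarith
          rw [Real.mul_rpow ha00.le (by positivity), hrc, ← Real.rpow_natCast (r ^ c') i, ← Real.rpow_mul hr0.le,
            ← Real.rpow_natCast r i, ← Real.rpow_mul hr0.le, mul_comm c']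
      _ ≤ t i ^ c' := Real.rpow_le_rpow (by have hr0 : 0 < r := by linarith
                                            positivity) (htr i) hc'0.le
  obtain ⟨BB, hBB⟩ : ∃ BB : ℝ, BB = C * ((1 + 2 * B : ℝ) * i + 2) ^ E := ⟨_, rfl⟩
  have hbB : ∀ m, |b i j k m| ≤ BB := by
    intro m
    refine (hb i j k m).trans ?_
    rw [hBB]
    apply mul_le_mul_of_nonneg_left _ hC0
    apply pow_le_pow_left₀ (by positivity)
    linarith
  have hD := hdet α hα0 (b i j k) BB hbB (X lam i) (X lam j) (X_mono hl hij) (hs i j k) (t i) (by rw [ht]) g5 (by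
    intro n hn
    have hnN : N0 ≤ n := by
      have : (N0 : ℝ) ≤ n := g6.trans hn
      exact_mod_cast this
    have h1 := hN0 n hnN e (hel.trans (Real.rpow_le_rpow (by linarith) hn hc'0.le))
    rw [he] at h1
    simpa only [Nat.unpair_pair] using h1) N hN
  refine hD.trans ?_
  have hti0 : 0 < t i := by linarith
  have f2 : 2 * BB / t i ≤ s / 3 := by
    have h1 : 2 * BB * (3 / s) ≤ t i := by
      refine le_trans ?_ (htr i)
      have h2 : 2 * C * (3 / s) * ((1 + 2 * B : ℝ) * i + 2) ^ E ≤ a0 * r ^ i := by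
        rw [div_mul_eq_mul_div, div_le_iff₀ ha00] at g3
        linarith
      rw [hBB]
      linarith
    rw [div_le_iff₀ hti0]
    have h3 : 2 * BB = (2 * BB * (3 / s)) * (s / 3) := by field_simp
    rw [h3, mul_comm (s / 3)]
    exact mul_le_mul_of_nonneg_right h1 (by positivity)
  have f3 : 1 / h * (BB / ((X lam i : ℝ) + 1)) ≤ s / 3 := by
    have h1 : 1 / h * BB * (3 / s) ≤ (X lam i : ℝ) + 1 := by
      refine le_trans ?_ (X_lt i).le
      rw [hBB]
      linarith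
    rw [← mul_div_assoc, div_le_iff₀ (by positivity)]
    have h3 : 1 / h * BB = (1 / h * BB * (3 / s)) * (s / 3) := by field_simp
    rw [h3, mul_comm (s / 3)]
    exact mul_le_mul_of_nonneg_right h1 (by positivity)
  linarith

end Pool.Agent.D0H76.SPC
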