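import Mathlib
import Pool.Agent.D0H76.SPC.Samp2

/-! # Double logarithmic averages along `⌊α n ^ h⌋` and `⌊β m ^ l⌋` -/

set_option autoImplicit false

namespace Pool.Agent.D0H76.SPC

open Finset MeasureTheory Filter Topology

/-- last index of the window -/
noncomputable def Nw (α h : ℝ) (Y : ℕ) : ℕ := ⌈(((Y : ℝ) + 1) / α) ^ (1 / h)⌉₊

open Classical in
/-- the indices `n` with `X < ⌊α n ^ h⌋ ≤ Y` -/
noncomputable def WF (α h : ℝ) (X Y : ℕ) : Finset ℕ :=
  (Icc 1 (Nw α h Y)).filter fun n => X < ⌊α * (n : ℝ) ^ h⌋₊ ∧ ⌊α * (n : ℝ) ^ h⌋₊ ≤ Y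

theorem coe_WF {α h : ℝ} (hα : 0 < α) (hh : 0 < h) (X Y : ℕ) :
    ((WF α h X Y : Finset ℕ) : Set ℕ) = {n : ℕ | X < ⌊α * (n : ℝ) ^ h⌋₊ ∧ ⌊α * (n : ℝ) ^ h⌋₊ ≤ Y} := by
  ext n
  unfold WF
  rw [Finset.mem_coe, Finset.mem_filter, Finset.mem_Icc, Set.mem_ofPred_eq]
  constructor
  · exact fun hn => hn.2
  · intro hn
    refine ⟨⟨?_, ?_⟩, hn⟩
    · by_contra h0
      have h1 : n = 0 := by omega
      rw [h1, Nat.cast_zero, Real.zero_rpow hh.ne', mul_zero, Nat.floor_zero] at hn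
      omega
    · unfold Nw
      by_contra hlt
      push Not at hlt
      have h1 : (((Y : ℝ) + 1) / α) ^ (1 / h) ≤ (n : ℝ) :=
        (Nat.le_ceil _).trans (by exact_mod_cast hlt.le)
      have h2 : Y + 1 ≤ ⌊α * (n : ℝ) ^ h⌋₊ := floor_high hh hα (by push_cast; exact h1)
      omega

theorem sum_WF (α h : ℝ) (X Y : ℕ) (g : ℕ → ℝ) : ∑ n ∈ WF α h X Y, g n =
    ∑ n ∈ Icc 1 (Nw α h Y), if X < ⌊α * (n : ℝ) ^ h⌋₊ ∧ ⌊α * (n : ℝ) ^ h⌋₊ ≤ Y then g n else 0 := by
  classical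
  unfold WF
  rw [Finset.sum_filter]

theorem harm (N : ℕ) : ∑ n ∈ Icc 1 N, (1 : ℝ) / n ≤ 1 + Real.log N := by
  have h1 := harmonic_le_one_add_log N
  rw [harmonic_eq_sum_Icc] at h1
  push_cast at h1
  refine le_trans (le_of_eq ?_) h1
  exact Finset.sum_congr rfl fun n _ => one_div _

theorem log_X {lam : ℝ} (hl : 1 < lam) (j : ℕ) : Real.log (X lam j) ≤ j * Real.log lam := by
  have h1 : (X lam j : ℝ) ≤ lam ^ j := Nat.floor_le (by positivity)
  have h2 : 1 ≤ X lam j := Nat.le_floor (by push_cast; exact one_le_pow₀ hl.le)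
  have h3 : (0 : ℝ) < X lam j := by exact_mod_cast h2
  calc Real.log (X lam j) ≤ Real.log (lam ^ j) := Real.log_le_log h3 h1
    _ = j * Real.log lam := by rw [Real.log_pow]

/-- the length of the windows has logarithm `O(j + 1)` -/
theorem log_Nw {lam : ℝ} (hl : 1 < lam) {α h : ℝ} (hα : 0 < α) (hh : 0 < h) : ∃ D : ℝ, 0 ≤ D ∧
    ∀ j : ℕ, Real.log (Nw α h (X lam j)) ≤ D * ((j : ℝ) + 1) := by
  have hlam0 : 0 < lam := by linarith
  obtain ⟨A, hA⟩ : ∃ A : ℝ, A = (2 / α) ^ (1 / h) := ⟨_, rfl⟩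
  have hA0 : 0 < A := by rw [hA]; positivity
  have hll : 0 < Real.log lam := Real.log_pos hl
  refine ⟨Real.log (A + 1) + 1 / h * Real.log lam, by
    have : 0 ≤ Real.log (A + 1) := Real.log_nonneg (by linarith)
    positivity, fun j => ?_⟩
  have hx1 : (1 : ℝ) ≤ lam ^ j := one_le_pow₀ hl.le
  have h1 : (X lam j : ℝ) ≤ lam ^ j := Nat.floor_le (by positivity)
  have h2 : (((X lam j : ℕ) : ℝ) + 1) / α ≤ 2 / α * lam ^ j := by
    rw [div_mul_eq_mul_div]
    apply div_le_div_of_nonneg_right _ hα.le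
    linarith
  obtain ⟨y, hy⟩ : ∃ y : ℝ, y = (lam ^ j) ^ (1 / h) := ⟨_, rfl⟩
  have hy1 : 1 ≤ y := by rw [hy]; exact Real.one_le_rpow hx1 (by positivity)
  have h3 : ((((X lam j : ℕ) : ℝ) + 1) / α) ^ (1 / h) ≤ A * y := by
    rw [hA, hy, ← Real.mul_rpow (by positivity) (by positivity)]
    exact Real.rpow_le_rpow (by positivity) h2 (by positivity)
  have h4 : (Nw α h (X lam j) : ℝ) ≤ (A + 1) * y := by
    unfold Nw
    refine (Nat.ceil_lt_add_one (by positivity)).le.trans ?_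
    linarith
  have h5 : (0 : ℝ) < Nw α h (X lam j) := by
    unfold Nw
    have : 0 < ⌈((((X lam j : ℕ) : ℝ) + 1) / α) ^ (1 / h)⌉₊ := Nat.ceil_pos.2 (by positivity)
    exact_mod_cast this
  have h6 : Real.log y = j * (1 / h * Real.log lam) := by
    rw [hy, Real.log_rpow (by positivity), Real.log_pow]
    ring
  calc Real.log (Nw α h (X lam j)) ≤ Real.log ((A + 1) * y) := Real.log_le_log h5 h4
    _ = Real.log (A + 1) + Real.log y := Real.log_mul (by positivity) (by positivity)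
    _ = Real.log (A + 1) + j * (1 / h * Real.log lam) := by rw [h6]
    _ ≤ _ := by
        have k1 : 0 ≤ Real.log (A + 1) := Real.log_nonneg (by linarith)
        have k2 : 0 ≤ 1 / h * Real.log lam := by positivity
        have k3 : (0 : ℝ) ≤ j := Nat.cast_nonneg j
        nlinarith [mul_nonneg k1 k3]

/-- **Double sampling.** -/
theorem samp2 (h l : ℝ) (hh : 0 < h) (hl0 : 0 < l) (lam : ℝ) (hl : 1 < lam) (E : ℕ) (C : ℝ) (hC : 0 ≤ C)
    (F : ℕ → ℕ → ℕ → ℝ)
    (hF : ∀ i j k q r, X lam i < q → q ≤ X lam j → X lam i < r → r ≤ X lam j →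
      |F k q r| ≤ C * ((i : ℝ) + j + k + 2) ^ E) :
    ∀ᵐ α : ℝ, 0 < α → ∀ᵐ β : ℝ, 0 < β → ∀ (s : ℝ), 0 < s → ∀ B : ℕ, ∀ᶠ i : ℕ in atTop,
      ∀ j k : ℕ, i ≤ j → j ≤ B * i → k ≤ B * i →
      |∑ m ∈ WF β l (X lam i) (X lam j), (∑ n ∈ WF α h (X lam i) (X lam j),
          F k ⌊α * (n : ℝ) ^ h⌋₊ ⌊β * (m : ℝ) ^ l⌋₊ / n) / m -
        1 / (h * l) * ∑ q ∈ Ioc (X lam i) (X lam j), ∑ r ∈ Ioc (X lam i) (X lam j), F k q r / ((q : ℝ) * r)| ≤ s := by
  classical
  have hll : 0 < Real.log lam := Real.log_pos hl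
  -- first stage
  obtain ⟨b, hb⟩ : ∃ b : ℕ → ℕ → ℕ → ℕ → ℝ, b = fun i j k q => if X lam i < q ∧ q ≤ X lam j then
      ∑ r ∈ Ioc (X lam i) (X lam j), F k q r / r else 0 := ⟨_, rfl⟩
  have hAe := samp1 h hh lam hl (E + 1) (C * (1 + Real.log lam)) b (by
    intro i j k q
    have hx : (0 : ℝ) ≤ (i : ℝ) + j + k + 2 := by positivity
    rw [hb]
    simp only
    split_ifs with hq
    · refine (Finset.abs_sum_le_sum_abs _ _).trans ?_
      have h1 : ∀ r ∈ Ioc (X lam i) (X lam j), |F k q r / r| ≤ C * ((i : ℝ) + j + k + 2) ^ E * (1 / r) := by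
        intro r hr
        rw [Finset.mem_Ioc] at hr
        rw [abs_div, Nat.abs_cast, div_eq_mul_one_div]
        exact mul_le_mul_of_nonneg_right (hF i j k q r hq.1 hq.2 hr.1 hr.2) (by positivity)
      refine (Finset.sum_le_sum h1).trans ?_
      rw [← Finset.mul_sum]
      have h2 : ∑ r ∈ Ioc (X lam i) (X lam j), (1 : ℝ) / r ≤ 1 + j * Real.log lam := by
        calc ∑ r ∈ Ioc (X lam i) (X lam j), (1 : ℝ) / r ≤ ∑ r ∈ Icc 1 (X lam j), (1 : ℝ) / r := by
              apply Finset.sum_le_sum_of_subset_of_nonneg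
              · intro r hr
                rw [Finset.mem_Ioc] at hr
                rw [Finset.mem_Icc]
                omega
              · intro r _ _
                positivity
          _ ≤ 1 + Real.log (X lam j) := harm _
          _ ≤ _ := by linarith [log_X hl j]
      calc C * ((i : ℝ) + j + k + 2) ^ E * ∑ r ∈ Ioc (X lam i) (X lam j), (1 : ℝ) / r
          ≤ C * ((i : ℝ) + j + k + 2) ^ E * ((1 + Real.log lam) * ((i : ℝ) + j + k + 2)) := by
            apply mul_le_mul_of_nonneg_left _ (by positivity)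
            refine h2.trans ?_
            have : (0 : ℝ) ≤ i := Nat.cast_nonneg i
            have : (0 : ℝ) ≤ j := Nat.cast_nonneg j
            have : (0 : ℝ) ≤ k := Nat.cast_nonneg k
            nlinarith
        _ = _ := by ring
    · rw [abs_zero]
      positivity) (by
    intro i j k q hne
    rw [hb] at hne
    simp only at hne
    by_contra hcon
    rw [if_neg hcon] at hne
    exact hne rfl)
  filter_upwards [hAe] with α hα hα0
  have hα1 := hα hα0
  obtain ⟨D, hD0, hD⟩ := log_Nw hl hα0 hh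
  -- second stage
  obtain ⟨b', hb'⟩ : ∃ b' : ℕ → ℕ → ℕ → ℕ → ℝ, b' = fun i j k r => if X lam i < r ∧ r ≤ X lam j then
      ∑ n ∈ WF α h (X lam i) (X lam j), F k ⌊α * (n : ℝ) ^ h⌋₊ r / n else 0 := ⟨_, rfl⟩
  have hBe := samp1 l hl0 lam hl (E + 1) (C * (1 + D)) b' (by
    intro i j k r
    have hx : (0 : ℝ) ≤ (i : ℝ) + j + k + 2 := by positivity
    rw [hb']
    simp only
    split_ifs with hr
    · refine (Finset.abs_sum_le_sum_abs _ _).trans ?_
      have h1 : ∀ n ∈ WF α h (X lam i) (X lam j), |F k ⌊α * (n : ℝ) ^ h⌋₊ r / n| ≤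
          C * ((i : ℝ) + j + k + 2) ^ E * (1 / n) := by
        intro n hn
        unfold WF at hn
        rw [Finset.mem_filter] at hn
        rw [abs_div, Nat.abs_cast, div_eq_mul_one_div]
        exact mul_le_mul_of_nonneg_right (hF i j k _ r hn.2.1 hn.2.2 hr.1 hr.2) (by positivity)
      refine (Finset.sum_le_sum h1).trans ?_
      rw [← Finset.mul_sum]
      have h2 : ∑ n ∈ WF α h (X lam i) (X lam j), (1 : ℝ) / n ≤ 1 + D * ((j : ℝ) + 1) := by
        calc ∑ n ∈ WF α h (X lam i) (X lam j), (1 : ℝ) / n ≤ ∑ n ∈ Icc 1 (Nw α h (X lam j)), (1 : ℝ) / n := by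
              apply Finset.sum_le_sum_of_subset_of_nonneg
              · exact Finset.filter_subset _ _
              · intro r _ _
                positivity
          _ ≤ 1 + Real.log (Nw α h (X lam j)) := harm _
          _ ≤ _ := by linarith [hD j]
      calc C * ((i : ℝ) + j + k + 2) ^ E * ∑ n ∈ WF α h (X lam i) (X lam j), (1 : ℝ) / n
          ≤ C * ((i : ℝ) + j + k + 2) ^ E * ((1 + D) * ((i : ℝ) + j + k + 2)) := by
            apply mul_le_mul_of_nonneg_left _ (by positivity)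
            refine h2.trans ?_
            have : (0 : ℝ) ≤ i := Nat.cast_nonneg i
            have : (0 : ℝ) ≤ j := Nat.cast_nonneg j
            have : (0 : ℝ) ≤ k := Nat.cast_nonneg k
            nlinarith
        _ = _ := by ring
    · rw [abs_zero]
      positivity) (by
    intro i j k q hne
    rw [hb'] at hne
    simp only at hne
    by_contra hcon
    rw [if_neg hcon] at hne
    exact hne rfl)
  filter_upwards [hBe] with β hβ hβ0 s hs B
  have hβ1 := hβ hβ0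
  filter_upwards [hα1 (s / 2 * l) (by positivity) B, hβ1 (s / 2) (by positivity) B] with i g1 g2 j k hij hj hk
  have k1 := g1 j k hij hj hk (Nw α h (X lam j)) (Nat.le_ceil _)
  have k2 := g2 j k hij hj hk (Nw β l (X lam j)) (Nat.le_ceil _)
  have e1 : ∑ n ∈ Icc 1 (Nw α h (X lam j)), b i j k ⌊α * (n : ℝ) ^ h⌋₊ / n =
      ∑ n ∈ WF α h (X lam i) (X lam j), (∑ r ∈ Ioc (X lam i) (X lam j), F k ⌊α * (n : ℝ) ^ h⌋₊ r / r) / n := by
    rw [sum_WF]
    refine Finset.sum_congr rfl fun n _ => ?_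
    rw [hb]
    simp only
    split_ifs
    · rfl
    · exact zero_div _
  have e2 : ∑ m ∈ Icc 1 (Nw β l (X lam j)), b' i j k ⌊β * (m : ℝ) ^ l⌋₊ / m =
      ∑ m ∈ WF β l (X lam i) (X lam j), (∑ n ∈ WF α h (X lam i) (X lam j),
          F k ⌊α * (n : ℝ) ^ h⌋₊ ⌊β * (m : ℝ) ^ l⌋₊ / n) / m := by
    rw [sum_WF]
    refine Finset.sum_congr rfl fun n _ => ?_
    rw [hb']
    simp only
    split_ifs
    · rfl
    · exact zero_div _
  have e3 : ∑ q ∈ Ioc (X lam i) (X lam j), b i j k q / q =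
      ∑ q ∈ Ioc (X lam i) (X lam j), ∑ r ∈ Ioc (X lam i) (X lam j), F k q r / ((q : ℝ) * r) := by
    refine Finset.sum_congr rfl fun q hq => ?_
    rw [Finset.mem_Ioc] at hq
    rw [hb]
    simp only
    rw [if_pos hq, Finset.sum_div]
    refine Finset.sum_congr rfl fun r _ => ?_
    rw [div_div, mul_comm (r : ℝ)]
  have e4 : ∑ r ∈ Ioc (X lam i) (X lam j), b' i j k r / r =
      ∑ n ∈ Icc 1 (Nw α h (X lam j)), b i j k ⌊α * (n : ℝ) ^ h⌋₊ / n := by
    rw [e1]
    have h1 : ∑ r ∈ Ioc (X lam i) (X lam j), b' i j k r / r = ∑ r ∈ Ioc (X lam i) (X lam j),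
        ∑ n ∈ WF α h (X lam i) (X lam j), F k ⌊α * (n : ℝ) ^ h⌋₊ r / n / r := by
      refine Finset.sum_congr rfl fun r hr => ?_
      rw [Finset.mem_Ioc] at hr
      rw [hb']
      simp only
      rw [if_pos hr, Finset.sum_div]
    rw [h1, Finset.sum_comm]
    refine Finset.sum_congr rfl fun n _ => ?_
    rw [Finset.sum_div]
    refine Finset.sum_congr rfl fun r _ => ?_
    rw [div_right_comm]
  rw [e4] at k2
  rw [e2] at k2
  rw [e3] at k1
  obtain ⟨U, hU⟩ : ∃ U, U = ∑ n ∈ Icc 1 (Nw α h (X lam j)), b i j k ⌊α * (n : ℝ) ^ h⌋₊ / n := ⟨_, rfl⟩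
  rw [← hU] at k1 k2
  have k3 : |1 / l * U - 1 / (h * l) * ∑ q ∈ Ioc (X lam i) (X lam j),
      ∑ r ∈ Ioc (X lam i) (X lam j), F k q r / ((q : ℝ) * r)| ≤ s / 2 := by
    have e5 : 1 / l * U - 1 / (h * l) * ∑ q ∈ Ioc (X lam i) (X lam j),
        ∑ r ∈ Ioc (X lam i) (X lam j), F k q r / ((q : ℝ) * r) = 1 / l * (U - 1 / h * ∑ q ∈ Ioc (X lam i) (X lam j),
        ∑ r ∈ Ioc (X lam i) (X lam j), F k q r / ((q : ℝ) * r)) := by
      field_simp
    rw [e5, abs_mul, abs_of_pos (by positivity : (0 : ℝ) < 1 / l)]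
    calc 1 / l * |U - 1 / h * ∑ q ∈ Ioc (X lam i) (X lam j),
        ∑ r ∈ Ioc (X lam i) (X lam j), F k q r / ((q : ℝ) * r)| ≤ 1 / l * (s / 2 * l) :=
          mul_le_mul_of_nonneg_left k1 (by positivity)
      _ = s / 2 := by field_simp
  rw [abs_le] at k2 k3 ⊢
  constructor <;> linarith [k2.1, k2.2, k3.1, k3.2]

end Pool.Agent.D0H76.SPC
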