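import Pool.Agent.D0H76.SPC.Bd
import Pool.Agent.D0H76.SPC.Samp3

/-! # Double averages of functions of two primitive characters along two sequences of conductors -/

set_option autoImplicit false

open Filter Topology MeasureTheory

namespace Pool.Agent.D0H76.SPC

open Pool.Agent.R321.RC (PF mem_PF)

theorem card_PF (q : ℕ) (hq : 1 ≤ q) : ((PF q).card : ℝ) ≤ q := by
  have hq' : NeZero q := ⟨by omega⟩
  have h1 : (PF q).card ≤ Nat.card (DirichletCharacter ℂ q) := by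
    rw [Nat.card_eq_fintype_card]
    exact Finset.card_le_univ _
  rw [DirichletCharacter.card_eq_totient_of_hasEnoughRootsOfUnity] at h1
  exact_mod_cast h1.trans (Nat.totient_le q)

/-- the sum over all pairs of primitive characters of conductors `q` and `r` -/
noncomputable def G (f : (q : ℕ) → DirichletCharacter ℂ q → (r : ℕ) → DirichletCharacter ℂ r → ℕ) (q r : ℕ) : ℝ :=
  ∑ χ ∈ PF q, ∑ ψ ∈ PF r, (f q χ r ψ : ℝ)

theorem G_le (f : (q : ℕ) → DirichletCharacter ℂ q → (r : ℕ) → DirichletCharacter ℂ r → ℕ) (q r : ℕ) (hq : 1 ≤ q)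
    (hr : 1 ≤ r) (M : ℝ) (hM : 0 ≤ M)
    (hf : ∀ (χ : DirichletCharacter ℂ q) (ψ : DirichletCharacter ℂ r), χ.IsPrimitive → ψ.IsPrimitive →
      (f q χ r ψ : ℝ) ≤ M) : G f q r ≤ q * r * M := by
  unfold G
  have h1 : ∀ χ ∈ PF q, ∑ ψ ∈ PF r, (f q χ r ψ : ℝ) ≤ r * M := by
    intro χ hχ
    refine (Finset.sum_le_card_nsmul _ _ M fun ψ hψ => hf χ ψ ((mem_PF (by omega) χ).1 hχ)
      ((mem_PF (by omega) ψ).1 hψ)).trans ?_
    rw [nsmul_eq_mul]
    exact mul_le_mul_of_nonneg_right (card_PF r hr) hM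
  refine (Finset.sum_le_card_nsmul _ _ _ h1).trans ?_
  rw [nsmul_eq_mul, mul_assoc]
  exact mul_le_mul_of_nonneg_right (card_PF q hq) (by positivity)

theorem G_nonneg (f : (q : ℕ) → DirichletCharacter ℂ q → (r : ℕ) → DirichletCharacter ℂ r → ℕ) (q r : ℕ) :
    0 ≤ G f q r := Finset.sum_nonneg fun _ _ => Finset.sum_nonneg fun _ _ => Nat.cast_nonneg _

/-- **Double sampling for functions of two primitive characters.** -/
theorem samp_f (h l : ℝ) (hh : 0 < h) (hl0 : 0 < l) (lam : ℝ) (hl : 1 < lam) (C : ℝ) (hC : 0 ≤ C)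
    (f : ℝ → (q : ℕ) → DirichletCharacter ℂ q → (r : ℕ) → DirichletCharacter ℂ r → ℕ)
    (hf : ∀ (T : ℝ) (q : ℕ) (χ : DirichletCharacter ℂ q) (r : ℕ) (ψ : DirichletCharacter ℂ r), 3 ≤ T → 1 ≤ q → 1 ≤ r →
      χ.IsPrimitive → ψ.IsPrimitive →
      (f T q χ r ψ : ℝ) ≤ C * T * (Real.log (q * (2 * T)) + Real.log (r * (2 * T)))) :
    ∀ᵐ α : ℝ, 0 < α → ∀ᵐ β : ℝ, 0 < β → ∀ (s : ℝ), 0 < s → ∀ B : ℕ, ∀ᶠ i : ℕ in atTop,
      ∀ j k : ℕ, i ≤ j → j ≤ B * i → k ≤ B * i → 3 ≤ lam ^ k →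
      |∑ m ∈ WF β l (X lam i) (X lam j), (∑ n ∈ WF α h (X lam i) (X lam j),
          G (f (lam ^ k)) ⌊α * (n : ℝ) ^ h⌋₊ ⌊β * (m : ℝ) ^ l⌋₊ /
            ((⌊α * (n : ℝ) ^ h⌋₊ : ℝ) * ⌊β * (m : ℝ) ^ l⌋₊) / n) / m -
        1 / (h * l) * ∑ q ∈ Finset.Ioc (X lam i) (X lam j), ∑ r ∈ Finset.Ioc (X lam i) (X lam j),
          G (f (lam ^ k)) q r / ((q : ℝ) * r) / ((q : ℝ) * r)| ≤ s * lam ^ k := by
  have hll : 0 < Real.log lam := Real.log_pos hl
  obtain ⟨F, hF⟩ : ∃ F : ℕ → ℕ → ℕ → ℝ, F = fun k q r => if 3 ≤ lam ^ k then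
      G (f (lam ^ k)) q r / ((q : ℝ) * r) / lam ^ k else 0 := ⟨_, rfl⟩
  have hmain := samp2 h l hh hl0 lam hl 1 (C * (2 + 2 * Real.log lam)) (by positivity) F (by
    intro i j k q r hq1 hq2 hr1 hr2
    rw [hF]
    simp only
    split_ifs with h3
    · have hT0 : (0 : ℝ) < lam ^ k := by linarith
      have hq0 : (0 : ℝ) < q := by exact_mod_cast (by omega : 0 < q)
      have hr0 : (0 : ℝ) < r := by exact_mod_cast (by omega : 0 < r)
      have hx : ∀ y : ℕ, 0 < y → y ≤ X lam j → Real.log ((y : ℝ) * (2 * lam ^ k)) ≤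
          1 + (j + k) * Real.log lam := by
        intro y hy0 hy
        have hy0' : (0 : ℝ) < y := by exact_mod_cast hy0
        have hy' : (y : ℝ) ≤ X lam j := by exact_mod_cast hy
        rw [Real.log_mul hy0'.ne' (by positivity), Real.log_mul (by norm_num) hT0.ne', Real.log_pow]
        have k1 : Real.log y ≤ j * Real.log lam := (Real.log_le_log hy0' hy').trans (log_X hl j)
        have k2 : Real.log 2 ≤ 1 := by
          have := Real.log_two_lt_d9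
          linarith
        linarith
      have hlq := hx q (by omega) hq2
      have hlr := hx r (by omega) hr2
      have hM : ∀ (χ : DirichletCharacter ℂ q) (ψ : DirichletCharacter ℂ r), χ.IsPrimitive → ψ.IsPrimitive →
          (f (lam ^ k) q χ r ψ : ℝ) ≤ C * (2 + 2 * Real.log lam) * ((i : ℝ) + j + k + 2) * lam ^ k := by
        intro χ ψ hχ hψ
        refine (hf (lam ^ k) q χ r ψ h3 (by omega) (by omega) hχ hψ).trans ?_
        have k3 : Real.log (q * (2 * lam ^ k)) + Real.log (r * (2 * lam ^ k)) ≤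
            (2 + 2 * Real.log lam) * ((i : ℝ) + j + k + 2) := by
          have e1 : (0 : ℝ) ≤ i := Nat.cast_nonneg i
          have e2 : (0 : ℝ) ≤ j := Nat.cast_nonneg j
          have e3 : (0 : ℝ) ≤ k := Nat.cast_nonneg k
          nlinarith
        calc C * lam ^ k * (Real.log (q * (2 * lam ^ k)) + Real.log (r * (2 * lam ^ k))) ≤
              C * lam ^ k * ((2 + 2 * Real.log lam) * ((i : ℝ) + j + k + 2)) :=
              mul_le_mul_of_nonneg_left k3 (by positivity)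
          _ = _ := by ring
      have hG := G_le (f (lam ^ k)) q r (by omega) (by omega) _ (by positivity) hM
      rw [abs_of_nonneg (by
        have := G_nonneg (f (lam ^ k)) q r
        positivity), div_div, div_le_iff₀ (by positivity), pow_one]
      calc G (f (lam ^ k)) q r ≤ q * r * (C * (2 + 2 * Real.log lam) * ((i : ℝ) + j + k + 2) * lam ^ k) := hG
        _ = _ := by ring
    · rw [abs_zero]
      positivity)
  filter_upwards [hmain] with α hα hα0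
  filter_upwards [hα hα0] with β hβ hβ0 s hs B
  filter_upwards [hβ hβ0 s hs B] with i hi j k hij hj hk h3
  have h1 := hi j k hij hj hk
  have hT0 : (0 : ℝ) < lam ^ k := by linarith
  rw [hF] at h1
  simp only [if_pos h3] at h1
  have e1 : ∑ m ∈ WF β l (X lam i) (X lam j), (∑ n ∈ WF α h (X lam i) (X lam j),
          G (f (lam ^ k)) ⌊α * (n : ℝ) ^ h⌋₊ ⌊β * (m : ℝ) ^ l⌋₊ /
            ((⌊α * (n : ℝ) ^ h⌋₊ : ℝ) * ⌊β * (m : ℝ) ^ l⌋₊) / n) / m =
      lam ^ k * ∑ m ∈ WF β l (X lam i) (X lam j), (∑ n ∈ WF α h (X lam i) (X lam j),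
          G (f (lam ^ k)) ⌊α * (n : ℝ) ^ h⌋₊ ⌊β * (m : ℝ) ^ l⌋₊ /
            ((⌊α * (n : ℝ) ^ h⌋₊ : ℝ) * ⌊β * (m : ℝ) ^ l⌋₊) / lam ^ k / n) / m := by
    rw [Finset.mul_sum]
    refine Finset.sum_congr rfl fun m _ => ?_
    rw [← mul_div_assoc, Finset.mul_sum]
    congr 1
    refine Finset.sum_congr rfl fun n _ => ?_
    field_simp
  have e2 : ∑ q ∈ Finset.Ioc (X lam i) (X lam j), ∑ r ∈ Finset.Ioc (X lam i) (X lam j),
          G (f (lam ^ k)) q r / ((q : ℝ) * r) / ((q : ℝ) * r) =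
      lam ^ k * ∑ q ∈ Finset.Ioc (X lam i) (X lam j), ∑ r ∈ Finset.Ioc (X lam i) (X lam j),
          G (f (lam ^ k)) q r / ((q : ℝ) * r) / lam ^ k / ((q : ℝ) * r) := by
    rw [Finset.mul_sum]
    refine Finset.sum_congr rfl fun m _ => ?_
    rw [Finset.mul_sum]
    refine Finset.sum_congr rfl fun n _ => ?_
    field_simp
  rw [e1, e2]
  obtain ⟨S1, hS1⟩ : ∃ S1, S1 = ∑ m ∈ WF β l (X lam i) (X lam j), (∑ n ∈ WF α h (X lam i) (X lam j),
          G (f (lam ^ k)) ⌊α * (n : ℝ) ^ h⌋₊ ⌊β * (m : ℝ) ^ l⌋₊ /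
            ((⌊α * (n : ℝ) ^ h⌋₊ : ℝ) * ⌊β * (m : ℝ) ^ l⌋₊) / lam ^ k / n) / m := ⟨_, rfl⟩
  obtain ⟨S2, hS2⟩ : ∃ S2, S2 = ∑ q ∈ Finset.Ioc (X lam i) (X lam j), ∑ r ∈ Finset.Ioc (X lam i) (X lam j),
          G (f (lam ^ k)) q r / ((q : ℝ) * r) / lam ^ k / ((q : ℝ) * r) := ⟨_, rfl⟩
  rw [← hS1, ← hS2] at h1 ⊢
  have e3 : lam ^ k * S1 - 1 / (h * l) * (lam ^ k * S2) = (S1 - 1 / (h * l) * S2) * lam ^ k := by ring
  rw [e3, abs_mul, abs_of_pos hT0]
  exact mul_le_mul_of_nonneg_right h1 hT0.le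

end Pool.Agent.D0H76.SPC
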