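import Pool.Agent.D0H76.SPC.Fam
import Pool.Agent.Results.MP_347b49_nt.CommonZerosPolynomialHeights

/-! # Windows whose ends are powers of a fixed number -/

set_option autoImplicit false

open Filter Topology MeasureTheory

namespace Pool.Agent.D0H76.SPC.Sparse

open Pool.Agent.Results.MP_347b49_nt.CommonZerosPolynomialHeights
open Pool.Agent.D0H76.SPC (WF G coe_WF samp_f up cnt avg_low)
open Pool.Agent.R321.RC (PF mem_PF avg2 LI)
open H370 (NN)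
open H385 (LF)

/-- The sequence `⌊α n ^ h⌋`. -/
noncomputable def seq (α h : ℝ) (n : ℕ) : ℕ := ⌊α * (n : ℝ) ^ h⌋₊

/-- The indices `n` with `X < ⌊α n ^ h⌋ ≤ Y`. -/
def idx (α h : ℝ) (X Y : ℕ) : Set ℕ := {n : ℕ | X < seq α h n ∧ seq α h n ≤ Y}

/-- The sum of `f q χ r ψ / (n q m r)` over all indices `n`, `m` with `q = ⌊α n ^ h⌋` and `r = ⌊β m ^ l⌋` in `(X, Y]` and
all pairs of primitive Dirichlet characters `χ` of conductor `q` and `ψ` of conductor `r`. -/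
noncomputable def avgS (α h β l : ℝ) (X Y : ℕ)
    (f : (q : ℕ) → DirichletCharacter ℂ q → (r : ℕ) → DirichletCharacter ℂ r → ℕ) : ℝ :=
  ∑ᶠ m ∈ idx β l X Y, ∑ᶠ n ∈ idx α h X Y, ∑ᶠ χ ∈ prim (seq α h n), ∑ᶠ ψ ∈ prim (seq β l m),
    (f (seq α h n) χ (seq β l m) ψ : ℝ) / ((n : ℝ) * seq α h n * (m * seq β l m))

theorem idx_eq {α h : ℝ} (hα : 0 < α) (hh : 0 < h) (X Y : ℕ) : idx α h X Y = ((WF α h X Y : Finset ℕ) : Set ℕ) :=
  (coe_WF hα hh X Y).symm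

theorem avgS_eq {α h β l : ℝ} (hα : 0 < α) (hh : 0 < h) (hβ : 0 < β) (hl : 0 < l) (X Y : ℕ)
    (f : (q : ℕ) → DirichletCharacter ℂ q → (r : ℕ) → DirichletCharacter ℂ r → ℕ) :
    avgS α h β l X Y f = ∑ m ∈ WF β l X Y, (∑ n ∈ WF α h X Y,
      G f ⌊α * (n : ℝ) ^ h⌋₊ ⌊β * (m : ℝ) ^ l⌋₊ / ((⌊α * (n : ℝ) ^ h⌋₊ : ℝ) * ⌊β * (m : ℝ) ^ l⌋₊) / n) / m := by
  unfold avgS
  rw [idx_eq hα hh, idx_eq hβ hl, finsum_mem_coe_finset]
  refine Finset.sum_congr rfl fun m hm => ?_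
  rw [finsum_mem_coe_finset, Finset.sum_div]
  refine Finset.sum_congr rfl fun n hn => ?_
  have hm0 : seq β l m ≠ 0 := by
    rw [← Finset.mem_coe, ← idx_eq hβ hl] at hm
    have := hm.1
    omega
  have hn0 : seq α h n ≠ 0 := by
    rw [← Finset.mem_coe, ← idx_eq hα hh] at hn
    have := hn.1
    omega
  rw [finsum_prim hn0]
  unfold G
  rw [Finset.sum_div, Finset.sum_div, Finset.sum_div]
  refine Finset.sum_congr rfl fun χ _ => ?_
  rw [finsum_prim hm0, Finset.sum_div, Finset.sum_div, Finset.sum_div]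
  refine Finset.sum_congr rfl fun ψ _ => ?_
  rw [div_div, div_div]
  congr 1
  unfold seq
  ring

theorem avg_eq' (X Y : ℕ) (f : (q : ℕ) → DirichletCharacter ℂ q → (r : ℕ) → DirichletCharacter ℂ r → ℕ) :
    avg X Y f = ∑ q ∈ Finset.Ioc X Y, ∑ r ∈ Finset.Ioc X Y, G f q r / ((q : ℝ) * r) / ((q : ℝ) * r) := by
  unfold avg
  refine Finset.sum_congr rfl fun q hq => ?_
  have hq0 : q ≠ 0 := by
    rw [Finset.mem_Ioc] at hq
    omega
  rw [finsum_prim hq0]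
  have h1 : ∀ r ∈ Finset.Ioc X Y, G f q r / ((q : ℝ) * r) / ((q : ℝ) * r) =
      ∑ χ ∈ PF q, ∑ ψ ∈ PF r, (f q χ r ψ : ℝ) / ((q : ℝ) ^ 2 * (r : ℝ) ^ 2) := by
    intro r _
    unfold G
    rw [div_div, Finset.sum_div]
    refine Finset.sum_congr rfl fun χ _ => ?_
    rw [Finset.sum_div]
    refine Finset.sum_congr rfl fun ψ _ => ?_
    congr 1
    ring
  rw [Finset.sum_congr rfl h1, Finset.sum_comm]
  refine Finset.sum_congr rfl fun r hr => ?_
  refine Finset.sum_congr rfl fun χ _ => ?_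
  have hr0 : r ≠ 0 := by
    rw [Finset.mem_Ioc] at hr
    omega
  rw [finsum_prim hr0]

/-- the final comparison -/
theorem fin_cmp {a κ s T SN SO AN AO e : ℝ} (hκ : 0 < κ) (hT : 0 < T) (he : 0 < e)
    (h1 : |SN - κ * AN| ≤ s * T) (h2 : |SO - κ * AO| ≤ s * T)
    (hA : T ≤ AN) (h3 : (a - e / 2) * AN ≤ AO) (hs : (|a - e| + 1) * s ≤ κ * e / 2) :
    (a - e) * SN ≤ SO := by
  rw [abs_le] at h1 h2
  have hs0 : 0 ≤ s * T := by linarith [h1.1, h1.2]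
  have k1 : (a - e) * (SN - κ * AN) ≤ |a - e| * (s * T) := by
    calc (a - e) * (SN - κ * AN) ≤ |(a - e) * (SN - κ * AN)| := le_abs_self _
      _ = |a - e| * |SN - κ * AN| := abs_mul _ _
      _ ≤ |a - e| * (s * T) := mul_le_mul_of_nonneg_left (abs_le.2 h1) (abs_nonneg _)
  have k2 : κ * ((a - e / 2) * AN) ≤ κ * AO := mul_le_mul_of_nonneg_left h3 hκ.le
  have k3 : (|a - e| + 1) * s * T ≤ κ * e / 2 * T := mul_le_mul_of_nonneg_right hs hT.le
  have k4 : κ * e / 2 * T ≤ κ * e / 2 * AN := mul_le_mul_of_nonneg_left hA (by positivity)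
  nlinarith [h2.1]

/-- **Common zeros of two Dirichlet L-functions on average over all pairs of primitive characters with conductors
`⌊α n ^ h⌋` and `⌊β m ^ l⌋`, for almost every `α` and almost every `β`.** -/
theorem lamv :
    (∀ h l lam : ℝ, 0 < h → 0 < l → 1 < lam → ∀ᵐ α : ℝ, 0 < α → ∀ᵐ β : ℝ, 0 < β →
      ∀ τ ε : ℝ, 0 ≤ τ → 0 < ε → ∃ (K η : ℝ) (i₀ : ℕ), 1 ≤ K ∧ 0 < η ∧
      ∀ i j k : ℕ, i₀ ≤ i → ∀ (X Y : ℕ) (T : ℝ), X = ⌊lam ^ i⌋₊ → Y = ⌊lam ^ j⌋₊ → T = lam ^ k →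
      K * X ≤ Y → (Y : ℝ) ≤ (X : ℝ) ^ (1 + η) → 4 * (Real.log X) ^ 2 ≤ T → T ≤ (X : ℝ) ^ τ →
      (idx α h X Y).Finite ∧ (idx β l X Y).Finite ∧
      (∀ q : ℕ, X < q → ∀ χ ∈ prim q, (zeros (Lfun q χ) T).Finite) ∧
      0 < avgS α h β l X Y (fun q χ _ _ => N (Lfun q χ) T) ∧
      (2 - c ((2 + τ) / (1 + τ)) - ε) * avgS α h β l X Y (fun q χ _ _ => N (Lfun q χ) T) ≤
        avgS α h β l X Y (fun q χ r ψ => (only (Lfun q χ) (Lfun r ψ) T).ncard) ∧
      (3 - c ((2 + τ) / (1 + τ)) - ε) * avgS α h β l X Y (fun q χ _ _ => N (Lfun q χ) T) ≤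
        avgS α h β l X Y (fun q χ r ψ => (zeros (Lfun q χ) T ∪ zeros (Lfun r ψ) T).ncard) ∧
      avgS α h β l X Y (fun q χ r ψ => common (Lfun q χ) (Lfun r ψ) T) ≤
        (c ((2 + τ) / (1 + τ)) - 1 + ε) * avgS α h β l X Y (fun q χ _ _ => N (Lfun q χ) T)) ∧
    (∀ a b : ℝ, 0 < a → a ≤ b → b ≤ 2 → c b ≤ c a) ∧
    c 2 ≤ 1.6421 ∧ c (3 / 2) ≤ 1.827 ∧ c (19 / 15) ≤ 1.9975 := by
  refine ⟨?_, Pool.Agent.Results.MP_347b49_nt.CommonZerosPolynomialHeights.result.2⟩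
  intro h l lam hh hl0 hl
  obtain ⟨C, hC, hup⟩ := up
  have hlognn : ∀ (q : ℕ) (T : ℝ), 1 ≤ q → 3 ≤ T → 0 ≤ Real.log (q * (2 * T)) := by
    intro q T hq hT
    have : (1 : ℝ) ≤ q := by exact_mod_cast hq
    exact Real.log_nonneg (by nlinarith)
  have hsum : ∀ (T : ℝ) (q : ℕ) (χ : DirichletCharacter ℂ q) (r : ℕ) (ψ : DirichletCharacter ℂ r), 3 ≤ T → 1 ≤ q →
      1 ≤ r → χ.IsPrimitive → ψ.IsPrimitive →
      ((NN (LF q χ) T (2 * T) + NN (LF r ψ) T (2 * T) : ℕ) : ℝ) ≤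
        C * T * (Real.log (q * (2 * T)) + Real.log (r * (2 * T))) := by
    intro T q χ r ψ hT hq hr hχ hψ
    have k1 := hup q χ hq hχ T hT
    have k2 := hup r ψ hr hψ T hT
    push_cast
    rw [mul_add]
    exact add_le_add k1 k2
  have sN := samp_f h l hh hl0 lam hl C hC.le (fun T q χ _ _ => N (Lfun q χ) T) (by
    intro T q χ r ψ hT hq hr hχ hψ
    refine le_trans ?_ (hsum T q χ r ψ hT hq hr hχ hψ)
    exact_mod_cast Nat.le_add_right _ _)
  have sO := samp_f h l hh hl0 lam hl C hC.le (fun T q χ r ψ => (only (Lfun q χ) (Lfun r ψ) T).ncard) (by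
    intro T q χ r ψ hT hq hr hχ hψ
    refine le_trans ?_ (hsum T q χ r ψ hT hq hr hχ hψ)
    exact_mod_cast (cnt hq hr χ hχ ψ hψ (by linarith : 1 ≤ T)).1)
  have sU := samp_f h l hh hl0 lam hl C hC.le
    (fun T q χ r ψ => (zeros (Lfun q χ) T ∪ zeros (Lfun r ψ) T).ncard) (by
    intro T q χ r ψ hT hq hr hχ hψ
    refine le_trans ?_ (hsum T q χ r ψ hT hq hr hχ hψ)
    exact_mod_cast (cnt hq hr χ hχ ψ hψ (by linarith : 1 ≤ T)).2.1)
  have sC := samp_f h l hh hl0 lam hl C hC.le (fun T q χ r ψ => common (Lfun q χ) (Lfun r ψ) T) (by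
    intro T q χ r ψ hT hq hr hχ hψ
    refine le_trans ?_ (hsum T q χ r ψ hT hq hr hχ hψ)
    exact_mod_cast (cnt hq hr χ hχ ψ hψ (by linarith : 1 ≤ T)).2.2)
  filter_upwards [sN, sO, sU, sC] with α aN aO aU aC hα0
  filter_upwards [aN hα0, aO hα0, aU hα0, aC hα0] with β bN bO bU bC hβ0 τ ε hτ hε
  obtain ⟨K, η, X0, hK, hη, hX0, hst⟩ :=
    Pool.Agent.Results.MP_347b49_nt.CommonZerosPolynomialHeights.result.1 τ (ε / 2) hτ (by positivity)
  obtain ⟨K2, X1, hK2, hX1, hal⟩ := avg_low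
  obtain ⟨κ, hκ⟩ : ∃ κ : ℝ, κ = 1 / (h * l) := ⟨_, rfl⟩
  have hκ0 : 0 < κ := by rw [hκ]; positivity
  obtain ⟨cc, hcc⟩ : ∃ cc : ℝ, cc = c ((2 + τ) / (1 + τ)) := ⟨_, rfl⟩
  obtain ⟨A, hA⟩ : ∃ A : ℝ, A = |2 - cc - ε| + |3 - cc - ε| + |1 - cc - ε| + 1 := ⟨_, rfl⟩
  have hn1 := abs_nonneg (2 - cc - ε)
  have hn2 := abs_nonneg (3 - cc - ε)
  have hn3 := abs_nonneg (1 - cc - ε)
  have hA1 : 1 ≤ A := by linarith
  have hA0 : 0 < A := by linarith
  obtain ⟨s, hs⟩ : ∃ s : ℝ, s = min (κ * ε / (2 * A)) (κ / 2) := ⟨_, rfl⟩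
  have hs0 : 0 < s := by rw [hs]; positivity
  have hsA : A * s ≤ κ * ε / 2 := by
    have : s ≤ κ * ε / (2 * A) := by rw [hs]; exact min_le_left _ _
    calc A * s ≤ A * (κ * ε / (2 * A)) := mul_le_mul_of_nonneg_left this hA0.le
      _ = κ * ε / 2 := by field_simp
  have hs2 : s ≤ κ / 2 := by rw [hs]; exact min_le_right _ _
  obtain ⟨B, hB⟩ : ∃ B : ℕ, B = max 3 ⌈τ⌉₊ := ⟨_, rfl⟩
  have hll : 0 < Real.log lam := Real.log_pos hl
  have hpow : Tendsto (fun i : ℕ => lam ^ i) atTop atTop := tendsto_pow_atTop_atTop_of_one_lt hl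
  have hall : ∀ᶠ i : ℕ in atTop, _ := ((bN hβ0 s hs0 B).and ((bO hβ0 s hs0 B).and ((bU hβ0 s hs0 B).and
    ((bC hβ0 s hs0 B).and (hpow.eventually_ge_atTop (max X0 X1 + Real.exp 1 + 2))))))
  obtain ⟨i₀, hi₀⟩ := eventually_atTop.1 hall
  refine ⟨max (max K K2) 2, min η 1, i₀, ?_, lt_min hη one_pos, ?_⟩
  · exact le_trans (by norm_num) (le_max_right _ _)
  intro i j k hi X Y T hX hY hT hKX hYX hT1 hT2
  obtain ⟨gN, gO, gU, gC, gi⟩ := hi₀ i hi
  have hXr : lam ^ i < (X : ℝ) + 1 := by rw [hX]; exact Nat.lt_floor_add_one _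
  have hXl : (X : ℝ) ≤ lam ^ i := by rw [hX]; exact Nat.floor_le (by positivity)
  have hYr : lam ^ j < (Y : ℝ) + 1 := by rw [hY]; exact Nat.lt_floor_add_one _
  have hmx0 := le_max_left X0 X1
  have hmx1 := le_max_right X0 X1
  have he1 := Real.exp_pos 1
  have hXX0 : X0 ≤ X := by linarith
  have hXX1 : X1 ≤ X := by linarith
  have hXe : Real.exp 1 ≤ X := by linarith
  have hX1' : (1 : ℝ) ≤ X := by linarith
  have hXpos : (0 : ℝ) < X := by linarith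
  have hKX1 : K * X ≤ Y :=
    (mul_le_mul_of_nonneg_right ((le_max_left K K2).trans (le_max_left _ _)) hXpos.le).trans hKX
  have hKX2 : K2 * X ≤ Y :=
    (mul_le_mul_of_nonneg_right ((le_max_right K K2).trans (le_max_left _ _)) hXpos.le).trans hKX
  have hKX3 : 2 * (X : ℝ) ≤ Y := (mul_le_mul_of_nonneg_right (le_max_right _ _) hXpos.le).trans hKX
  have hYX1 : (Y : ℝ) ≤ (X : ℝ) ^ (1 + η) :=
    hYX.trans (Real.rpow_le_rpow_of_exponent_le hX1' (by linarith [min_le_left η 1]))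
  have hYX2 : (Y : ℝ) ≤ (X : ℝ) ^ 2 := by
    refine (hYX.trans (Real.rpow_le_rpow_of_exponent_le hX1'
      (show 1 + min η 1 ≤ ((2 : ℕ) : ℝ) by push_cast; linarith [min_le_right η 1]))).trans (le_of_eq ?_)
    rw [Real.rpow_natCast]
  have hlX1 : 1 ≤ Real.log X := by
    rw [Real.le_log_iff_exp_le hXpos]
    exact hXe
  have hT4 : 4 ≤ T := by nlinarith
  have hTpos : 0 < T := by linarith
  -- the exponents
  have hlam0 : 0 < lam := by linarith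
  have hij : i ≤ j := by
    by_contra hcon
    push Not at hcon
    have h1 : lam ^ j ≤ lam ^ i := pow_le_pow_right₀ hl.le hcon.le
    have h2 : Y ≤ X := by
      rw [hX, hY]
      exact Nat.floor_le_floor h1
    have h3 : (Y : ℝ) ≤ X := by exact_mod_cast h2
    linarith
  have hj3 : j ≤ 3 * i := by
    by_contra hcon
    push Not at hcon
    have h1 : lam ^ (3 * i) ≤ lam ^ j := pow_le_pow_right₀ hl.le hcon.le
    have h2 : lam ^ (3 * i) = (lam ^ i) ^ 3 := by rw [← pow_mul, mul_comm]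
    have h3 : (X : ℝ) ^ 2 ≤ (lam ^ i) ^ 2 := pow_le_pow_left₀ hXpos.le hXl 2
    have h4 : (2 : ℝ) ≤ lam ^ i := by linarith
    obtain ⟨y, hy⟩ : ∃ y, y = lam ^ i := ⟨_, rfl⟩
    rw [← hy] at h2 h3 h4
    have h5 : y ^ 3 < y ^ 2 + 1 := by
      rw [h2] at h1
      linarith
    nlinarith [sq_nonneg y]
  have hjB : j ≤ B * i := hj3.trans (Nat.mul_le_mul_right i (by rw [hB]; exact le_max_left _ _))
  have hkB : k ≤ B * i := by
    have h1 : (k : ℝ) * Real.log lam ≤ τ * (i * Real.log lam) := by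
      have h2 : T ≤ (lam ^ i) ^ τ := hT2.trans (Real.rpow_le_rpow hXpos.le hXl hτ)
      rw [hT] at h2
      have h3 := Real.log_le_log (by positivity) h2
      rw [Real.log_pow, Real.log_rpow (by positivity), Real.log_pow] at h3
      exact h3
    have h2 : (k : ℝ) ≤ τ * i := by
      have : (k : ℝ) * Real.log lam ≤ (τ * i) * Real.log lam := by linarith
      exact le_of_mul_le_mul_right this hll
    have h3 : (k : ℝ) ≤ ((B * i : ℕ) : ℝ) := by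
      push_cast
      refine h2.trans (mul_le_mul_of_nonneg_right ?_ (Nat.cast_nonneg i))
      have h4 : (⌈τ⌉₊ : ℝ) ≤ (B : ℝ) := by
        rw [hB]
        exact_mod_cast le_max_right 3 ⌈τ⌉₊
      exact (Nat.le_ceil τ).trans h4
    exact_mod_cast h3
  have h3k : 3 ≤ lam ^ k := by rw [← hT]; linarith
  have qN := gN j k hij hjB hkB h3k
  have qO := gO j k hij hjB hkB h3k
  have qU := gU j k hij hjB hkB h3k
  have qC := gC j k hij hjB hkB h3k
  have eX : Pool.Agent.D0H76.SPC.X lam i = X := by rw [hX]; rfl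
  have eY : Pool.Agent.D0H76.SPC.X lam j = Y := by rw [hY]; rfl
  rw [← hT, eX, eY, ← avg_eq', ← avgS_eq hα0 hh hβ0 hl0, ← hκ] at qN qO qU qC
  obtain ⟨r1, r2, r3, r4, r5⟩ := hst X Y T hXX0 hKX1 hYX1 hT1 hT2
  have hAN := hal X Y T hXX1 hKX2 hYX2 hT1
  have eAN : avg X Y (fun q χ _ _ => N (Lfun q χ) T) = avg2 X Y (fun z => (NN (LI z.1) T (2 * T) : ℝ)) :=
    avg_eq X Y _
  rw [← eAN] at hAN
  rw [← hcc] at r3 r4 r5 ⊢
  refine ⟨?_, ?_, r2, ?_, ?_, ?_, ?_⟩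
  · rw [idx_eq hα0 hh]
    exact Finset.finite_toSet _
  · rw [idx_eq hβ0 hl0]
    exact Finset.finite_toSet _
  · have h1 := (abs_le.1 qN).1
    have h2 : κ * T ≤ κ * avg X Y (fun q χ _ _ => N (Lfun q χ) T) := mul_le_mul_of_nonneg_left hAN hκ0.le
    have h3 : s * T ≤ κ / 2 * T := mul_le_mul_of_nonneg_right hs2 hTpos.le
    have h4 : 0 < κ * T := by positivity
    linarith
  · refine fin_cmp hκ0 hTpos hε qN qO hAN r3 (le_trans ?_ hsA)
    exact mul_le_mul_of_nonneg_right (by linarith) hs0.le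
  · refine fin_cmp hκ0 hTpos hε qN qU hAN r4 (le_trans ?_ hsA)
    exact mul_le_mul_of_nonneg_right (by linarith) hs0.le
  · have h1 := fin_cmp (a := 1 - cc) (SO := -avgS α h β l X Y (fun q χ r ψ => common (Lfun q χ) (Lfun r ψ) T))
      (AO := -avg X Y (fun q χ r ψ => common (Lfun q χ) (Lfun r ψ) T)) hκ0 hTpos hε qN (by
        rw [show -avgS α h β l X Y (fun q χ r ψ => common (Lfun q χ) (Lfun r ψ) T) -
          κ * -avg X Y (fun q χ r ψ => common (Lfun q χ) (Lfun r ψ) T) =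
          -(avgS α h β l X Y (fun q χ r ψ => common (Lfun q χ) (Lfun r ψ) T) -
          κ * avg X Y (fun q χ r ψ => common (Lfun q χ) (Lfun r ψ) T)) by ring, abs_neg]
        exact qC) hAN (by linarith) (le_trans (mul_le_mul_of_nonneg_right (by linarith) hs0.le) hsA)
    linarith

end Pool.Agent.D0H76.SPC.Sparse
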