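import Pool.Agent.D0H76.SPC.Bd

/-! # Comparison of the zeros in two windows of heights -/

set_option autoImplicit false

open Complex Filter Topology MeasureTheory Set

namespace Pool.Agent.D0H76.SPC

open H370 (zset mult NN Nd Ns GoodL)
open Pool.Agent.R321.RC (mult_pos_iff On Cm)
open H385 (LF)

/-- `(T1, T2]` is covered by `(T3, T4]` and `(A, B]` -/
def Cov (T1 T2 T3 T4 A B : ℝ) : Prop := ∀ x, T1 < x → x ≤ T2 → (T3 < x ∧ x ≤ T4) ∨ (A < x ∧ x ≤ B)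

theorem zset_cov {T1 T2 T3 T4 A B : ℝ} (hc : Cov T1 T2 T3 T4 A B) (F : ℂ → ℂ) :
    zset F T1 T2 ⊆ zset F T3 T4 ∪ zset F A B := by
  rintro s ⟨a1, a2, a3, a4, a5⟩
  rcases hc s.im a3 a4 with h | h
  · exact Or.inl ⟨a1, a2, h.1, h.2, a5⟩
  · exact Or.inr ⟨a1, a2, h.1, h.2, a5⟩

theorem ncard_le_NN {F : ℂ → ℂ} (hF : GoodL F) {A B : ℝ} (hA : 1 ≤ A) : (zset F A B).ncard ≤ NN F A B := by
  have hfin := H370.zset_finite hF A B hA
  unfold NN
  rw [finsum_mem_eq_finite_toFinset_sum _ hfin, Set.ncard_eq_toFinset_card _ hfin, Finset.card_eq_sum_ones]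
  refine Finset.sum_le_sum fun s hs => ?_
  rw [Set.Finite.mem_toFinset] at hs
  exact (mult_pos_iff hF (by linarith [hs.2.2.1])).2 hs.2.2.2.2

theorem sum_cov {S S1 S2 : Set ℂ} (h1 : S1.Finite) (h2 : S2.Finite) (hS : S ⊆ S1 ∪ S2) (g : ℂ → ℕ) :
    ∑ᶠ s ∈ S, g s ≤ ∑ᶠ s ∈ S1, g s + ∑ᶠ s ∈ S2, g s := by
  classical
  have h0 : S.Finite := (h1.union h2).subset hS
  rw [finsum_mem_eq_finite_toFinset_sum _ h0, finsum_mem_eq_finite_toFinset_sum _ h1,
    finsum_mem_eq_finite_toFinset_sum _ h2]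
  refine le_trans (Finset.sum_le_sum_of_subset (t := h1.toFinset ∪ h2.toFinset) ?_) ?_
  · intro s hs
    simp only [Finset.mem_union, Set.Finite.mem_toFinset] at hs ⊢
    exact hS hs
  · have := Finset.sum_union_inter (s₁ := h1.toFinset) (s₂ := h2.toFinset) (f := g)
    omega

theorem NN_cov {F : ℂ → ℂ} (hF : GoodL F) {T1 T2 T3 T4 A B : ℝ} (h3 : 1 ≤ T3) (hA : 1 ≤ A)
    (hc : Cov T1 T2 T3 T4 A B) : NN F T1 T2 ≤ NN F T3 T4 + NN F A B :=
  sum_cov (H370.zset_finite hF _ _ h3) (H370.zset_finite hF _ _ hA) (zset_cov hc F) _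

theorem On_cov {F G : ℂ → ℂ} (hF : GoodL F) {T T' A B : ℝ} (h1 : 1 ≤ T') (hA : 1 ≤ A)
    (hc : Cov T (2 * T) T' (2 * T') A B) : On F G T ≤ On F G T' + NN F A B := by
  unfold On
  have f3 := H370.zset_finite hF T' (2 * T') h1
  have fA := H370.zset_finite hF A B hA
  refine le_trans (Set.ncard_le_ncard (t := {s : ℂ | s ∈ zset F T' (2 * T') ∧ s.re = 1 / 2 ∧ mult F s = 1 ∧ G s ≠ 0} ∪
    zset F A B) ?_ ?_) ((Set.ncard_union_le _ _).trans (Nat.add_le_add_left (ncard_le_NN hF hA) _))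
  · rintro s ⟨hs, hs2⟩
    rcases zset_cov hc F hs with h | h
    · exact Or.inl ⟨h, hs2⟩
    · exact Or.inr h
  · exact (f3.subset fun s hs => hs.1).union fA

theorem Un_cov {F G : ℂ → ℂ} (hF : GoodL F) (hG : GoodL G) {T T' A B : ℝ} (h1 : 1 ≤ T') (hA : 1 ≤ A)
    (hc : Cov T (2 * T) T' (2 * T') A B) :
    (zset F T (2 * T) ∪ zset G T (2 * T)).ncard ≤ (zset F T' (2 * T') ∪ zset G T' (2 * T')).ncard +
      (NN F A B + NN G A B) := by
  have f1 := H370.zset_finite hF T' (2 * T') h1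
  have f2 := H370.zset_finite hG T' (2 * T') h1
  have f3 := H370.zset_finite hF A B hA
  have f4 := H370.zset_finite hG A B hA
  refine le_trans (Set.ncard_le_ncard (t := (zset F T' (2 * T') ∪ zset G T' (2 * T')) ∪
    (zset F A B ∪ zset G A B)) ?_ ?_) ((Set.ncard_union_le _ _).trans (Nat.add_le_add_left ?_ _))
  · rintro s (hs | hs)
    · rcases zset_cov hc F hs with h | h
      · exact Or.inl (Or.inl h)
      · exact Or.inr (Or.inl h)
    · rcases zset_cov hc G hs with h | h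
      · exact Or.inl (Or.inr h)
      · exact Or.inr (Or.inr h)
  · exact (f1.union f2).union (f3.union f4)
  · exact (Set.ncard_union_le _ _).trans (Nat.add_le_add (ncard_le_NN hF hA) (ncard_le_NN hG hA))

theorem Cm_cov {F G : ℂ → ℂ} (hF : GoodL F) {T T' A B : ℝ} (h1 : 1 ≤ T') (hA : 1 ≤ A)
    (hc : Cov T (2 * T) T' (2 * T') A B) : Cm F G T ≤ Cm F G T' + NN F A B := by
  unfold Cm
  have f1 := H370.zset_finite hF T' (2 * T') h1
  have f3 := H370.zset_finite hF A B hA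
  refine (sum_cov (S1 := zset F T' (2 * T') ∩ zset G T' (2 * T')) (S2 := zset F A B)
    (f1.subset Set.inter_subset_left) f3 ?_ _).trans (Nat.add_le_add_left ?_ _)
  · rintro s ⟨hs, hs2⟩
    obtain ⟨a1, a2, a3, a4, a5⟩ := hs
    obtain ⟨b1, b2, b3, b4, b5⟩ := hs2
    rcases hc s.im a3 a4 with h | h
    · exact Or.inl ⟨⟨a1, a2, h.1, h.2, a5⟩, ⟨a1, a2, h.1, h.2, b5⟩⟩
    · exact Or.inr ⟨a1, a2, h.1, h.2, a5⟩
  · unfold NN
    rw [finsum_mem_eq_finite_toFinset_sum _ f3, finsum_mem_eq_finite_toFinset_sum _ f3]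
    exact Finset.sum_le_sum fun s _ => min_le_left _ _

/-- the zeros in the layers -/
theorem layer : ∃ C : ℝ, 0 < C ∧ ∀ (q : ℕ) (χ : DirichletCharacter ℂ q), 1 ≤ q → χ.IsPrimitive → ∀ A B : ℝ, 3 ≤ A →
    A + 1 ≤ B → (NN (LF q χ) A B : ℝ) ≤ C * (B - A) * Real.log (q * B) := by
  obtain ⟨A0, hA0, hgood⟩ := H385.good_dirichlet_U
  obtain ⟨C, hC, h⟩ := H385.zcount_long A0 hA0
  refine ⟨C, hC, fun q χ hq hχ A B hA hB => ?_⟩
  have hq' : NeZero q := ⟨by omega⟩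
  exact h q (H385.LF q χ) _ (by exact_mod_cast hq) (by rw [H385.LF_eq]; exact hgood q χ hχ) A B hA hB

end Pool.Agent.D0H76.SPC
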