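import Pool.Agent.D0H76.SPC.Win
import Pool.Agent.D0H76.SPC.Lay

/-! # The masses of the windows -/

set_option autoImplicit false

open Filter Topology MeasureTheory Finset

namespace Pool.Agent.D0H76.SPC

open Pool.Agent.R321.RC (PF mem_PF primSet_eq)
open H385 (WW primFam_eq)

theorem WW_sum (X Y : ℕ) : ∑ q ∈ Ioc X Y, P q / q = WW X Y := by
  unfold WW
  rw [primFam_eq, primSet_eq, Finset.sum_sigma]
  refine Finset.sum_congr rfl fun q _ => ?_
  unfold P
  simp only [mul_one]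
  rw [Finset.sum_const, nsmul_eq_mul, div_div]
  ring

theorem inv_sum (A B : ℕ) (hA : 1 ≤ A) (hAB : A ≤ B) : ∑ q ∈ Ioc A B, (1 : ℝ) / q ≤ Real.log B - Real.log A := by
  induction B, hAB using Nat.le_induction with
  | base => simp
  | succ B hB ih =>
    rw [← Finset.insert_Ioc_right_eq_Ioc_add_one hB, Finset.sum_insert (by simp)]
    have hB0 : (0 : ℝ) < B := by exact_mod_cast (by omega : 0 < B)
    have h1 : 1 - (((B : ℝ) + 1) / B)⁻¹ ≤ Real.log (((B : ℝ) + 1) / B) := Real.one_sub_inv_le_log_of_pos (by positivity)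
    rw [Real.log_div (by positivity) (by positivity)] at h1
    have h2 : 1 - (((B : ℝ) + 1) / B)⁻¹ = 1 / ((B : ℝ) + 1) := by field_simp; ring
    push_cast
    linarith

/-- sums of `1 / n` and masses of the windows -/
theorem masses (h : ℝ) (hh : 0 < h) (lam : ℝ) (hl : 1 < lam) : ∀ᵐ α : ℝ, 0 < α → ∀ s : ℝ, 0 < s → ∀ B : ℕ,
    ∀ᶠ i : ℕ in atTop, ∀ j : ℕ, i ≤ j → j ≤ B * i →
      ∑ n ∈ WF α h (X lam i) (X lam j), (1 : ℝ) / n ≤ 1 / h * ∑ q ∈ Ioc (X lam i) (X lam j), (1 : ℝ) / q + s ∧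
      1 / h * WW (X lam i) (X lam j) - s ≤ W α h (X lam i) (X lam j) := by
  classical
  have h1 := samp1 h hh lam hl 0 1 (fun i j _ q => if X lam i < q ∧ q ≤ X lam j then 1 else 0) (by
    intro i j k q
    simp only [pow_zero, mul_one]
    split_ifs <;> simp) (by
    intro i j k q hne
    by_contra hcon
    exact hne (if_neg hcon))
  have h2 := samp1 h hh lam hl 0 1 (fun i j _ q => if X lam i < q ∧ q ≤ X lam j then P q else 0) (by
    intro i j k q
    simp only [pow_zero, mul_one]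
    split_ifs
    · rw [abs_of_nonneg (P_nonneg q)]
      exact P_le q
    · simp) (by
    intro i j k q hne
    by_contra hcon
    exact hne (if_neg hcon))
  filter_upwards [h1, h2] with α a1 a2 hα0 s hs B
  filter_upwards [a1 hα0 s hs B, a2 hα0 s hs B] with i g1 g2 j hij hj
  have k1 := g1 j 0 hij hj (Nat.zero_le _) (Nw α h (X lam j)) (Nat.le_ceil _)
  have k2 := g2 j 0 hij hj (Nat.zero_le _) (Nw α h (X lam j)) (Nat.le_ceil _)
  constructor
  · have e1 : ∑ n ∈ WF α h (X lam i) (X lam j), (1 : ℝ) / n = ∑ n ∈ Icc 1 (Nw α h (X lam j)),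
        (if X lam i < ⌊α * (n : ℝ) ^ h⌋₊ ∧ ⌊α * (n : ℝ) ^ h⌋₊ ≤ X lam j then (1 : ℝ) else 0) / n := by
      rw [sum_WF]
      refine Finset.sum_congr rfl fun n _ => ?_
      split_ifs
      · rfl
      · exact (zero_div _).symm
    have e2 : ∑ q ∈ Ioc (X lam i) (X lam j), (1 : ℝ) / q = ∑ q ∈ Ioc (X lam i) (X lam j),
        (if X lam i < q ∧ q ≤ X lam j then (1 : ℝ) else 0) / q := by
      refine Finset.sum_congr rfl fun q hq => ?_
      rw [Finset.mem_Ioc] at hq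
      rw [if_pos hq]
    rw [e1, e2]
    linarith [(abs_le.1 k1).2]
  · have e1 : W α h (X lam i) (X lam j) = ∑ n ∈ Icc 1 (Nw α h (X lam j)),
        (if X lam i < ⌊α * (n : ℝ) ^ h⌋₊ ∧ ⌊α * (n : ℝ) ^ h⌋₊ ≤ X lam j then P ⌊α * (n : ℝ) ^ h⌋₊ else 0) / n := by
      unfold W
      rw [sum_WF]
      refine Finset.sum_congr rfl fun n _ => ?_
      split_ifs
      · rfl
      · exact (zero_div _).symm
    have e2 : WW (X lam i) (X lam j) = ∑ q ∈ Ioc (X lam i) (X lam j),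
        (if X lam i < q ∧ q ≤ X lam j then P q else 0) / q := by
      rw [← WW_sum]
      refine Finset.sum_congr rfl fun q hq => ?_
      rw [Finset.mem_Ioc] at hq
      rw [if_pos hq]
    rw [e1, e2]
    linarith [(abs_le.1 k2).1]

/-- lower bound of the right order -/
theorem low2 : ∃ X1 : ℝ, 1 ≤ X1 ∧ ∀ (X : ℕ) (T : ℝ), X1 ≤ X → 4 * (Real.log X) ^ 2 ≤ T →
    ∀ (q : ℕ) (χ : DirichletCharacter ℂ q), X < q → (q : ℝ) ≤ (X : ℝ) ^ 2 → χ.IsPrimitive →
      1 / (4 * Real.pi) * T * Real.log (X * T) ≤ (H370.NN (H385.LF q χ) T (2 * T) : ℝ) := by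
  obtain ⟨A, hA, hgood⟩ := H385.good_dirichlet_U
  obtain ⟨C, hC, hlow⟩ := H385.N_lower A hA
  obtain ⟨l0, hl0⟩ := Pool.Agent.N880.HD.sq_log_le
  have hpi := Real.pi_pos
  obtain ⟨L0, hL0⟩ : ∃ L0 : ℝ, L0 = |l0| + 8 + 16 * Real.pi * C := ⟨_, rfl⟩
  have hpc : 0 < 16 * Real.pi * C := by positivity
  have hl0n := abs_nonneg l0
  have hL0a : l0 ≤ L0 := by linarith [le_abs_self l0]
  have hL0b : 8 ≤ L0 := by linarith
  have hL0c : 16 * Real.pi * C ≤ L0 := by linarith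
  refine ⟨Real.exp L0, Real.one_le_exp (by linarith), fun X T hX hT q χ hq hqX hχ => ?_⟩
  have hXpos : (0 : ℝ) < X := (Real.exp_pos _).trans_le hX
  obtain ⟨lX, hlX⟩ : ∃ lX, lX = Real.log X := ⟨_, rfl⟩
  have hlX0 : L0 ≤ lX := by rw [hlX, Real.le_log_iff_exp_le hXpos]; exact hX
  rw [← hlX] at hT
  have hT1 : 1 ≤ T := by nlinarith
  have hTpos : 0 < T := by linarith
  have hlT0 : 0 ≤ Real.log T := Real.log_nonneg hT1
  obtain ⟨L, hL⟩ : ∃ L, L = lX + Real.log T := ⟨_, rfl⟩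
  have hLe : Real.log (X * T) = L := by rw [Real.log_mul hXpos.ne' hTpos.ne', hL, hlX]
  rw [hLe]
  have hLL0 : L0 ≤ L := by linarith
  have hL8 : 8 ≤ L := by linarith
  have hTL : L ^ 2 ≤ T := by rw [hL]; exact hl0 lX T (by linarith) hT
  have hq1 : 1 ≤ q := by omega
  have hqX' : (X : ℝ) ≤ q := by exact_mod_cast hq.le
  have hqpos : (0 : ℝ) < q := by linarith
  have hq' : NeZero q := ⟨by omega⟩
  have h1 := hlow q (H385.LF q χ) _ (by exact_mod_cast hq1) (by rw [H385.LF_eq]; exact hgood q χ hχ) T L (by linarith)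
    (by nlinarith)
  refine le_trans ?_ h1
  have hlog : Real.log ((q : ℝ) * T) = Real.log q + Real.log T := Real.log_mul hqpos.ne' hTpos.ne'
  have a1 : L ≤ Real.log ((q : ℝ) * T) := by
    rw [hlog, hL, hlX]
    have := Real.log_le_log hXpos hqX'
    linarith
  have a2 : Real.log ((q : ℝ) * T) ≤ 2 * L := by
    rw [hlog, hL]
    have h2 : Real.log q ≤ 2 * lX := by
      have h3 := Real.log_le_log hqpos hqX
      rw [Real.log_pow, ← hlX] at h3
      push_cast at h3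
      exact h3
    linarith
  obtain ⟨M, hM⟩ : ∃ M, M = Real.log ((q : ℝ) * T) := ⟨_, rfl⟩
  rw [← hM] at a1 a2 ⊢
  have hM0 : 0 ≤ M := by linarith
  have b1 : L * M ≤ 2 * T := by nlinarith
  have b2 : M ^ 2 * Real.exp (-L ^ 2 / 2) ≤ 1 := by
    have h2 : M ^ 2 ≤ 4 * L ^ 2 := by nlinarith
    have h3 : 4 * L ^ 2 ≤ Real.exp (L ^ 2 / 2) := by
      have h4 := Real.quadratic_le_exp_of_nonneg (by positivity : 0 ≤ L ^ 2 / 2)
      have h5 : (64 : ℝ) ≤ L ^ 2 := by nlinarith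
      nlinarith
    have h4 : Real.exp (-L ^ 2 / 2) = (Real.exp (L ^ 2 / 2))⁻¹ := by
      rw [← Real.exp_neg]
      congr 1
      ring
    rw [h4, ← div_eq_mul_inv, div_le_one (Real.exp_pos _)]
    linarith
  have b3 : T * M ^ 2 * Real.exp (-L ^ 2 / 2) ≤ T := by
    calc T * M ^ 2 * Real.exp (-L ^ 2 / 2) = T * (M ^ 2 * Real.exp (-L ^ 2 / 2)) := by ring
      _ ≤ T * 1 := mul_le_mul_of_nonneg_left b2 hTpos.le
      _ = T := mul_one T
  have b4 : C * (T + L * M + T * M ^ 2 * Real.exp (-L ^ 2 / 2)) ≤ C * (4 * T) :=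
    mul_le_mul_of_nonneg_left (by linarith) hC.le
  have b5 : T * (4 * C) ≤ T / (2 * Real.pi) * (L / 2) := by
    have h2 : 16 * Real.pi * C ≤ L := by linarith
    calc T * (4 * C) = T / (2 * Real.pi) * ((16 * Real.pi * C) / 2) := by field_simp; ring
      _ ≤ _ := mul_le_mul_of_nonneg_left (by linarith) (by positivity)
  have b6 : T / (2 * Real.pi) * L ≤ T / (2 * Real.pi) * M := mul_le_mul_of_nonneg_left a1 (by positivity)
  have b7 : 1 / (4 * Real.pi) * T * L = T / (2 * Real.pi) * (L / 2) := by field_simp; ring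
  have b8 : T / (2 * Real.pi) * L = T / (2 * Real.pi) * (L / 2) + T / (2 * Real.pi) * (L / 2) := by ring
  linarith

end Pool.Agent.D0H76.SPC
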