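import Pool.Agent.D0H76.SPC.Fam

/-! # Change of the windows of conductors -/

set_option autoImplicit false

open Filter Topology MeasureTheory Finset

namespace Pool.Agent.D0H76.SPC

open Pool.Agent.R321.RC (PF mem_PF)

theorem mem_WF {α h : ℝ} {X Y n : ℕ} (hn : n ∈ WF α h X Y) :
    1 ≤ n ∧ X < ⌊α * (n : ℝ) ^ h⌋₊ ∧ ⌊α * (n : ℝ) ^ h⌋₊ ≤ Y := by
  unfold WF at hn
  rw [Finset.mem_filter, Finset.mem_Icc] at hn
  exact ⟨hn.1.1, hn.2⟩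

theorem mem_WF_iff {α h : ℝ} (hα : 0 < α) (hh : 0 < h) {X Y n : ℕ} : n ∈ WF α h X Y ↔
    X < ⌊α * (n : ℝ) ^ h⌋₊ ∧ ⌊α * (n : ℝ) ^ h⌋₊ ≤ Y := by
  rw [← Finset.mem_coe, coe_WF hα hh]
  rfl

theorem WF_mono {α h : ℝ} (hα : 0 < α) (hh : 0 < h) {X Y X' Y' : ℕ} (hX : X ≤ X') (hY : Y' ≤ Y) :
    WF α h X' Y' ⊆ WF α h X Y := by
  intro n hn
  rw [mem_WF_iff hα hh] at hn ⊢
  omega

/-- the double sum -/
noncomputable def T2 (α h β l : ℝ) (X Y : ℕ) (g : ℕ → ℕ → ℝ) : ℝ :=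
  ∑ m ∈ WF β l X Y, ∑ n ∈ WF α h X Y, g ⌊α * (n : ℝ) ^ h⌋₊ ⌊β * (m : ℝ) ^ l⌋₊ / ((n : ℝ) * m)

theorem T2_fun (α h β l : ℝ) (X Y : ℕ) (g g' : ℕ → ℕ → ℝ)
    (hg : ∀ q r, X < q → q ≤ Y → X < r → r ≤ Y → g q r ≤ g' q r) : T2 α h β l X Y g ≤ T2 α h β l X Y g' := by
  unfold T2
  refine Finset.sum_le_sum fun m hm => Finset.sum_le_sum fun n hn => ?_
  obtain ⟨m1, m2, m3⟩ := mem_WF hm
  obtain ⟨n1, n2, n3⟩ := mem_WF hn
  exact div_le_div_of_nonneg_right (hg _ _ n2 n3 m2 m3) (by positivity)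

theorem T2_add (α h β l : ℝ) (X Y : ℕ) (g g' : ℕ → ℕ → ℝ) :
    T2 α h β l X Y (fun q r => g q r + g' q r) = T2 α h β l X Y g + T2 α h β l X Y g' := by
  unfold T2
  rw [← Finset.sum_add_distrib]
  refine Finset.sum_congr rfl fun m _ => ?_
  rw [← Finset.sum_add_distrib]
  exact Finset.sum_congr rfl fun n _ => add_div _ _ _

theorem T2_sub (α h β l : ℝ) (X Y : ℕ) (g g' : ℕ → ℕ → ℝ) :
    T2 α h β l X Y (fun q r => g q r - g' q r) = T2 α h β l X Y g - T2 α h β l X Y g' := by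
  unfold T2
  rw [← Finset.sum_sub_distrib]
  refine Finset.sum_congr rfl fun m _ => ?_
  rw [← Finset.sum_sub_distrib]
  exact Finset.sum_congr rfl fun n _ => sub_div _ _ _

theorem T2_win {α h β l : ℝ} (hα : 0 < α) (hh : 0 < h) (hβ : 0 < β) (hl : 0 < l) {X Y X' Y' : ℕ} (hX : X ≤ X')
    (hY : Y' ≤ Y) (g : ℕ → ℕ → ℝ) (hg : ∀ q r, X < q → q ≤ Y → X < r → r ≤ Y → 0 ≤ g q r) :
    T2 α h β l X' Y' g ≤ T2 α h β l X Y g := by
  unfold T2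
  have hnn : ∀ m ∈ WF β l X Y, ∀ n ∈ WF α h X Y,
      0 ≤ g ⌊α * (n : ℝ) ^ h⌋₊ ⌊β * (m : ℝ) ^ l⌋₊ / ((n : ℝ) * m) := by
    intro m hm n hn
    obtain ⟨m1, m2, m3⟩ := mem_WF hm
    obtain ⟨n1, n2, n3⟩ := mem_WF hn
    have := hg _ _ n2 n3 m2 m3
    positivity
  calc ∑ m ∈ WF β l X' Y', ∑ n ∈ WF α h X' Y', g ⌊α * (n : ℝ) ^ h⌋₊ ⌊β * (m : ℝ) ^ l⌋₊ / ((n : ℝ) * m)
      ≤ ∑ m ∈ WF β l X' Y', ∑ n ∈ WF α h X Y, g ⌊α * (n : ℝ) ^ h⌋₊ ⌊β * (m : ℝ) ^ l⌋₊ / ((n : ℝ) * m) := by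
        refine Finset.sum_le_sum fun m hm => ?_
        exact Finset.sum_le_sum_of_subset_of_nonneg (WF_mono hα hh hX hY)
          (fun n hn _ => hnn m (WF_mono hβ hl hX hY hm) n hn)
    _ ≤ _ := Finset.sum_le_sum_of_subset_of_nonneg (WF_mono hβ hl hX hY)
        (fun m hm _ => Finset.sum_nonneg fun n hn => hnn m hm n hn)

/-- proportion of primitive characters -/
noncomputable def P (q : ℕ) : ℝ := ((PF q).card : ℝ) / q

theorem P_nonneg (q : ℕ) : 0 ≤ P q := by unfold P; positivity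

theorem P_le (q : ℕ) : P q ≤ 1 := by
  unfold P
  by_cases hq : q = 0
  · rw [hq]
    simp
  · have h1 := card_PF q (by omega)
    have h2 : (0 : ℝ) < q := by exact_mod_cast Nat.pos_of_ne_zero hq
    rw [div_le_one h2]
    exact h1

/-- mass of the indices -/
noncomputable def W (α h : ℝ) (X Y : ℕ) : ℝ := ∑ n ∈ WF α h X Y, P ⌊α * (n : ℝ) ^ h⌋₊ / n

theorem W_nonneg (α h : ℝ) (X Y : ℕ) : 0 ≤ W α h X Y :=
  Finset.sum_nonneg fun n _ => div_nonneg (P_nonneg _) (Nat.cast_nonneg n)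

theorem T2_PP (α h β l : ℝ) (X Y : ℕ) (M : ℝ) :
    T2 α h β l X Y (fun q r => M * (P q * P r)) = M * (W α h X Y * W β l X Y) := by
  unfold T2 W
  rw [mul_comm (∑ n ∈ WF α h X Y, _), Finset.sum_mul_sum, Finset.mul_sum]
  refine Finset.sum_congr rfl fun m _ => ?_
  rw [Finset.mul_sum]
  refine Finset.sum_congr rfl fun n _ => ?_
  ring

theorem W_mono {α h : ℝ} (hα : 0 < α) (hh : 0 < h) {X Y X' Y' : ℕ} (hX : X ≤ X') (hY : Y' ≤ Y) :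
    W α h X' Y' ≤ W α h X Y :=
  Finset.sum_le_sum_of_subset_of_nonneg (WF_mono hα hh hX hY)
    fun n _ _ => div_nonneg (P_nonneg _) (Nat.cast_nonneg n)

theorem W_layers {α h : ℝ} (hα : 0 < α) (hh : 0 < h) {X Y X' Y' : ℕ} :
    W α h X Y ≤ W α h X' Y' + ∑ n ∈ WF α h X X', (1 : ℝ) / n + ∑ n ∈ WF α h Y' Y, (1 : ℝ) / n := by
  classical
  have hsub : WF α h X Y ⊆ WF α h X' Y' ∪ (WF α h X X' ∪ WF α h Y' Y) := by
    intro n hn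
    rw [Finset.mem_union, Finset.mem_union, mem_WF_iff hα hh, mem_WF_iff hα hh, mem_WF_iff hα hh]
    rw [mem_WF_iff hα hh] at hn
    omega
  have hnn : ∀ n : ℕ, 0 ≤ P ⌊α * (n : ℝ) ^ h⌋₊ / n := fun n => div_nonneg (P_nonneg _) (Nat.cast_nonneg n)
  have hle : ∀ n : ℕ, P ⌊α * (n : ℝ) ^ h⌋₊ / n ≤ (1 : ℝ) / n := fun n =>
    div_le_div_of_nonneg_right (P_le _) (Nat.cast_nonneg n)
  have hun : ∀ A B : Finset ℕ, ∑ n ∈ A ∪ B, P ⌊α * (n : ℝ) ^ h⌋₊ / n ≤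
      ∑ n ∈ A, P ⌊α * (n : ℝ) ^ h⌋₊ / n + ∑ n ∈ B, P ⌊α * (n : ℝ) ^ h⌋₊ / n := by
    intro A B
    have h1 := Finset.sum_union_inter (s₁ := A) (s₂ := B) (f := fun n : ℕ => P ⌊α * (n : ℝ) ^ h⌋₊ / n)
    have h2 : 0 ≤ ∑ n ∈ A ∩ B, P ⌊α * (n : ℝ) ^ h⌋₊ / n := Finset.sum_nonneg fun n _ => hnn n
    linarith
  unfold W
  calc ∑ n ∈ WF α h X Y, P ⌊α * (n : ℝ) ^ h⌋₊ / n ≤
        ∑ n ∈ WF α h X' Y' ∪ (WF α h X X' ∪ WF α h Y' Y), P ⌊α * (n : ℝ) ^ h⌋₊ / n :=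
        Finset.sum_le_sum_of_subset_of_nonneg hsub fun n _ _ => hnn n
    _ ≤ _ := hun _ _
    _ ≤ ∑ n ∈ WF α h X' Y', P ⌊α * (n : ℝ) ^ h⌋₊ / n +
        (∑ n ∈ WF α h X X', P ⌊α * (n : ℝ) ^ h⌋₊ / n + ∑ n ∈ WF α h Y' Y, P ⌊α * (n : ℝ) ^ h⌋₊ / n) :=
        add_le_add le_rfl (hun _ _)
    _ ≤ ∑ n ∈ WF α h X' Y', P ⌊α * (n : ℝ) ^ h⌋₊ / n +
        (∑ n ∈ WF α h X X', (1 : ℝ) / n + ∑ n ∈ WF α h Y' Y, (1 : ℝ) / n) :=
        add_le_add le_rfl (add_le_add (Finset.sum_le_sum fun n _ => hle n) (Finset.sum_le_sum fun n _ => hle n))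
    _ = _ := by ring

/-- the normalised sum over all pairs of primitive characters -/
noncomputable def g (f : (q : ℕ) → DirichletCharacter ℂ q → (r : ℕ) → DirichletCharacter ℂ r → ℕ) (q r : ℕ) : ℝ :=
  G f q r / ((q : ℝ) * r)

theorem T2_g (α h β l : ℝ) (X Y : ℕ) (f : (q : ℕ) → DirichletCharacter ℂ q → (r : ℕ) → DirichletCharacter ℂ r → ℕ) :
    ∑ m ∈ WF β l X Y, (∑ n ∈ WF α h X Y,
      G f ⌊α * (n : ℝ) ^ h⌋₊ ⌊β * (m : ℝ) ^ l⌋₊ / ((⌊α * (n : ℝ) ^ h⌋₊ : ℝ) * ⌊β * (m : ℝ) ^ l⌋₊) / n) / m =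
    T2 α h β l X Y (g f) := by
  unfold T2 g
  refine Finset.sum_congr rfl fun m _ => ?_
  rw [Finset.sum_div]
  exact Finset.sum_congr rfl fun n _ => div_div _ _ _

theorem g_nonneg (f : (q : ℕ) → DirichletCharacter ℂ q → (r : ℕ) → DirichletCharacter ℂ r → ℕ) (q r : ℕ) :
    0 ≤ g f q r := div_nonneg (G_nonneg f q r) (by positivity)

theorem g_le (f f' : (q : ℕ) → DirichletCharacter ℂ q → (r : ℕ) → DirichletCharacter ℂ r → ℕ) (q r : ℕ)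
    (hq : 1 ≤ q) (hr : 1 ≤ r) (M : ℝ)
    (hf : ∀ (χ : DirichletCharacter ℂ q) (ψ : DirichletCharacter ℂ r), χ.IsPrimitive → ψ.IsPrimitive →
      (f q χ r ψ : ℝ) ≤ f' q χ r ψ + M) : g f q r ≤ g f' q r + M * (P q * P r) := by
  have hq0 : (0 : ℝ) < q := by exact_mod_cast hq
  have hr0 : (0 : ℝ) < r := by exact_mod_cast hr
  have h1 : G f q r ≤ G f' q r + M * ((PF q).card * (PF r).card) := by
    unfold G
    have h2 : ∀ χ ∈ PF q, ∑ ψ ∈ PF r, (f q χ r ψ : ℝ) ≤ ∑ ψ ∈ PF r, (f' q χ r ψ : ℝ) + (PF r).card * M := by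
      intro χ hχ
      calc ∑ ψ ∈ PF r, (f q χ r ψ : ℝ) ≤ ∑ ψ ∈ PF r, ((f' q χ r ψ : ℝ) + M) :=
            Finset.sum_le_sum fun ψ hψ => hf χ ψ ((mem_PF (by omega) χ).1 hχ) ((mem_PF (by omega) ψ).1 hψ)
        _ = _ := by rw [Finset.sum_add_distrib, Finset.sum_const, nsmul_eq_mul]
    calc ∑ χ ∈ PF q, ∑ ψ ∈ PF r, (f q χ r ψ : ℝ) ≤
          ∑ χ ∈ PF q, (∑ ψ ∈ PF r, (f' q χ r ψ : ℝ) + (PF r).card * M) := Finset.sum_le_sum h2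
      _ = _ := by
          rw [Finset.sum_add_distrib, Finset.sum_const, nsmul_eq_mul]
          ring
  unfold g P
  calc G f q r / ((q : ℝ) * r) ≤ (G f' q r + M * ((PF q).card * (PF r).card)) / ((q : ℝ) * r) :=
        div_le_div_of_nonneg_right h1 (by positivity)
    _ = _ := by field_simp

/-- **Change of the window and of the function.** -/
theorem T2_cmp {α h β l : ℝ} (hα : 0 < α) (hh : 0 < h) (hβ : 0 < β) (hl : 0 < l) {X Y X' Y' : ℕ} (hX : X ≤ X')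
    (hY : Y' ≤ Y) (f f' : (q : ℕ) → DirichletCharacter ℂ q → (r : ℕ) → DirichletCharacter ℂ r → ℕ) (M M' : ℝ)
    (hf : ∀ (q : ℕ) (χ : DirichletCharacter ℂ q) (r : ℕ) (ψ : DirichletCharacter ℂ r), X < q → q ≤ Y → X < r → r ≤ Y →
      χ.IsPrimitive → ψ.IsPrimitive → (f q χ r ψ : ℝ) ≤ M ∧ (f q χ r ψ : ℝ) ≤ f' q χ r ψ + M' ∧
      (f' q χ r ψ : ℝ) ≤ f q χ r ψ + M') :
    T2 α h β l X Y (g f) ≤ T2 α h β l X' Y' (g f') + M * (W α h X Y * W β l X Y - W α h X' Y' * W β l X' Y') +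
      M' * (W α h X' Y' * W β l X' Y') ∧
    T2 α h β l X' Y' (g f') ≤ T2 α h β l X Y (g f) + M' * (W α h X' Y' * W β l X' Y') := by
  have a1 : T2 α h β l X' Y' (g f) ≤ T2 α h β l X' Y' (g f') + M' * (W α h X' Y' * W β l X' Y') := by
    rw [← T2_PP, ← T2_add]
    refine T2_fun _ _ _ _ _ _ _ _ fun q r h1 h2 h3 h4 => ?_
    exact g_le f f' q r (by omega) (by omega) M' fun χ ψ hχ hψ =>
      (hf q χ r ψ (by omega) (by omega) (by omega) (by omega) hχ hψ).2.1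
  have a2 : T2 α h β l X' Y' (g f') ≤ T2 α h β l X' Y' (g f) + M' * (W α h X' Y' * W β l X' Y') := by
    rw [← T2_PP, ← T2_add]
    refine T2_fun _ _ _ _ _ _ _ _ fun q r h1 h2 h3 h4 => ?_
    exact g_le f' f q r (by omega) (by omega) M' fun χ ψ hχ hψ =>
      (hf q χ r ψ (by omega) (by omega) (by omega) (by omega) hχ hψ).2.2
  have a3 : T2 α h β l X' Y' (g f) ≤ T2 α h β l X Y (g f) :=
    T2_win hα hh hβ hl hX hY _ fun q r _ _ _ _ => g_nonneg f q r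
  have a4 : T2 α h β l X' Y' (fun q r => M * (P q * P r) - g f q r) ≤
      T2 α h β l X Y (fun q r => M * (P q * P r) - g f q r) := by
    refine T2_win hα hh hβ hl hX hY _ fun q r h1 h2 h3 h4 => ?_
    have h5 := g_le f (fun _ _ _ _ => 0) q r (by omega) (by omega) M fun χ ψ hχ hψ => by
      have := (hf q χ r ψ h1 h2 h3 h4 hχ hψ).1
      push_cast
      linarith
    have h6 : g (fun _ _ _ _ => 0) q r = 0 := by
      unfold g G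
      simp
    linarith
  rw [T2_sub, T2_sub, T2_PP, T2_PP] at a4
  constructor
  · linarith
  · linarith

theorem T2_low (α h β l : ℝ) (X Y : ℕ) (f : (q : ℕ) → DirichletCharacter ℂ q → (r : ℕ) → DirichletCharacter ℂ r → ℕ)
    (m : ℝ) (hf : ∀ (q : ℕ) (χ : DirichletCharacter ℂ q) (r : ℕ) (ψ : DirichletCharacter ℂ r), X < q → q ≤ Y → X < r →
      r ≤ Y → χ.IsPrimitive → ψ.IsPrimitive → m ≤ (f q χ r ψ : ℝ)) :
    m * (W α h X Y * W β l X Y) ≤ T2 α h β l X Y (g f) := by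
  rw [← T2_PP]
  refine T2_fun _ _ _ _ _ _ _ _ fun q r h1 h2 h3 h4 => ?_
  have h5 := g_le (fun _ _ _ _ => 0) f q r (by omega) (by omega) (-m) fun χ ψ hχ hψ => by
    have := hf q χ r ψ h1 h2 h3 h4 hχ hψ
    push_cast
    linarith
  have h6 : g (fun _ _ _ _ => 0) q r = 0 := by
    unfold g G
    simp
  linarith

end Pool.Agent.D0H76.SPC
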